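import Pool.Agent.H98.SPC.CountBad

/-!
# Block families
-/

namespace Pool.Agent.H98.SPC

open Finset
open Pool.Agent.H10.Sync

variable {n k : ℕ} {G : OutRegular n k}

theorem cind_mem {r : ℕ} {F : Set (Fin n → Fin r)} {φ : Fin n → Fin r} (hφ : φ ∈ F) (l : Fin r) :
    cind φ l ∈ blockSpan F := Submodule.subset_span ⟨φ, hφ, l, rfl⟩

theorem sum_cind (w : Fin n → ℚ) {r : ℕ} (φ : Fin n → Fin r) (l : Fin r) :
    ∑ v, w v * cind φ l v = ∑ v with φ v = l, w v - (∑ v, w v) / r := by
  unfold cind
  simp only [mul_sub, sum_sub_distrib, mul_ite, mul_one, mul_zero]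
  rw [sum_filter, ← sum_mul]
  ring

theorem blockSpan_perp {w : Fin n → ℚ} {r : ℕ} (hr : 2 ≤ r) {F : Set (Fin n → Fin r)}
    (hF : BlockFamily G w F) {f : Fin n → ℚ} (hf : f ∈ blockSpan F) : ∑ v, w v * f v = 0 := by
  have hr0 : (r : ℚ) ≠ 0 := by
    have : r ≠ 0 := by omega
    exact_mod_cast this
  refine Submodule.span_induction (p := fun f _ => ∑ v, w v * f v = 0) ?_ ?_ ?_ ?_ hf
  · rintro _ ⟨φ, hφ, l, rfl⟩
    rw [sum_cind, ← ((hF.2 φ hφ).1 l), mul_div_cancel_left₀ _ hr0, sub_self]
  · simp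
  · intro x y _ _ hx hy
    simp only [Pi.add_apply, mul_add, sum_add_distrib, hx, hy, add_zero]
  · intro a x _ hx
    have h1 : ∀ v, w v * (a • x) v = a * (w v * x v) := by
      intro v
      simp only [Pi.smul_apply, smul_eq_mul]
      ring
    rw [sum_congr rfl fun v _ => h1 v, ← mul_sum, hx, mul_zero]

/-- The span of a block family is admissible and not zero. -/
theorem blockSpan_admissible [Nonempty (Fin n)] {w : Fin n → ℚ} (hw : IsWeight G w) {r : ℕ}
    (hr : 2 ≤ r) {F : Set (Fin n → Fin r)} (hF : BlockFamily G w F) :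
    blockSpan F ≠ ⊥ ∧ Admissible G (blockSpan F) := by
  classical
  have hr0 : (r : ℚ) ≠ 0 := by
    have : r ≠ 0 := by omega
    exact_mod_cast this
  refine ⟨?_, ?_, ?_, r, hr, ?_⟩
  · -- not zero
    intro hbot
    obtain ⟨v⟩ := (inferInstance : Nonempty (Fin n))
    obtain ⟨φ, hφ⟩ := hF.1
    have h1 := cind_mem hφ (φ v)
    rw [hbot, Submodule.mem_bot] at h1
    have h2 := congrFun h1 v
    simp only [cind, if_true, Pi.zero_apply] at h2
    have h3 : (r : ℚ) = 1 := by
      field_simp at h2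
      linarith
    have h4 : r = 1 := by exact_mod_cast h3
    omega
  · -- invariant
    intro f hf
    refine Submodule.span_induction (p := fun f _ => adj G f ∈ blockSpan F) ?_ ?_ ?_ ?_ hf
    · rintro _ ⟨φ, hφ, l, rfl⟩
      obtain ⟨c, hc⟩ := (hF.2 φ hφ).2.2
      have h1 : adj G (cind φ l) = ∑ i, cind (fun v => φ (step G c v i)) l := by
        funext v
        rw [adj_apply, Finset.sum_apply]
        exact (Equiv.sum_comp (c v).symm fun e => cind φ l (G v e)).symm
      rw [h1]
      exact Submodule.sum_mem _ fun i _ => cind_mem (hc i) l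
    · rw [map_zero]
      exact Submodule.zero_mem _
    · intro x y _ _ hx hy
      rw [map_add]
      exact Submodule.add_mem _ hx hy
    · intro a x _ hx
      rw [map_smul]
      exact Submodule.smul_mem _ _ hx
  · -- the constant function
    intro h1
    have h2 := blockSpan_perp hr hF h1
    simp only [mul_one] at h2
    have h3 : 0 < ∑ v, w v := sum_pos (fun v _ => hw.1 v) univ_nonempty
    linarith
  · -- active vertices
    rintro v ⟨f, hf, e1, e2, hne⟩
    have h1 : ∃ φ ∈ F, φ (G v e1) ≠ φ (G v e2) := by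
      by_contra hcon
      push Not at hcon
      apply hne
      refine Submodule.span_induction (p := fun f _ => f (G v e1) = f (G v e2)) ?_ ?_ ?_ ?_ hf
      · rintro _ ⟨φ, hφ, l, rfl⟩
        unfold cind
        rw [hcon φ hφ]
      · rfl
      · intro x y _ _ hx hy
        rw [Pi.add_apply, Pi.add_apply, hx, hy]
      · intro a x _ hx
        rw [Pi.smul_apply, Pi.smul_apply, hx]
    obtain ⟨φ, hφ, hφne⟩ := h1
    obtain ⟨-, hconf, c, hc⟩ := hF.2 φ hφ
    refine ⟨fun u => φ (step G c u (c v e1)), fun u => φ (step G c u (c v e2)), ?_, ?_,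
      fun l => ⟨cind_mem (hc _) l, cind_mem (hc _) l⟩⟩
    · change φ (step G c v (c v e1)) ≠ φ (step G c v (c v e2))
      rw [step_color, step_color]
      exact hφne
    · intro u hu
      exact hconf u hu _ _

/-- The block family of a coloring which is not synchronizing. -/
theorem exists_blockFamily (hk : 1 ≤ k) (hG : Primitive G) {w : Fin n → ℚ} (hw : IsWeight G w)
    (c : Coloring n k) (hn : ¬ Synchronizing G c) :
    ∃ r, 2 ≤ r ∧ ∃ F : Set (Fin n → Fin r), BlockFamily G w F ∧
      (∀ f ∈ blockSpan F, ∀ i, (fun v => f (step G c v i)) ∈ blockSpan F) ∧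
      ∃ S : Finset (Fin n), S.card = r ∧ ∀ f ∈ blockSpan F, ∑ s ∈ S, f s = 0 := by
  classical
  have hne := nonempty_of_primitive hG
  obtain ⟨L, hL⟩ := exists_confluence_bound G
  obtain ⟨w0, S, hlen, hS2, hw0, hsurj, hS⟩ := exists_min_long (step G c) hk hn L
  set δ := step G c with hδ
  set r := S.card with hr
  have hr0 : (r : ℚ) ≠ 0 := by
    have : r ≠ 0 := by omega
    exact_mod_cast this
  let e : S ≃ Fin r := S.equivFin
  have hmem : ∀ w v, run δ v (w ++ w0) ∈ S := by
    intro w v
    rw [run_append]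
    exact hw0 _
  let Φ : List (Fin k) → Fin n → Fin r := fun w v => e ⟨run δ v (w ++ w0), hmem w v⟩
  have hΦcons : ∀ i w v, Φ (i :: w) v = Φ w (δ v i) := fun i w v => rfl
  let F : Set (Fin n → Fin r) := Set.range Φ
  have hFmem : ∀ w, Φ w ∈ F := fun w => ⟨w, rfl⟩
  have hind : ∀ w l s, (if Φ w s = l then (1 : ℚ) else 0) =
      if run δ s (w ++ w0) = (e.symm l : Fin n) then 1 else 0 := by
    intro w l s
    congr 1
    apply propext
    constructor
    · intro h
      rw [← h]
      simp [Φ]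
    · intro h
      have h2 : (⟨run δ s (w ++ w0), hmem w s⟩ : S) = e.symm l := Subtype.ext h
      simp only [Φ]
      rw [h2, Equiv.apply_symm_apply]
  -- the letters
  have hstep : ∀ f ∈ blockSpan F, ∀ i, (fun v => f (δ v i)) ∈ blockSpan F := by
    intro f hf i
    refine Submodule.span_induction (p := fun f _ => (fun v => f (δ v i)) ∈ blockSpan F)
      ?_ ?_ ?_ ?_ hf
    · rintro _ ⟨_, ⟨w, rfl⟩, l, rfl⟩
      exact cind_mem (hFmem (i :: w)) l
    · exact Submodule.zero_mem _
    · intro x y _ _ hx hy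
      exact Submodule.add_mem _ hx hy
    · intro a x _ hx
      exact Submodule.smul_mem _ a hx
  have hadj : ∀ f ∈ blockSpan F, adj G f ∈ blockSpan F := by
    intro f hf
    have h1 : adj G f = ∑ i, fun v => f (δ v i) := by
      funext v
      rw [adj_apply, Finset.sum_apply]
      exact (Equiv.sum_comp (c v).symm fun e => f (G v e)).symm
    rw [h1]
    exact Submodule.sum_mem _ fun i _ => hstep f hf i
  -- the sum over `S`
  have hsum : ∀ f ∈ blockSpan F, ∑ s ∈ S, f s = 0 := by
    intro f hf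
    refine Submodule.span_induction (p := fun f _ => ∑ s ∈ S, f s = 0) ?_ ?_ ?_ ?_ hf
    · rintro _ ⟨_, ⟨w, rfl⟩, l, rfl⟩
      change ∑ s ∈ S, ((if Φ w s = l then (1 : ℚ) else 0) - 1 / (r : ℚ)) = 0
      rw [sum_sub_distrib, sum_congr rfl fun s _ => hind w l s, hS w _ (e.symm l).2, sum_const,
        nsmul_eq_mul, ← hr, mul_one_div_cancel hr0, sub_self]
    · simp
    · intro x y _ _ hx hy
      simp only [Pi.add_apply, sum_add_distrib, hx, hy, add_zero]
    · intro a x _ hx
      simp only [Pi.smul_apply, smul_eq_mul, ← mul_sum, hx, mul_zero]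
  have h1 : (fun _ => (1 : ℚ)) ∉ blockSpan F := by
    intro h1
    have h2 := hsum _ h1
    rw [sum_const, nsmul_eq_mul, mul_one] at h2
    exact hr0 h2
  refine ⟨r, hS2, F, ⟨⟨_, hFmem []⟩, ?_⟩, hstep, S, rfl, hsum⟩
  rintro _ ⟨x, rfl⟩
  refine ⟨fun l => ?_, fun u hu e1 e2 => ?_, c, fun i => hFmem (i :: x)⟩
  · have h2 := perp hG hw hadj h1 (cind_mem (hFmem x) l)
    rw [sum_cind] at h2
    field_simp at h2
    linarith
  · obtain ⟨N, hN1, hN2, z, hz⟩ := hL u hu
    have h2 : run δ u ((c u e1 :: x) ++ w0) = run δ u ((c u e2 :: x) ++ w0) := by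
      rw [List.cons_append, List.cons_append]
      apply run_confluent G c hN1 hz
      rw [List.length_append]
      omega
    have h3 : ∀ e', run δ u ((c u e' :: x) ++ w0) = run δ (G u e') (x ++ w0) := by
      intro e'
      rw [List.cons_append, run_cons, hδ, step_color]
    rw [h3, h3] at h2
    simp only [Φ, h2]

/-- If a nonzero function belongs to the spans of all block families, then the synchronizing ratio
is at least `1 - 1 / k`. -/
theorem ratio_ge_of_block (hk : 2 ≤ k) (hG : Primitive G) {w : Fin n → ℚ} (hw : IsWeight G w)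
    {h : Fin n → ℚ} (h0 : h ≠ 0) (hcom : ∀ r, 2 ≤ r → ∀ F : Set (Fin n → Fin r),
      BlockFamily G w F → h ∈ blockSpan F) :
    1 - 1 / (k : ℝ) ≤ syncRatio G := by
  classical
  have hne := nonempty_of_primitive hG
  refine ratio_ge_of_bad hk hG hw h0 fun c hc => ?_
  obtain ⟨r, hr, F, hF, hstep, -⟩ := exists_blockFamily (by omega) hG hw c hc
  obtain ⟨-, hadm⟩ := blockSpan_admissible hw hr hF
  exact ⟨blockSpan F, hadm.1, hadm.2.1, hstep, hcom r hr F hF⟩

end Pool.Agent.H98.SPC
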