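import Pool.Agent.H98.SPC.RankBound

/-!
# The functions which are constant on the out-neighbours of every vertex
-/

namespace Pool.Agent.H98.SPC

open Finset Module
open Pool.Agent.H10.Sync

variable {n k : ℕ}

theorem outConst_reachable {G : OutRegular n k} {f : Fin n → ℚ} (hf : f ∈ outConst G ∅)
    {x y : Fin n} (h : (outGraph G).Reachable x y) : f x = f y := by
  obtain ⟨p⟩ := h
  induction p with
  | nil => rfl
  | cons hadj _ ih =>
    rw [← ih]
    rw [outGraph, SimpleGraph.fromRel_adj] at hadj
    obtain ⟨_, ⟨v, e, e', h1, h2⟩ | ⟨v, e, e', h1, h2⟩⟩ := hadj
    · rw [h1, h2]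
      exact hf v (notMem_empty v) e e'
    · rw [h1, h2]
      exact hf v (notMem_empty v) e' e

theorem finrank_outConst (G : OutRegular n k) :
    finrank ℚ (outConst G ∅) = outComponents G := by
  classical
  have hfin : Finite (outGraph G).ConnectedComponent :=
    Finite.of_surjective (outGraph G).connectedComponentMk Quot.mk_surjective
  have hft : Fintype (outGraph G).ConnectedComponent := Fintype.ofFinite _
  let E : ((outGraph G).ConnectedComponent → ℚ) ≃ₗ[ℚ] outConst G ∅ :=
    { toFun := fun g => ⟨fun v => g ((outGraph G).connectedComponentMk v), by
        intro v _ e e'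
        by_cases h : G v e = G v e'
        · rw [h]
        · have h2 : (outGraph G).Adj (G v e) (G v e') := by
            rw [outGraph, SimpleGraph.fromRel_adj]
            exact ⟨h, Or.inl ⟨v, e, e', rfl, rfl⟩⟩
          have h3 : (outGraph G).connectedComponentMk (G v e) =
              (outGraph G).connectedComponentMk (G v e') :=
            SimpleGraph.ConnectedComponent.eq.2 h2.reachable
          exact congrArg g h3⟩
      map_add' := fun g g' => rfl
      map_smul' := fun c g => rfl
      invFun := fun f => fun C => C.lift (f : Fin n → ℚ) fun v w p _ =>
        outConst_reachable f.2 p.reachable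
      left_inv := by
        intro g
        funext C
        refine C.ind fun v => ?_
        rfl
      right_inv := by
        intro f
        apply Subtype.ext
        funext v
        rfl }
  rw [← E.finrank_eq, finrank_fintype_fun_eq_card, outComponents, Nat.card_eq_fintype_card]

end Pool.Agent.H98.SPC
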