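import Pool.Agent.H98.SPC.Weights

/-!
# Words of minimal rank and confluent vertices
-/

namespace Pool.Agent.H98.SPC

open Finset
open Pool.Agent.H10.Sync

variable {n k : ℕ}

/-- A word of minimal rank and length at least `L` for an automaton which is not synchronizing,
with its image `S`. -/
theorem exists_min_long (δ : Fin n → Fin k → Fin n) [Nonempty (Fin n)] (hk : 1 ≤ k)
    (hn : ¬ IsSync δ) (L : ℕ) :
    ∃ (w0 : List (Fin k)) (S : Finset (Fin n)), L ≤ w0.length ∧ 2 ≤ S.card ∧
      (∀ v, run δ v w0 ∈ S) ∧ (∀ p ∈ S, ∃ v, run δ v w0 = p) ∧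
      ∀ w, ∀ p ∈ S, ∑ s ∈ S, (if run δ s (w ++ w0) = p then (1 : ℚ) else 0) = 1 := by
  classical
  set f : List (Fin k) → ℕ := fun w => ((univ : Finset (Fin n)).image fun v => run δ v w).card
    with hf
  have hex : ∃ m, ∃ w, f w = m := ⟨_, [], rfl⟩
  obtain ⟨w1, hw1⟩ := Nat.find_spec hex
  have hmin1 : ∀ w, f w1 ≤ f w := by
    intro w
    rw [hw1]
    exact Nat.find_min' hex ⟨w, rfl⟩
  set w0 : List (Fin k) := w1 ++ List.replicate L ⟨0, hk⟩ with hw0def
  have hlen : L ≤ w0.length := by
    rw [hw0def, List.length_append, List.length_replicate]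
    omega
  have hle : f w0 ≤ f w1 := by
    have h1 : ((univ : Finset (Fin n)).image fun v => run δ v w0) =
        ((univ : Finset (Fin n)).image fun v => run δ v w1).image
          fun v => run δ v (List.replicate L ⟨0, hk⟩) := by
      rw [image_image]
      apply image_congr
      intro v _
      simp only [Function.comp_apply]
      rw [hw0def, run_append]
    rw [hf]
    dsimp only
    rw [h1]
    exact card_image_le
  have hmin : ∀ w, f w0 ≤ f w := fun w => hle.trans (hmin1 w)
  set S : Finset (Fin n) := (univ : Finset (Fin n)).image fun v => run δ v w0 with hS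
  have hmin' : ∀ w, S.card ≤ ((univ : Finset (Fin n)).image fun v => run δ v w).card := hmin
  have hcard : 1 < S.card := by
    by_contra hcon
    have h1 : S.card ≤ 1 := not_lt.1 hcon
    rw [card_le_one] at h1
    apply hn
    refine ⟨w0, run δ (Classical.arbitrary (Fin n)) w0, fun q => ?_⟩
    exact h1 _ (mem_image_of_mem _ (mem_univ q)) _ (mem_image_of_mem _ (mem_univ _))
  refine ⟨w0, S, hlen, hcard, fun v => mem_image_of_mem (fun v => run δ v w0) (mem_univ v), ?_, ?_⟩
  · intro p hp
    rw [hS, mem_image] at hp
    obtain ⟨v, _, hv⟩ := hp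
    exact ⟨v, hv⟩
  intro w p hp
  -- the word `w ++ w0` maps `S` bijectively onto `S`
  have h1 : (S.image fun s => run δ s (w ++ w0)) =
      (univ : Finset (Fin n)).image fun v => run δ v (w0 ++ (w ++ w0)) := by
    rw [hS, image_image]
    apply image_congr
    intro v _
    simp only [Function.comp_apply]
    rw [← run_append]
  have h2 : S.card ≤ (S.image fun s => run δ s (w ++ w0)).card := by
    rw [h1]
    exact hmin' _
  have hinj : Set.InjOn (fun s => run δ s (w ++ w0)) (S : Set (Fin n)) :=
    card_image_iff.1 (le_antisymm card_image_le h2)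
  have himg : (S.image fun s => run δ s (w ++ w0)) = S := by
    apply eq_of_subset_of_card_le _ h2
    intro a ha
    rw [mem_image] at ha
    obtain ⟨v, _, rfl⟩ := ha
    rw [run_append]
    exact mem_image_of_mem (fun v => run δ v w0) (mem_univ _)
  rw [← himg, mem_image] at hp
  obtain ⟨s, hs, hsp⟩ := hp
  rw [sum_eq_single s]
  · rw [if_pos hsp]
  · intro t ht hts
    rw [if_neg]
    intro htp
    exact hts (hinj (mem_coe.2 ht) (mem_coe.2 hs) (htp.trans hsp.symm))
  · intro h
    exact absurd hs h

theorem reach_run (G : OutRegular n k) (c : Coloring n k) (w : List (Fin k)) (v : Fin n) :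
    Reach G w.length v (run (step G c) v w) := by
  induction w generalizing v with
  | nil => exact rfl
  | cons x w ih =>
    refine ⟨(c v).symm x, ?_⟩
    rw [run_cons]
    exact ih (step G c v x)

/-- A common bound for the lengths after which the walks from the confluent vertices meet. -/
theorem exists_confluence_bound (G : OutRegular n k) : ∃ L, ∀ v, Confluent G v →
    ∃ N, 1 ≤ N ∧ N ≤ L ∧ ∃ z, ∀ y, Reach G N v y → y = z := by
  classical
  have h : ∀ v, ∃ N, Confluent G v → 1 ≤ N ∧ ∃ z, ∀ y, Reach G N v y → y = z := by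
    intro v
    by_cases hv : Confluent G v
    · obtain ⟨N, hN⟩ := hv
      exact ⟨N, fun _ => hN⟩
    · exact ⟨0, fun hv' => absurd hv' hv⟩
  choose N hN using h
  refine ⟨∑ v, N v, fun v hv => ⟨N v, (hN v hv).1, ?_, (hN v hv).2⟩⟩
  exact single_le_sum (f := N) (fun _ _ => Nat.zero_le _) (mem_univ v)

/-- At a confluent vertex two long words which differ only in the first letter act in the same
way. -/
theorem run_confluent (G : OutRegular n k) (c : Coloring n k) {v z : Fin n} {N : ℕ} (hN : 1 ≤ N)
    (hz : ∀ y, Reach G N v y → y = z) {w : List (Fin k)} (hw : N ≤ w.length) (i j : Fin k) :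
    run (step G c) v (i :: w) = run (step G c) v (j :: w) := by
  obtain ⟨m, rfl⟩ : ∃ m, N = m + 1 := ⟨N - 1, by omega⟩
  have h1 : ∀ i : Fin k, run (step G c) v (i :: w) = run (step G c) z (w.drop m) := by
    intro i
    have h2 : i :: w = (i :: w.take m) ++ w.drop m := by simp
    rw [h2, run_append]
    congr 1
    apply hz
    have h3 := reach_run G c (i :: w.take m) v
    rw [List.length_cons, List.length_take, min_eq_left (by omega)] at h3
    exact h3
  rw [h1 i, h1 j]

end Pool.Agent.H98.SPC
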