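import Pool.Agent.H98.SPC.Perp
import Pool.Agent.H98.SPC.Space
import Pool.Agent.H82.SR.Main

/-!
# Counting the colorings whose subspace contains a given function
-/

namespace Pool.Agent.H98.SPC

open Finset
open Pool.Agent.H10.Sync Pool.Agent.H82.SR

variable {n k : ℕ} {G : OutRegular n k}

theorem iterate_mem {U : Submodule ℚ (Fin n → ℚ)} (h1 : ∀ f ∈ U, adj G f ∈ U)
    {h : Fin n → ℚ} (hh : h ∈ U) (t : ℕ) : (adj G)^[t] h ∈ U := by
  induction t with
  | zero => exact hh
  | succ t ih =>
    rw [Function.iterate_succ_apply']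
    exact h1 _ ih

theorem exists_active (hG : Primitive G) {h : Fin n → ℚ} (hh : ¬ ∀ u v, h u = h v) :
    ∃ t v e e', ((adj G)^[t] h) (G v e) ≠ ((adj G)^[t] h) (G v e') := by
  by_contra hcon
  push Not at hcon
  have key : ∀ t v y, Reach G t v y → ((adj G)^[t] h) v = (k : ℚ) ^ t * h y := by
    intro t
    induction t with
    | zero =>
      intro v y hv
      have hv' : v = y := hv
      rw [hv', Function.iterate_zero, id, pow_zero, one_mul]
    | succ t ih =>
      rintro v y ⟨e, he⟩
      rw [Function.iterate_succ_apply', adj_apply, sum_congr rfl fun e' _ => hcon t v e' e,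
        sum_const, card_univ, Fintype.card_fin, nsmul_eq_mul, ih _ _ he, pow_succ]
      ring
  apply hh
  intro y y'
  obtain ⟨N, hN⟩ := exists_large_loops hG y
  obtain ⟨a, ha⟩ := hG.1 y y'
  have h1 := key (N + a) y y (hN _ (by omega))
  have h2 := key (N + a) y y' ((hN N le_rfl).trans ha)
  rw [h1] at h2
  rcases Nat.eq_zero_or_pos k with hk | hk
  · subst hk
    rcases Nat.eq_zero_or_pos (N + a) with h3 | h3
    · rw [h3, pow_zero, one_mul, one_mul] at h2
      exact h2
    · have h4 := hN (N + a) (by omega)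
      obtain ⟨m, hm⟩ : ∃ m, N + a = m + 1 := ⟨N + a - 1, by omega⟩
      rw [hm] at h4
      obtain ⟨e, _⟩ := h4
      exact e.elim0
  · have hk0 : (k : ℚ) ^ (N + a) ≠ 0 := pow_ne_zero _ (by exact_mod_cast hk.ne')
    exact mul_left_cancel₀ hk0 h2

theorem card_bad_le (hG : Primitive G) {w : Fin n → ℚ} (hw : IsWeight G w) {h : Fin n → ℚ}
    (hh : ¬ ∀ u v, h u = h v) (Bad : Finset (Coloring n k))
    (hB : ∀ c ∈ Bad, ∃ U : Submodule ℚ (Fin n → ℚ), (∀ f ∈ U, adj G f ∈ U) ∧
      (fun _ => (1 : ℚ)) ∉ U ∧ (∀ f ∈ U, ∀ i, (fun v => f (step G c v i)) ∈ U) ∧ h ∈ U) :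
    k * Bad.card ≤ Fintype.card (Coloring n k) := by
  classical
  obtain ⟨t, v0, e0, e1, hne⟩ := exists_active hG hh
  set g := (adj G)^[t] h with hg
  have hkey : ∀ c ∈ Bad, ∀ i, ∑ v, w v * g (step G c v i) = 0 := by
    intro c hc i
    obtain ⟨U, h1, h2, h3, h4⟩ := hB c hc
    exact perp hG hw h1 h2 (h3 g (iterate_mem h1 h4 t) i)
  refine counting Bad (fun _ => v0) (fun v e => Encodable.encode (g (G v e))) ?_ ?_ ?_
  · intro c _
    exact ⟨e0, e1, fun h => hne (Encodable.encode_injective h)⟩
  · intro c _ c' _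
    rfl
  · intro c hc c' hc' hcc i
    have h1 := hkey c hc i
    have h2 := hkey c' hc' i
    rw [← add_sum_erase univ _ (mem_univ v0)] at h1 h2
    have h3 : ∑ v ∈ univ.erase v0, w v * g (step G c' v i) =
        ∑ v ∈ univ.erase v0, w v * g (step G c v i) := by
      refine sum_congr rfl fun v hv => ?_
      unfold step
      rw [hcc v (ne_of_mem_erase hv)]
    rw [h3] at h2
    have h4 : w v0 * g (step G c v0 i) = w v0 * g (step G c' v0 i) := by linarith
    have h5 := mul_left_cancel₀ (hw.1 v0).ne' h4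
    exact congrArg Encodable.encode h5

/-- If a nonzero function belongs to a suitable subspace of every coloring which is not
synchronizing, then the synchronizing ratio is at least `1 - 1 / k`. -/
theorem ratio_ge_of_bad (hk : 2 ≤ k) (hG : Primitive G) {w : Fin n → ℚ} (hw : IsWeight G w)
    {h : Fin n → ℚ} (h0 : h ≠ 0)
    (hall : ∀ c : Coloring n k, ¬ Synchronizing G c → ∃ U : Submodule ℚ (Fin n → ℚ),
      (∀ f ∈ U, adj G f ∈ U) ∧ (fun _ => (1 : ℚ)) ∉ U ∧
      (∀ f ∈ U, ∀ i, (fun v => f (step G c v i)) ∈ U) ∧ h ∈ U) :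
    1 - 1 / (k : ℝ) ≤ syncRatio G := by
  classical
  have hne := nonempty_of_primitive hG
  set Bad : Finset (Coloring n k) := univ.filter fun c => ¬ Synchronizing G c with hBad
  have hB : ∀ c ∈ Bad, ∃ U : Submodule ℚ (Fin n → ℚ), (∀ f ∈ U, adj G f ∈ U) ∧
      (fun _ => (1 : ℚ)) ∉ U ∧ (∀ f ∈ U, ∀ i, (fun v => f (step G c v i)) ∈ U) ∧ h ∈ U :=
    fun c hc => hall c (mem_filter.1 hc).2
  have hcard : k * Bad.card ≤ Fintype.card (Coloring n k) := by
    by_cases hh : ∀ u v, h u = h v
    · have hemp : Bad = ∅ := by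
        rw [eq_empty_iff_forall_notMem]
        intro c hc
        obtain ⟨U, -, h2, -, h4⟩ := hB c hc
        obtain ⟨v0⟩ := hne
        have h5 : h v0 ≠ 0 := by
          intro h6
          apply h0
          funext v
          rw [hh v v0, h6]
          rfl
        apply h2
        have h7 : (fun _ => (1 : ℚ)) = (h v0)⁻¹ • h := by
          funext v
          simp only [Pi.smul_apply, smul_eq_mul]
          rw [hh v v0, inv_mul_cancel₀ h5]
        rw [h7]
        exact U.smul_mem _ h4
      rw [hemp]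
      simp
    · exact card_bad_le hG hw hh Bad hB
  have hpos : (0 : ℝ) < Fintype.card (Coloring n k) := by
    rw [card_coloring]
    exact pow_pos (by exact_mod_cast Nat.factorial_pos k) n
  have hk0 : (0 : ℝ) < k := by exact_mod_cast (show 0 < k by omega)
  rw [syncRatio_eq]
  have h2 : (k : ℝ) * (((univ : Finset (Coloring n k)).filter fun c => ¬ Synchronizing G c).card : ℝ) ≤
      Fintype.card (Coloring n k) := by
    rw [hBad] at hcard
    exact_mod_cast hcard
  have h3 : (((univ : Finset (Coloring n k)).filter fun c => ¬ Synchronizing G c).card : ℝ) /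
      Fintype.card (Coloring n k) ≤ 1 / (k : ℝ) := by
    rw [div_le_div_iff₀ hpos hk0]
    linarith
  linarith

end Pool.Agent.H98.SPC
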