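import Pool.Agent.H98.SPC.Stmt

/-!
# Admissible subspaces: definitions
-/

namespace Pool.Agent.H98.SPC

open Finset
open Pool.Agent.H10.Sync

variable {n k : ℕ}

theorem adj_apply (G : OutRegular n k) (f : Fin n → ℚ) (v : Fin n) :
    adj G f v = ∑ e, f (G v e) := rfl

/-- The centred indicator function of the level `l` of the map `φ`. -/
def cind {r : ℕ} (φ : Fin n → Fin r) (l : Fin r) : Fin n → ℚ :=
  fun v => (if φ v = l then 1 else 0) - 1 / (r : ℚ)

/-- A subspace `U` of the space of the rational functions on the vertices is admissible if it is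
invariant under the adjacency operator, does not contain the constant function `1`, and for some
`r ≥ 2` the following holds: for every vertex `v` such that some member of `U` is not constant on
the out-neighbours of `v` there are maps `φ` and `φ'` of the vertices into `Fin r` which take
different values at `v` and equal values at all confluent vertices, and all of whose centred
indicator functions belong to `U`. -/
def Admissible (G : OutRegular n k) (U : Submodule ℚ (Fin n → ℚ)) : Prop :=
  (∀ f ∈ U, adj G f ∈ U) ∧ (fun _ => (1 : ℚ)) ∉ U ∧
  ∃ r : ℕ, 2 ≤ r ∧ ∀ v, (∃ f ∈ U, ∃ e e', f (G v e) ≠ f (G v e')) →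
    ∃ φ φ' : Fin n → Fin r, φ v ≠ φ' v ∧ (∀ u, Confluent G u → φ u = φ' u) ∧
      ∀ l, cind φ l ∈ U ∧ cind φ' l ∈ U

/-- A nonempty family of maps `φ` of the vertices into `Fin r` is a block family for the weights
`w` if every member `φ` has levels of equal weight, is constant on the out-neighbours of every
confluent vertex, and admits a coloring (which may depend on `φ`) such that for every color `i` the
map `v ↦ φ (step G c v i)` belongs to the family. -/
def BlockFamily (G : OutRegular n k) (w : Fin n → ℚ) {r : ℕ} (F : Set (Fin n → Fin r)) : Prop :=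
  F.Nonempty ∧ ∀ φ ∈ F,
    (∀ l, (r : ℚ) * ∑ v with φ v = l, w v = ∑ v, w v) ∧
    (∀ u, Confluent G u → ∀ e e', φ (G u e) = φ (G u e')) ∧
    ∃ c : Coloring n k, ∀ i, (fun v => φ (step G c v i)) ∈ F

/-- The subspace spanned by the centred indicator functions of the members of the family. -/
def blockSpan {r : ℕ} (F : Set (Fin n → Fin r)) : Submodule ℚ (Fin n → ℚ) :=
  Submodule.span ℚ {f | ∃ φ ∈ F, ∃ l, f = cind φ l}

end Pool.Agent.H98.SPC
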