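import Pool.Agent.H98.SPC.Poly

/-!
# The invariant subspaces of a non-derogatory adjacency operator
-/

namespace Pool.Agent.H98.SPC

open Finset Module Polynomial
open Pool.Agent.H10.Sync

variable {n k : ℕ} {G : OutRegular n k}

theorem finrank_ker_comp_le {V : Type*} [AddCommGroup V] [Module ℚ V] [FiniteDimensional ℚ V]
    (T S : V →ₗ[ℚ] V) :
    finrank ℚ (LinearMap.ker (T * S)) ≤ finrank ℚ (LinearMap.ker T) +
      finrank ℚ (LinearMap.ker S) := by
  set N := LinearMap.ker (T * S) with hN
  set R : N →ₗ[ℚ] V := S.domRestrict N with hR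
  have h1 := LinearMap.finrank_range_add_finrank_ker R
  have h2 : LinearMap.range R ≤ LinearMap.ker T := by
    rintro _ ⟨⟨f, hf⟩, rfl⟩
    rw [LinearMap.mem_ker]
    exact LinearMap.mem_ker.1 hf
  have h3 : finrank ℚ (LinearMap.ker R) ≤ finrank ℚ (LinearMap.ker S) := by
    let E : LinearMap.ker R →ₗ[ℚ] LinearMap.ker S :=
      { toFun := fun f => ⟨((f : N) : V), LinearMap.mem_ker.1 f.2⟩
        map_add' := fun f g => rfl
        map_smul' := fun c f => rfl }
    apply LinearMap.finrank_le_finrank_of_injective (f := E)
    intro f g hfg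
    have h4 : (((f : N) : V)) = ((g : N) : V) := congrArg (fun x : LinearMap.ker S => (x : V)) hfg
    exact Subtype.ext (Subtype.ext h4)
  have h4 := Submodule.finrank_mono h2
  omega

theorem finrank_ker_le_natDegree
    (hnd : ∀ q : ℚ[X], q.Monic → Irreducible q → q ∣ (adj G).charpoly →
      finrank ℚ (LinearMap.ker (aeval (adj G) q)) ≤ q.natDegree) (P : ℚ[X]) :
    P ≠ 0 → finrank ℚ (LinearMap.ker (aeval (adj G) P)) ≤ P.natDegree := by
  induction P using WfDvdMonoid.induction_on_irreducible with
  | zero => intro h; exact absurd rfl h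
  | unit u hu =>
    intro _
    have h1 : LinearMap.ker (aeval (adj G) u) = ⊥ := by
      rw [eq_bot_iff]
      intro f hf
      rw [Submodule.mem_bot]
      obtain ⟨v, hv⟩ := hu.exists_left_inv
      have h2 : aeval (adj G) (v * u) f = f := by
        rw [hv, map_one]
        rfl
      rw [← h2, map_mul, Module.End.mul_apply, LinearMap.mem_ker.1 hf, map_zero]
    rw [h1, finrank_bot]
    exact Nat.zero_le _
  | mul a i ha hi ih =>
    intro _
    have h1 := ih ha
    have h2 : finrank ℚ (LinearMap.ker (aeval (adj G) i)) ≤ i.natDegree := by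
      -- a monic associate
      obtain ⟨q', hq'⟩ : ∃ q', q' = i * C i.leadingCoeff⁻¹ := ⟨_, rfl⟩
      have hlc : IsUnit (C i.leadingCoeff⁻¹ : ℚ[X]) := by
        rw [Polynomial.isUnit_C]
        exact (isUnit_iff_ne_zero.2 (inv_ne_zero (leadingCoeff_ne_zero.2 hi.ne_zero)))
      have hass : Associated i q' := by
        rw [hq']
        exact (associated_mul_unit_left i _ hlc).symm
      have hmon : q'.Monic := by
        rw [hq']
        exact monic_mul_leadingCoeff_inv hi.ne_zero
      have hirr : Irreducible q' := (hass.irreducible_iff).1 hi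
      have hker : LinearMap.ker (aeval (adj G) i) ≤ LinearMap.ker (aeval (adj G) q') := by
        intro f hf
        rw [LinearMap.mem_ker, hq', mul_comm, map_mul, Module.End.mul_apply,
          LinearMap.mem_ker.1 hf, map_zero]
      have hdeg : q'.natDegree = i.natDegree := by
        rw [hq', natDegree_mul_C (inv_ne_zero (leadingCoeff_ne_zero.2 hi.ne_zero))]
      by_cases hdvd : q' ∣ (adj G).charpoly
      · have h3 := hnd q' hmon hirr hdvd
        have h4 := Submodule.finrank_mono hker
        omega
      · have h3 : LinearMap.ker (aeval (adj G) q') = ⊥ := by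
          rw [eq_bot_iff]
          intro f hf
          rw [Submodule.mem_bot]
          obtain ⟨x, y, hxy⟩ := (hirr.coprime_iff_not_dvd).2 hdvd
          have h6 : aeval (adj G) (x * q' + y * (adj G).charpoly) f = f := by
            rw [hxy, map_one]
            rfl
          rw [← h6, map_add, map_mul, map_mul, LinearMap.add_apply, Module.End.mul_apply,
            Module.End.mul_apply, LinearMap.mem_ker.1 hf, LinearMap.aeval_self_charpoly,
            LinearMap.zero_apply, map_zero, map_zero, add_zero]
        rw [h3, le_bot_iff] at hker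
        rw [hker, finrank_bot]
        exact Nat.zero_le _
    have h3 := finrank_ker_comp_le (aeval (adj G) i) (aeval (adj G) a)
    rw [← map_mul] at h3
    rw [natDegree_mul hi.ne_zero ha]
    omega

theorem aeval_restrict_apply {U : Submodule ℚ (Fin n → ℚ)} (h1 : ∀ f ∈ U, adj G f ∈ U) (P : ℚ[X]) :
    ∀ f : U, ((aeval ((adj G).restrict h1) P f : U) : Fin n → ℚ) =
      aeval (adj G) P (f : Fin n → ℚ) := by
  induction P using Polynomial.induction_on' with
  | add p q hp hq =>
    intro f
    rw [map_add, map_add, LinearMap.add_apply, LinearMap.add_apply, Submodule.coe_add, hp, hq]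
  | monomial m a =>
    intro f
    rw [aeval_monomial, aeval_monomial, Module.End.mul_apply, Module.End.mul_apply,
      Module.algebraMap_end_apply, Module.algebraMap_end_apply, Submodule.coe_smul]
    congr 1
    induction m with
    | zero => rfl
    | succ m ih =>
      rw [pow_succ', pow_succ', Module.End.mul_apply, Module.End.mul_apply, ← ih]
      rfl

/-- The invariant subspaces are the kernels of the divisors of the characteristic polynomial. -/
theorem exists_divisor
    (hnd : ∀ q : ℚ[X], q.Monic → Irreducible q → q ∣ (adj G).charpoly →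
      finrank ℚ (LinearMap.ker (aeval (adj G) q)) ≤ q.natDegree)
    {U : Submodule ℚ (Fin n → ℚ)} (h1 : ∀ f ∈ U, adj G f ∈ U) :
    ∃ g : ℚ[X], g.Monic ∧ g ∣ (adj G).charpoly ∧ U = LinearMap.ker (aeval (adj G) g) := by
  set B := (adj G).restrict h1 with hB
  have hint : IsIntegral ℚ B := Algebra.IsIntegral.isIntegral B
  have hmon : (minpoly ℚ B).Monic := minpoly.monic hint
  refine ⟨minpoly ℚ B, hmon, ?_, ?_⟩
  · apply minpoly.dvd
    apply LinearMap.ext
    intro f
    apply Subtype.ext
    rw [aeval_restrict_apply h1, LinearMap.aeval_self_charpoly]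
    rfl
  · have hle : U ≤ LinearMap.ker (aeval (adj G) (minpoly ℚ B)) := by
      intro f hf
      rw [LinearMap.mem_ker]
      have h2 := aeval_restrict_apply h1 (minpoly ℚ B) ⟨f, hf⟩
      have h3 : aeval B (minpoly ℚ B) = 0 := minpoly.aeval ℚ B
      have h4 : (aeval B (minpoly ℚ B)) ⟨f, hf⟩ = 0 := LinearMap.congr_fun h3 ⟨f, hf⟩
      rw [← h2, ← hB]
      exact congrArg (fun x : U => (x : Fin n → ℚ)) h4
    apply Submodule.eq_of_le_of_finrank_le hle
    have h2 := finrank_ker_le_natDegree hnd (minpoly ℚ B) hmon.ne_zero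
    have h3 : (minpoly ℚ B).natDegree ≤ finrank ℚ U := by
      rw [← LinearMap.charpoly_natDegree B]
      exact natDegree_le_of_dvd (LinearMap.minpoly_dvd_charpoly B)
        (LinearMap.charpoly_monic B).ne_zero
    exact h2.trans h3

end Pool.Agent.H98.SPC
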