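import Pool.Agent.H98.SPC.PermCount

/-!
# One irreducible factor
-/

namespace Pool.Agent.H98.SPC

open Finset Module Polynomial
open Pool.Agent.H10.Sync Pool.Agent.H82.SR

variable {n k : ℕ} {G : OutRegular n k}

theorem syncRatio_eq_one (h : ∀ c : Coloring n k, Synchronizing G c) :
    syncRatio G = 1 := by
  classical
  rw [syncRatio_eq]
  have h1 : ((univ : Finset (Coloring n k)).filter fun c => ¬ Synchronizing G c) = ∅ := by
    rw [filter_eq_empty_iff]
    intro c _ hc
    exact hc (h c)
  rw [h1]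
  simp

/-- Let the characteristic polynomial be `(X - k) X ^ a q` with `q` irreducible. Then the span of
every block family contains the kernel of `q(A)`. -/
theorem ker_le_blockSpan (hk : 2 ≤ k) (hG : Primitive G) {m : Fin n → ℕ}
    (hm : IsWeight G (fun v => (m v : ℚ))) {q : ℚ[X]} (hq : Irreducible q) (a : ℕ)
    (hchar : (adj G).charpoly = (X - C (k : ℚ)) * X ^ a * q)
    (ha : a = 0 ∨ (q.coeff 0 ≠ 0 ∧ Nat.Coprime (∑ v, m v) k)) {r : ℕ} (hr : 2 ≤ r)
    {F : Set (Fin n → Fin r)} (hF : BlockFamily G (fun v => (m v : ℚ)) F) :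
    LinearMap.ker (aeval (adj G) q) ≤ blockSpan F := by
  classical
  have hne := nonempty_of_primitive hG
  have hk0 : (k : ℚ) ≠ 0 := by
    have : k ≠ 0 := by omega
    exact_mod_cast this
  have ha' : a = 0 ∨ q.coeff 0 ≠ 0 := ha.imp_right And.left
  have hchar0 : (adj G).charpoly ≠ 0 := (LinearMap.charpoly_monic _).ne_zero
  obtain ⟨hbot, hadm⟩ := blockSpan_admissible hm hr hF
  have hinv := hadm.1
  have h1 := hadm.2.1
  have hex : ∃ q', Irreducible q' ∧ q' ∣ (adj G).charpoly ∧ (a = 0 ∨ ¬ Associated q' X) ∧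
      ∃ g ∈ blockSpan F, g ≠ 0 ∧ aeval (adj G) q' g = 0 := by
    rcases ha with ha | ⟨-, hcop⟩
    · obtain ⟨f, hf, hf0⟩ := (Submodule.ne_bot_iff _).1 hbot
      obtain ⟨q', hq', hqd, hg⟩ := exists_factor hinv _ hchar0 f hf hf0 (by
        rw [LinearMap.aeval_self_charpoly]
        rfl)
      exact ⟨q', hq', hqd, Or.inl ha, hg⟩
    · obtain ⟨f, hf, hfa⟩ := exists_not_nilpotent hne hcop hr hF
      obtain ⟨q', hq', hqd, hqX, hg⟩ := exists_factor_ne_X hinv _ hchar0 f hf hfa (by
        rw [LinearMap.aeval_self_charpoly]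
        rfl)
      exact ⟨q', hq', hqd, Or.inr hqX, hg⟩
  obtain ⟨q', hq', hqd, hqX, g, hg, hg0, hgq⟩ := hex
  rw [hchar] at hqd
  rcases assoc_cases hq' hq hqd with h2 | ⟨h2, h3⟩ | h2
  · exact (no_eigen hG h1 hg hg0 h2 hgq).elim
  · rcases hqX with h4 | h4
    · exact absurd h4 h2
    · exact absurd h3 h4
  · obtain ⟨u, hu⟩ := h2
    have hgq' : aeval (adj G) q g = 0 := by
      rw [← hu, mul_comm, map_mul, Module.End.mul_apply, hgq, map_zero]
    have hqk : q.eval (k : ℚ) ≠ 0 := by
      intro h4
      have h5 : (X - C (k : ℚ)) ∣ q := Polynomial.dvd_iff_isRoot.2 h4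
      exact no_eigen hG h1 hg hg0
        ((irreducible_X_sub_C (k : ℚ)).associated_of_dvd hq h5).symm hgq'
    exact ker_le hinv hq (finrank_ker_le hG hm hq a hchar ha' hk0 hqk).1 hg hg0 hgq'

/-- Let the characteristic polynomial be `(X - k) X ^ a q` with `q` irreducible. Then every
coloring is synchronizing or a permutation coloring. -/
theorem sync_or_perm (hk : 2 ≤ k) (hG : Primitive G) {m : Fin n → ℕ}
    (hm : IsWeight G (fun v => (m v : ℚ))) {q : ℚ[X]} (hq : Irreducible q) (a : ℕ)
    (hchar : (adj G).charpoly = (X - C (k : ℚ)) * X ^ a * q)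
    (ha : a = 0 ∨ (q.coeff 0 ≠ 0 ∧ Nat.Coprime (∑ v, m v) k)) (c : Coloring n k) :
    Synchronizing G c ∨ PermColoring G c := by
  by_cases hc : Synchronizing G c
  · exact Or.inl hc
  right
  have hne := nonempty_of_primitive hG
  obtain ⟨r, hr, F, hF, hstep, S, hSr, hS⟩ := exists_blockFamily (by omega) hG hm c hc
  have hker := ker_le_blockSpan hk hG hm hq a hchar ha hr hF
  have h1 : n ≤ S.card := card_eq_of_ker_le hG hm hchar (ha.imp_right And.right) (by omega)
    fun f hf => hS f (hker hf)
  exact perm_of_card hr (by omega) hm hne hF hstep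

theorem inDegree_of_perm {c : Coloring n k} (hc : PermColoring G c) (y : Fin n) :
    inDegree G y = k := by
  classical
  have h1 : ∀ i, ∃ v, step G c v i = y := fun i => (hc i).2 y
  choose v hv using h1
  unfold inDegree
  have h2 : ((univ : Finset (Fin n × Fin k)).filter fun p => G p.1 p.2 = y) =
      (univ : Finset (Fin k)).image fun i => (v i, (c (v i)).symm i) := by
    ext ⟨u, e⟩
    rw [mem_filter, mem_image]
    constructor
    · rintro ⟨-, h⟩
      refine ⟨c u e, mem_univ _, ?_⟩
      have h3 : step G c u (c u e) = y := by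
        unfold step
        rw [Equiv.symm_apply_apply]
        exact h
      have h4 : v (c u e) = u := (hc (c u e)).1 ((hv (c u e)).trans h3.symm)
      rw [h4, Equiv.symm_apply_apply]
    · rintro ⟨i, -, h⟩
      refine ⟨mem_univ _, ?_⟩
      rw [Prod.mk.injEq] at h
      rw [← h.1, ← h.2]
      exact hv i
  rw [h2, card_image_of_injOn, card_univ, Fintype.card_fin]
  intro i _ j _ hij
  have h3 := (Prod.mk.injEq _ _ _ _ ▸ hij : v i = v j ∧ (c (v i)).symm i = (c (v j)).symm j)
  have h4 := h3.2
  rw [h3.1] at h4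
  exact (c (v j)).symm.injective h4

theorem ratio_of_irreducible (hk : 2 ≤ k) (hG : Primitive G) {m : Fin n → ℕ}
    (hm : IsWeight G (fun v => (m v : ℚ))) {q : ℚ[X]} (hq : Irreducible q) (a : ℕ)
    (hchar : (adj G).charpoly = (X - C (k : ℚ)) * X ^ a * q)
    (ha : a = 0 ∨ (q.coeff 0 ≠ 0 ∧ Nat.Coprime (∑ v, m v) k)) :
    ((∃ y, inDegree G y ≠ k) → syncRatio G = 1) ∧
    1 - 1 / 2 ^ (n - outComponents G) ≤ syncRatio G ∧ 1 - 1 / (k : ℝ) ≤ syncRatio G := by
  classical
  have hall := sync_or_perm hk hG hm hq a hchar ha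
  have hpos : (0 : ℝ) < (k.factorial : ℝ) ^ n :=
    pow_pos (by exact_mod_cast Nat.factorial_pos k) n
  have hk0 : (0 : ℝ) < k := by exact_mod_cast (show 0 < k by omega)
  refine ⟨?_, ?_, ?_⟩
  · rintro ⟨y, hy⟩
    apply syncRatio_eq_one
    intro c
    rcases hall c with h | h
    · exact h
    · exact absurd (inDegree_of_perm h y) hy
  · rw [syncRatio_eq, card_coloring]
    have h1 := card_perm_le (G := G) (by omega) hG
    have h2 : ((univ : Finset (Coloring n k)).filter fun c => ¬ Synchronizing G c).card ≤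
        ((univ : Finset (Coloring n k)).filter fun c => PermColoring G c).card := by
      apply card_le_card
      intro c hc
      rw [mem_filter] at hc ⊢
      exact ⟨hc.1, (hall c).resolve_left hc.2⟩
    have h3 : (((univ : Finset (Coloring n k)).filter fun c => ¬ Synchronizing G c).card : ℝ) /
        (k.factorial : ℝ) ^ n ≤ 1 / 2 ^ (n - outComponents G) := by
      rw [div_le_div_iff₀ hpos (by positivity), one_mul]
      exact_mod_cast (Nat.mul_le_mul_right _ h2).trans h1
    linarith
  · rw [syncRatio_eq, card_coloring]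
    have h1 := card_perm_le' (G := G) (by omega) hG
    have h2 : ((univ : Finset (Coloring n k)).filter fun c => ¬ Synchronizing G c).card ≤
        ((univ : Finset (Coloring n k)).filter fun c => PermColoring G c ∧
          ¬ Synchronizing G c).card := by
      apply card_le_card
      intro c hc
      rw [mem_filter] at hc ⊢
      exact ⟨hc.1, (hall c).resolve_left hc.2, hc.2⟩
    have h4 : (k : ℝ) * (((univ : Finset (Coloring n k)).filter
        fun c => ¬ Synchronizing G c).card : ℝ) ≤ (Fintype.card (Coloring n k) : ℝ) := by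
      exact_mod_cast (Nat.mul_le_mul_left k h2).trans h1
    rw [card_coloring] at h4
    have h3 : (((univ : Finset (Coloring n k)).filter fun c => ¬ Synchronizing G c).card : ℝ) /
        (k.factorial : ℝ) ^ n ≤ 1 / (k : ℝ) := by
      rw [div_le_div_iff₀ hpos hk0]
      linarith
    linarith

end Pool.Agent.H98.SPC
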