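import Pool.Agent.H98.SPC.Divisor
import Pool.Agent.H98.SPC.OneFactor

/-!
# Divisors of a part of the characteristic polynomial
-/

namespace Pool.Agent.H98.SPC

open Finset Module Polynomial
open Pool.Agent.H10.Sync Pool.Agent.H82.SR

variable {n k : ℕ} {G : OutRegular n k}

theorem finrank_ker_le_natDegree' {p : ℚ[X]}
    (hnd : ∀ q : ℚ[X], q.Monic → Irreducible q → q ∣ p →
      finrank ℚ (LinearMap.ker (aeval (adj G) q)) ≤ q.natDegree) (P : ℚ[X]) :
    P ≠ 0 → P ∣ p → finrank ℚ (LinearMap.ker (aeval (adj G) P)) ≤ P.natDegree := by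
  induction P using WfDvdMonoid.induction_on_irreducible with
  | zero => intro h; exact absurd rfl h
  | unit u hu =>
    intro _ _
    have h1 : LinearMap.ker (aeval (adj G) u) = ⊥ := by
      rw [eq_bot_iff]
      intro f hf
      rw [Submodule.mem_bot]
      obtain ⟨v, hv⟩ := hu.exists_left_inv
      have h2 : aeval (adj G) (v * u) f = f := by
        rw [hv, map_one]
        rfl
      rw [← h2, map_mul, Module.End.mul_apply, LinearMap.mem_ker.1 hf, map_zero]
    rw [h1, finrank_bot]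
    exact Nat.zero_le _
  | mul a i ha hi ih =>
    intro _ hdvd
    have h1 := ih ha ((dvd_mul_left a i).trans hdvd)
    have h2 : finrank ℚ (LinearMap.ker (aeval (adj G) i)) ≤ i.natDegree := by
      obtain ⟨q', hq'⟩ : ∃ q', q' = i * C i.leadingCoeff⁻¹ := ⟨_, rfl⟩
      have hlc : IsUnit (C i.leadingCoeff⁻¹ : ℚ[X]) := by
        rw [Polynomial.isUnit_C]
        exact (isUnit_iff_ne_zero.2 (inv_ne_zero (leadingCoeff_ne_zero.2 hi.ne_zero)))
      have hass : Associated i q' := by
        rw [hq']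
        exact (associated_mul_unit_left i _ hlc).symm
      have hmon : q'.Monic := by
        rw [hq']
        exact monic_mul_leadingCoeff_inv hi.ne_zero
      have hirr : Irreducible q' := (hass.irreducible_iff).1 hi
      have hker : LinearMap.ker (aeval (adj G) i) ≤ LinearMap.ker (aeval (adj G) q') := by
        intro f hf
        rw [LinearMap.mem_ker, hq', mul_comm, map_mul, Module.End.mul_apply,
          LinearMap.mem_ker.1 hf, map_zero]
      have hdeg : q'.natDegree = i.natDegree := by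
        rw [hq', natDegree_mul_C (inv_ne_zero (leadingCoeff_ne_zero.2 hi.ne_zero))]
      have h3 := hnd q' hmon hirr ((hass.dvd_iff_dvd_left).1 ((dvd_mul_right i a).trans hdvd))
      have h4 := Submodule.finrank_mono hker
      omega
    have h3 := finrank_ker_comp_le (aeval (adj G) i) (aeval (adj G) a)
    rw [← map_mul] at h3
    rw [natDegree_mul hi.ne_zero ha]
    omega

theorem mem_leftKer {g' : ℚ[X]} {a : Fin n → ℚ} :
    a ∈ leftKer G g' ↔ ∀ f, ∑ v, a v * (aeval (adj G) ((X - C (k : ℚ)) * g') f) v = 0 := Iff.rfl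

theorem finrank_ker_adj_sub (hG : Primitive G) :
    finrank ℚ (LinearMap.ker (aeval (adj G) (X - C (k : ℚ)))) ≤ 1 := by
  obtain ⟨v0⟩ := nonempty_of_primitive hG
  have happ : ∀ f, aeval (adj G) (X - C (k : ℚ)) f = adj G f - (k : ℚ) • f := by
    intro f
    rw [map_sub, aeval_X, aeval_C, LinearMap.sub_apply, Module.algebraMap_end_apply]
  apply finrank_le_one (⟨fun _ => 1, by
    rw [LinearMap.mem_ker, happ]
    funext v
    rw [Pi.sub_apply, adj_apply, Pi.smul_apply, sum_const, card_univ, Fintype.card_fin,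
      nsmul_eq_mul, smul_eq_mul, sub_self]
    rfl⟩ : LinearMap.ker (aeval (adj G) (X - C (k : ℚ))))
  rintro ⟨g, hg⟩
  rw [LinearMap.mem_ker, happ] at hg
  have hc := const_of_adj_eq hG (f := g) fun v => by
    have h1 := congrFun hg v
    rw [Pi.sub_apply, Pi.smul_apply, smul_eq_mul, Pi.zero_apply] at h1
    linarith
  refine ⟨g v0, ?_⟩
  apply Subtype.ext
  funext v
  change g v0 * 1 = g v
  rw [mul_one, hc v v0]

theorem rootMultiplicity_zero_le {P p : ℚ[X]} {x : ℚ} (hx : x ≠ 0) (hP : P ≠ 0) (a : ℕ)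
    (h : P = (X - C x) * X ^ a * p) (hp0 : p.coeff 0 ≠ 0) : P.rootMultiplicity 0 ≤ a := by
  rw [rootMultiplicity_le_iff hP, C_0, sub_zero]
  rintro ⟨s, hs⟩
  have h3 : (X : ℚ[X]) ^ a * ((X - C x) * p) = X ^ a * (X * s) := by
    calc (X : ℚ[X]) ^ a * ((X - C x) * p) = (X - C x) * X ^ a * p := by ring
      _ = X ^ (a + 1) * s := by rw [← h, hs]
      _ = X ^ a * (X * s) := by ring
  have h4 := mul_left_cancel₀ (pow_ne_zero a X_ne_zero) h3
  have h5 := congrArg (fun P : ℚ[X] => P.coeff 0) h4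
  simp only [mul_coeff_zero, coeff_sub, coeff_X_zero, coeff_C_zero, zero_sub, zero_mul] at h5
  rcases mul_eq_zero.1 h5 with h6 | h6
  · exact hx (neg_eq_zero.1 h6)
  · exact hp0 h6

theorem ker_pow_le_maxGen (a : ℕ) : LinearMap.ker (aeval (adj G) (X ^ a : ℚ[X])) ≤
    Module.End.maxGenEigenspace (adj G) 0 := by
  intro f hf
  rw [LinearMap.mem_ker, map_pow, aeval_X] at hf
  rw [Module.End.mem_maxGenEigenspace]
  refine ⟨a, ?_⟩
  rw [zero_smul, sub_zero]
  exact hf

theorem ker_pow_zero : LinearMap.ker (aeval (adj G) (X ^ 0 : ℚ[X])) = ⊥ := by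
  rw [eq_bot_iff]
  intro f hf
  rw [LinearMap.mem_ker, pow_zero, map_one, Module.End.one_apply] at hf
  rw [Submodule.mem_bot]
  exact hf

theorem finrank_ker_pow_le_of_mult (a : ℕ) (h4 : (adj G).charpoly.rootMultiplicity 0 ≤ a) :
    finrank ℚ (LinearMap.ker (aeval (adj G) (X ^ a : ℚ[X]))) ≤ a := by
  have h2 := Submodule.finrank_mono (ker_pow_le_maxGen (G := G) a)
  have h3 := LinearMap.finrank_maxGenEigenspace_eq (adj G) 0
  exact h2.trans (h3.le.trans h4)

theorem finrank_ker_pow_zero (a : ℕ) (h0 : a = 0) :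
    finrank ℚ (LinearMap.ker (aeval (adj G) (X ^ a : ℚ[X]))) ≤ a := by
  subst h0
  rw [ker_pow_zero, finrank_bot]

theorem finrank_ker_pow_le (hk0 : (k : ℚ) ≠ 0) {p : ℚ[X]} (a : ℕ)
    (hchar : (adj G).charpoly = (X - C (k : ℚ)) * X ^ a * p) (ha : a = 0 ∨ p.coeff 0 ≠ 0) :
    finrank ℚ (LinearMap.ker (aeval (adj G) (X ^ a : ℚ[X]))) ≤ a := by
  rcases ha with h0 | hp0
  · exact finrank_ker_pow_zero a h0
  · exact finrank_ker_pow_le_of_mult a
      (rootMultiplicity_zero_le hk0 (LinearMap.charpoly_monic (adj G)).ne_zero a hchar hp0)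

theorem finrank_le_map {V : Type*} [AddCommGroup V] [Module ℚ V] [FiniteDimensional ℚ V]
    (R : V →ₗ[ℚ] V) (K : Submodule ℚ V) :
    finrank ℚ K ≤ finrank ℚ (K.map R) + finrank ℚ (LinearMap.ker R) := by
  set R' : K →ₗ[ℚ] V := R.domRestrict K with hR'
  have h2 := LinearMap.finrank_range_add_finrank_ker R'
  have h3 : LinearMap.range R' = K.map R := by
    rw [hR', LinearMap.range_domRestrict]
  have h4 : finrank ℚ (LinearMap.ker R') ≤ finrank ℚ (LinearMap.ker R) := by
    let E : LinearMap.ker R' →ₗ[ℚ] LinearMap.ker R :=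
      { toFun := fun f => ⟨((f : K) : V), LinearMap.mem_ker.1 f.2⟩
        map_add' := fun f g => rfl
        map_smul' := fun c f => rfl }
    apply LinearMap.finrank_le_finrank_of_injective (f := E)
    intro f g hfg
    have h4 : (((f : K) : V)) = ((g : K) : V) :=
      congrArg (fun x : LinearMap.ker R => (x : V)) hfg
    exact Subtype.ext (Subtype.ext h4)
  rw [h3] at h2
  omega

/-- The kernel of `g(A)` is contained in the range of `(A - k) g'(A)`. -/
theorem ker_le_range (hG : Primitive G) (hk0 : (k : ℚ) ≠ 0) {p g g' : ℚ[X]} (a : ℕ)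
    (hchar : (adj G).charpoly = (X - C (k : ℚ)) * X ^ a * p) (ha : a = 0 ∨ p.coeff 0 ≠ 0)
    (hnd : ∀ q : ℚ[X], q.Monic → Irreducible q → q ∣ p →
      finrank ℚ (LinearMap.ker (aeval (adj G) q)) ≤ q.natDegree) (hgg : g * g' = p) :
    LinearMap.ker (aeval (adj G) g) ≤
      LinearMap.range (aeval (adj G) ((X - C (k : ℚ)) * g')) := by
  have hp0 : p ≠ 0 := by
    rintro rfl
    rw [mul_zero] at hchar
    exact (LinearMap.charpoly_monic _).ne_zero hchar
  have hg0 : g ≠ 0 := by
    rintro rfl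
    rw [zero_mul] at hgg
    exact hp0 hgg.symm
  have hg'0 : g' ≠ 0 := by
    rintro rfl
    rw [mul_zero] at hgg
    exact hp0 hgg.symm
  have hdeg : p.natDegree + a + 1 = n := by
    have h3 := LinearMap.charpoly_natDegree (adj G)
    rw [hchar, Polynomial.natDegree_mul (mul_ne_zero (X_sub_C_ne_zero _) (pow_ne_zero _ X_ne_zero))
      hp0, Polynomial.natDegree_mul (X_sub_C_ne_zero _) (pow_ne_zero _ X_ne_zero),
      natDegree_X_sub_C, natDegree_X_pow] at h3
    simp at h3
    omega
  have hdegp : g.natDegree + g'.natDegree = p.natDegree := by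
    rw [← hgg, natDegree_mul hg0 hg'0]
  have hgdim := finrank_ker_le_natDegree' hnd g hg0 ⟨g', hgg.symm⟩
  have hg'dim := finrank_ker_le_natDegree' hnd g' hg'0 ⟨g, by rw [← hgg]; ring⟩
  have hadim := finrank_ker_pow_le (G := G) hk0 a hchar ha
  have h1dim := finrank_ker_adj_sub hG
  set R := aeval (adj G) ((X - C (k : ℚ)) * g') with hR
  set K := LinearMap.ker (aeval (adj G) ((X - C (k : ℚ)) * p)) with hK
  -- the dimension of `K`
  have hKdim : n ≤ finrank ℚ K + a := by
    have h2 := LinearMap.finrank_range_add_finrank_ker (aeval (adj G) (X ^ a : ℚ[X]))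
    have h3 : LinearMap.range (aeval (adj G) (X ^ a : ℚ[X])) ≤ K := by
      rintro _ ⟨f, rfl⟩
      rw [hK, LinearMap.mem_ker, ← Module.End.mul_apply, ← map_mul]
      have h4 : (X - C (k : ℚ)) * p * X ^ a = (adj G).charpoly := by
        rw [hchar]
        ring
      rw [h4, LinearMap.aeval_self_charpoly]
      rfl
    have h4 := Submodule.finrank_mono h3
    have h5 : finrank ℚ (Fin n → ℚ) = n := by simp
    omega
  have hRker : finrank ℚ (LinearMap.ker R) ≤ 1 + g'.natDegree := by
    have h2 := finrank_ker_comp_le (aeval (adj G) (X - C (k : ℚ))) (aeval (adj G) g')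
    rw [← map_mul, ← hR] at h2
    omega
  -- the image of `K`
  have hmap : K.map R ≤ LinearMap.ker (aeval (adj G) g) := by
    rintro _ ⟨f, hf, rfl⟩
    rw [LinearMap.mem_ker, hR, ← Module.End.mul_apply, ← map_mul]
    have h2 : g * ((X - C (k : ℚ)) * g') = (X - C (k : ℚ)) * p := by
      rw [← hgg]
      ring
    rw [h2]
    exact LinearMap.mem_ker.1 hf
  have hmapdim : g.natDegree ≤ finrank ℚ (K.map R) := by
    have h2 := finrank_le_map R K
    omega
  have heq : K.map R = LinearMap.ker (aeval (adj G) g) :=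
    Submodule.eq_of_le_of_finrank_le hmap (hgdim.trans hmapdim)
  rw [← heq]
  rintro _ ⟨f, -, rfl⟩
  exact ⟨f, rfl⟩

end Pool.Agent.H98.SPC
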