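import Pool.Agent.H98.SPC.Union

/-!
# The rank bound for functions on the edges
-/

namespace Pool.Agent.H98.SPC

open Finset Module
open Pool.Agent.H10.Sync

variable {n k : ℕ}

theorem edgeConst_mono {S T : Finset (Fin n)} (h : S ⊆ T) :
    edgeConst n k S ≤ edgeConst n k T := fun _ hf v hv => hf v fun h' => hv (h h')

open Classical in
/-- The class of the edge `e` of the vertex `a` for the functions in `U`. -/
noncomputable def edcls (U : Submodule ℚ (Fin n → Fin k → ℚ)) (a : Fin n)
    (e : Fin k) : Finset (Fin k) :=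
  univ.filter fun e' => ∀ f ∈ U, f a e = f a e'

theorem edcls_eq {U : Submodule ℚ (Fin n → Fin k → ℚ)} {a : Fin n} {e e' : Fin k} :
    edcls U a e = edcls U a e' ↔ ∀ f ∈ U, f a e = f a e' := by
  classical
  unfold edcls
  constructor
  · intro h f hf
    have h1 : e' ∈ univ.filter fun e'' => ∀ f ∈ U, f a e = f a e'' := by
      rw [h]
      simp
    exact (mem_filter.1 h1).2 f hf
  · intro h
    ext x
    simp only [mem_filter, mem_univ, true_and]
    constructor
    · intro hx f hf
      rw [← h f hf, hx f hf]
    · intro hx f hf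
      rw [h f hf, hx f hf]

theorem finrank_edge_step (hk : 1 ≤ k) (U : Submodule ℚ (Fin n → Fin k → ℚ))
    (T : Finset (Fin n)) (a : Fin n) :
    finrank ℚ (U ⊓ edgeConst n k (insert a T) : Submodule ℚ (Fin n → Fin k → ℚ)) ≤
      finrank ℚ (U ⊓ edgeConst n k T : Submodule ℚ (Fin n → Fin k → ℚ)) +
        (((univ : Finset (Fin k)).image (edcls (U ⊓ edgeConst n k (insert a T)) a)).card - 1) := by
  classical
  set U' : Submodule ℚ (Fin n → Fin k → ℚ) := U ⊓ edgeConst n k (insert a T) with hU'
  set e0 : Fin k := ⟨0, hk⟩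
  set I := (univ : Finset (Fin k)).image (edcls U' a) with hI
  have hrep : ∀ A : I, ∃ e, edcls U' a e = A := by
    rintro ⟨A, hA⟩
    rw [hI, mem_image] at hA
    obtain ⟨e, _, he⟩ := hA
    exact ⟨e, he⟩
  choose rep hrep using hrep
  set J := I.erase (edcls U' a e0) with hJ
  have hJI : ∀ A ∈ J, A ∈ I := fun A hA => mem_of_mem_erase hA
  let D : U' →ₗ[ℚ] (J → ℚ) :=
    { toFun := fun f A => (f : Fin n → Fin k → ℚ) a (rep ⟨A, hJI _ A.2⟩) -
        (f : Fin n → Fin k → ℚ) a e0
      map_add' := by
        intro f g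
        funext A
        simp only [Submodule.coe_add, Pi.add_apply]
        ring
      map_smul' := by
        intro c f
        funext A
        simp only [Submodule.coe_smul, Pi.smul_apply, smul_eq_mul, RingHom.id_apply]
        ring }
  have h1 := LinearMap.finrank_range_add_finrank_ker D
  have h2 : finrank ℚ (LinearMap.range D) ≤ I.card - 1 := by
    have h3 := Submodule.finrank_le (LinearMap.range D)
    have h4 : finrank ℚ (J → ℚ) = I.card - 1 := by
      rw [finrank_fintype_fun_eq_card, Fintype.card_coe, hJ, card_erase_of_mem]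
      rw [hI]
      exact mem_image_of_mem _ (mem_univ _)
    rw [h4] at h3
    exact h3
  have h3 : finrank ℚ (LinearMap.ker D) ≤
      finrank ℚ (U ⊓ edgeConst n k T : Submodule ℚ (Fin n → Fin k → ℚ)) := by
    have h4 : ∀ f : U', D f = 0 → (f : Fin n → Fin k → ℚ) ∈ (U ⊓ edgeConst n k T) := by
      intro f hf
      refine ⟨f.2.1, ?_⟩
      intro v hv e e'
      by_cases hva : v = a
      · subst hva
        have h5 : ∀ e, (f : Fin n → Fin k → ℚ) v e = (f : Fin n → Fin k → ℚ) v e0 := by
          intro e
          by_cases he : edcls U' v e = edcls U' v e0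
          · exact edcls_eq.1 he f f.2
          · have h6 : edcls U' v e ∈ J := by
              rw [hJ, mem_erase]
              exact ⟨he, mem_image_of_mem _ (mem_univ _)⟩
            have h7 := congrFun hf ⟨_, h6⟩
            have h8 := hrep ⟨edcls U' v e, hJI _ h6⟩
            have h9 := edcls_eq.1 h8 f f.2
            have h10 : (f : Fin n → Fin k → ℚ) v (rep ⟨edcls U' v e, hJI _ h6⟩) -
                (f : Fin n → Fin k → ℚ) v e0 = 0 := h7
            rw [h9] at h10
            linarith
        rw [h5 e, h5 e']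
      · apply f.2.2 v _ e e'
        rw [mem_insert]
        push Not
        exact ⟨hva, hv⟩
    let E : LinearMap.ker D →ₗ[ℚ]
        (U ⊓ edgeConst n k T : Submodule ℚ (Fin n → Fin k → ℚ)) :=
      { toFun := fun f => ⟨(f : U'), h4 f (LinearMap.mem_ker.1 f.2)⟩
        map_add' := fun f g => rfl
        map_smul' := fun c f => rfl }
    apply LinearMap.finrank_le_finrank_of_injective (f := E)
    intro f g hfg
    have h5 : ((E f : _) : Fin n → Fin k → ℚ) = ((E g : _) : Fin n → Fin k → ℚ) := by rw [hfg]
    exact Subtype.ext (Subtype.ext h5)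
  omega

theorem card_edge_le (hk : 1 ≤ k) (U : Submodule ℚ (Fin n → Fin k → ℚ)) (T : Finset (Fin n)) :
    ∀ C : Finset (Coloring n k), (∀ c ∈ C, ∀ c' ∈ C, ∀ v, v ∉ T → c v = c' v) →
      (∀ c ∈ C, ∀ c' ∈ C, ∀ f ∈ U ⊓ edgeConst n k T, ∀ i,
        ∑ v, f v ((c v).symm i) = ∑ v, f v ((c' v).symm i)) →
      C.card * 2 ^ (finrank ℚ (U ⊓ edgeConst n k T : Submodule ℚ (Fin n → Fin k → ℚ)) -
        finrank ℚ (U ⊓ edgeConst n k ∅ : Submodule ℚ (Fin n → Fin k → ℚ))) ≤
        k.factorial ^ T.card := by
  classical
  induction T using Finset.induction_on with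
  | empty =>
    intro C hC _
    rw [Nat.sub_self, pow_zero, mul_one, card_empty, pow_zero, card_le_one]
    intro c hc c' hc'
    funext v
    exact hC c hc c' hc' v (notMem_empty v)
  | insert a T ha ih =>
    intro C hC1 hC2
    set U' : Submodule ℚ (Fin n → Fin k → ℚ) := U ⊓ edgeConst n k (insert a T) with hU'
    have hle : U ⊓ edgeConst n k T ≤ U' := inf_le_inf le_rfl (edgeConst_mono (subset_insert a T))
    let ψ : Coloring n k → Coloring n k := fun c => Function.update c a 1
    set I := (univ : Finset (Fin k)).image (edcls U' a) with hI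
    -- the image
    have h1 : (C.image ψ).card *
        2 ^ (finrank ℚ (U ⊓ edgeConst n k T : Submodule ℚ (Fin n → Fin k → ℚ)) -
        finrank ℚ (U ⊓ edgeConst n k ∅ : Submodule ℚ (Fin n → Fin k → ℚ))) ≤
        k.factorial ^ T.card := by
      apply ih
      · intro d hd d' hd' v hv
        rw [mem_image] at hd hd'
        obtain ⟨c, hc, rfl⟩ := hd
        obtain ⟨c', hc', rfl⟩ := hd'
        by_cases hva : v = a
        · subst hva
          simp only [ψ, Function.update_self]
        · simp only [ψ, Function.update_of_ne hva]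
          apply hC1 c hc c' hc' v
          rw [mem_insert]
          push Not
          exact ⟨hva, hv⟩
      · have hψ : ∀ c, ∀ f ∈ U ⊓ edgeConst n k T, ∀ i,
            ∑ v, f v ((ψ c v).symm i) = ∑ v, f v ((c v).symm i) := by
          intro c f hf i
          refine sum_congr rfl fun v _ => ?_
          by_cases hva : v = a
          · subst hva
            exact hf.2 v ha (((ψ c) v).symm i) ((c v).symm i)
          · simp only [ψ, Function.update_of_ne hva]
        intro d hd d' hd' f hf i
        rw [mem_image] at hd hd'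
        obtain ⟨c, hc, rfl⟩ := hd
        obtain ⟨c', hc', rfl⟩ := hd'
        rw [hψ c f hf i, hψ c' f hf i]
        exact hC2 c hc c' hc' f (hle hf) i
    -- the fibres
    have h2 : ∀ d ∈ C.image ψ, (C.filter fun c => ψ c = d).card ≤
        k.factorial / 2 ^ (I.card - 1) := by
      intro d _
      rw [Nat.le_div_iff_mul_le (by positivity)]
      set Cd := C.filter fun c => ψ c = d with hCd
      have hagree : ∀ c ∈ Cd, ∀ c' ∈ Cd, ∀ v, v ≠ a → c v = c' v := by
        intro c hc c' hc' v hv
        have h3 := (mem_filter.1 hc).2.trans (mem_filter.1 hc').2.symm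
        have h4 := congrFun h3 v
        simp only [ψ, Function.update_of_ne hv] at h4
        exact h4
      have hinj : Set.InjOn (fun c : Coloring n k => c a) (Cd : Set (Coloring n k)) := by
        intro c hc c' hc' hcc
        funext v
        by_cases hva : v = a
        · rw [hva]
          exact hcc
        · exact hagree c (mem_coe.1 hc) c' (mem_coe.1 hc') v hva
      rw [← card_image_of_injOn hinj]
      apply perm_fibre (edcls U' a)
      intro σ hσ τ hτ i
      rw [mem_image] at hσ hτ
      obtain ⟨c, hc, rfl⟩ := hσ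
      obtain ⟨c', hc', rfl⟩ := hτ
      rw [edcls_eq]
      intro f hf
      have h3 := hC2 c (mem_filter.1 hc).1 c' (mem_filter.1 hc').1 f hf i
      rw [← add_sum_erase univ _ (mem_univ a), ← add_sum_erase univ (fun v => f v ((c' v).symm i))
        (mem_univ a)] at h3
      have h4 : ∑ v ∈ univ.erase a, f v ((c v).symm i) =
          ∑ v ∈ univ.erase a, f v ((c' v).symm i) := by
        refine sum_congr rfl fun v hv => ?_
        rw [hagree c hc c' hc' v (ne_of_mem_erase hv)]
      rw [h4] at h3
      exact add_right_cancel h3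
    have h3 := card_le_mul_card_image C _ h2
    have h4 := finrank_edge_step hk U T a
    rw [← hU', ← hI] at h4
    rw [card_insert_of_notMem ha, pow_succ]
    set x := finrank ℚ (U ⊓ edgeConst n k T : Submodule ℚ (Fin n → Fin k → ℚ))
    set y := finrank ℚ (U ⊓ edgeConst n k ∅ : Submodule ℚ (Fin n → Fin k → ℚ))
    calc C.card * 2 ^ (finrank ℚ U' - y)
        ≤ (k.factorial / 2 ^ (I.card - 1) * (C.image ψ).card) *
            2 ^ ((I.card - 1) + (x - y)) := by
          apply Nat.mul_le_mul h3
          apply Nat.pow_le_pow_right (by norm_num)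
          omega
      _ = (k.factorial / 2 ^ (I.card - 1) * 2 ^ (I.card - 1)) *
            ((C.image ψ).card * 2 ^ (x - y)) := by
          rw [pow_add]
          ring
      _ ≤ k.factorial * k.factorial ^ T.card :=
          Nat.mul_le_mul (Nat.div_mul_le_self _ _) h1
      _ = k.factorial ^ T.card * k.factorial := mul_comm _ _

theorem card_pairRank_le (hk : 1 ≤ k) (G : OutRegular n k) (U M : Submodule ℚ (Fin n → ℚ))
    (C : Finset (Coloring n k))
    (hC : ∀ c ∈ C, ∀ a ∈ M, ∀ f ∈ U, ∀ i, ∑ v, a v * f (step G c v i) = 0) :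
    C.card * 2 ^ pairRank G U M ≤ k.factorial ^ n := by
  classical
  have h0 : pairSpan G U M ⊓ edgeConst n k univ = pairSpan G U M := by
    rw [inf_eq_left]
    intro f _ v hv
    exact absurd (mem_univ v) hv
  have hz : ∀ c ∈ C, ∀ ψ ∈ pairSpan G U M, ∀ i, ∑ v, ψ v ((c v).symm i) = 0 := by
    intro c hc ψ hψ i
    refine Submodule.span_induction (p := fun ψ _ => ∑ v, ψ v ((c v).symm i) = 0)
      ?_ ?_ ?_ ?_ hψ
    · rintro _ ⟨a, ha, f, hf, rfl⟩
      exact hC c hc a ha f hf i
    · simp
    · intro x y _ _ hx hy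
      simp only [Pi.add_apply, sum_add_distrib, hx, hy, add_zero]
    · intro b x _ hx
      simp only [Pi.smul_apply, smul_eq_mul, ← mul_sum, hx, mul_zero]
  have h1 := card_edge_le hk (pairSpan G U M) univ C
    (fun c _ c' _ v hv => absurd (mem_univ v) hv)
    (fun c hc c' hc' f hf i => by rw [hz c hc f hf.1 i, hz c' hc' f hf.1 i])
  rw [h0, card_univ, Fintype.card_fin] at h1
  exact h1

end Pool.Agent.H98.SPC
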