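import Pool.Agent.H98.SPC.OneFactor

/-!
# Permutation colorings of Eulerian digraphs
-/

namespace Pool.Agent.H98.SPC

open Finset Module
open Pool.Agent.H10.Sync

/-- A digraph all of whose in-degrees are `k` has a permutation coloring. -/
theorem exists_perm (n : ℕ) : ∀ (k : ℕ) (G : OutRegular n k), (∀ y, inDegree G y = k) →
    ∃ c : Coloring n k, PermColoring G c := by
  classical
  intro k
  induction k with
  | zero =>
    intro G _
    exact ⟨fun _ => 1, fun i => i.elim0⟩
  | succ k ih =>
    intro G hG
    -- a matching
    have hall : ∀ S : Finset (Fin n), S.card ≤ (S.biUnion fun v => univ.image (G v)).card := by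
      intro S
      set N := S.biUnion fun v => univ.image (G v) with hN
      have h1 : ((univ : Finset (Fin n × Fin (k + 1))).filter fun p => p.1 ∈ S) ⊆
          N.biUnion fun y => (univ : Finset (Fin n × Fin (k + 1))).filter
            fun p => G p.1 p.2 = y := by
        intro p hp
        rw [mem_filter] at hp
        rw [mem_biUnion]
        refine ⟨G p.1 p.2, ?_, mem_filter.2 ⟨mem_univ _, rfl⟩⟩
        rw [hN, mem_biUnion]
        exact ⟨p.1, hp.2, mem_image_of_mem _ (mem_univ _)⟩
      have h2 : ((univ : Finset (Fin n × Fin (k + 1))).filter fun p => p.1 ∈ S).card =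
          S.card * (k + 1) := by
        have h3 : ((univ : Finset (Fin n × Fin (k + 1))).filter fun p => p.1 ∈ S) =
            S ×ˢ (univ : Finset (Fin (k + 1))) := by
          ext p
          simp
        rw [h3, card_product, card_univ, Fintype.card_fin]
      have h3 := (card_le_card h1).trans card_biUnion_le
      have h4 : ∑ y ∈ N, ((univ : Finset (Fin n × Fin (k + 1))).filter
          fun p => G p.1 p.2 = y).card = N.card * (k + 1) := by
        have h5 : ∀ y, ((univ : Finset (Fin n × Fin (k + 1))).filter
            fun p => G p.1 p.2 = y).card = k + 1 := fun y => hG y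
        rw [sum_congr rfl fun y _ => h5 y, sum_const, smul_eq_mul]
      rw [h2, h4] at h3
      exact Nat.le_of_mul_le_mul_right h3 (Nat.succ_pos k)
    obtain ⟨f, hfinj, hf⟩ := (Finset.all_card_le_biUnion_card_iff_exists_injective
      (fun v => (univ : Finset (Fin (k + 1))).image (G v))).1 hall
    have he : ∀ v, ∃ e, G v e = f v := by
      intro v
      obtain ⟨e, _, he⟩ := mem_image.1 (hf v)
      exact ⟨e, he⟩
    choose e he using he
    have hfbij : Function.Bijective f := Finite.injective_iff_bijective.1 hfinj
    set G' : OutRegular n k := fun v j => G v ((e v).succAbove j) with hG'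
    have hdeg : ∀ y, inDegree G' y = k := by
      intro y
      obtain ⟨u, hu⟩ := hfbij.2 y
      have h1 : ((univ : Finset (Fin n × Fin (k + 1))).filter fun p => G p.1 p.2 = y) =
          insert (u, e u) (((univ : Finset (Fin n × Fin k)).filter fun p => G' p.1 p.2 = y).image
            fun p => (p.1, (e p.1).succAbove p.2)) := by
        ext ⟨v, x⟩
        rw [mem_filter, mem_insert, mem_image]
        constructor
        · rintro ⟨-, h⟩
          by_cases hx : x = e v
          · left
            have h2 : f v = f u := by rw [← he v, ← hx, h, hu]
            have h3 := hfinj h2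
            rw [hx, h3]
          · right
            obtain ⟨j, hj⟩ := Fin.exists_succAbove_eq hx
            refine ⟨(v, j), mem_filter.2 ⟨mem_univ _, ?_⟩, ?_⟩
            · change G v ((e v).succAbove j) = y
              rw [hj]
              exact h
            · change (v, (e v).succAbove j) = (v, x)
              rw [hj]
        · rintro (h | ⟨p, hp, hpx⟩)
          · refine ⟨mem_univ _, ?_⟩
            rw [Prod.mk.injEq] at h
            change G v x = y
            rw [h.1, h.2, he u, hu]
          · refine ⟨mem_univ _, ?_⟩
            rw [Prod.mk.injEq] at hpx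
            change G v x = y
            rw [← hpx.1, ← hpx.2]
            exact (mem_filter.1 hp).2
      have h2 : (u, e u) ∉ (((univ : Finset (Fin n × Fin k)).filter
          fun p => G' p.1 p.2 = y).image fun p => (p.1, (e p.1).succAbove p.2)) := by
        intro h
        obtain ⟨p, _, hp⟩ := mem_image.1 h
        rw [Prod.mk.injEq] at hp
        obtain ⟨h3, h4⟩ := hp
        rw [h3] at h4
        exact Fin.succAbove_ne _ _ h4
      have h3 := hG y
      unfold inDegree at h3
      rw [h1, card_insert_of_notMem h2, card_image_of_injective] at h3
      · exact Nat.succ_injective h3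
      · rintro ⟨v, j⟩ ⟨v', j'⟩ h
        rw [Prod.mk.injEq] at h
        obtain ⟨h4, h5⟩ := h
        change v = v' at h4
        subst h4
        have h6 : j = j' := Fin.succAbove_right_injective h5
        rw [h6]
    obtain ⟨c', hc'⟩ := ih G' hdeg
    set c : Coloring n (k + 1) := fun v =>
      (finSuccEquiv' (e v)).trans ((Equiv.optionCongr (c' v)).trans (finSuccEquiv' 0).symm)
      with hc
    have h0 : ∀ v, (c v).symm 0 = e v := by
      intro v
      rw [Equiv.symm_apply_eq]
      simp [hc]
    have hs : ∀ v j, (c v).symm (Fin.succ j) = (e v).succAbove ((c' v).symm j) := by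
      intro v j
      rw [Equiv.symm_apply_eq]
      simp [hc]
    refine ⟨c, fun i => ?_⟩
    refine Fin.cases ?_ (fun j => ?_) i
    · have h1 : (fun v => step G c v 0) = f := by
        funext v
        unfold step
        rw [h0 v, he v]
      rw [h1]
      exact hfbij
    · have h1 : (fun v => step G c v (Fin.succ j)) = fun v => step G' c' v j := by
        funext v
        unfold step
        rw [hs v j]
      rw [h1]
      exact hc' j

variable {n k : ℕ} {G : OutRegular n k}

/-- The out-neighbours of a vertex are in the same component. -/
theorem comp_eq (v : Fin n) (e e' : Fin k) :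
    (outGraph G).connectedComponentMk (G v e) = (outGraph G).connectedComponentMk (G v e') := by
  by_cases h : G v e = G v e'
  · rw [h]
  · have h2 : (outGraph G).Adj (G v e) (G v e') := by
      rw [outGraph, SimpleGraph.fromRel_adj]
      exact ⟨h, Or.inl ⟨v, e, e', rfl, rfl⟩⟩
    exact SimpleGraph.ConnectedComponent.eq.2 h2.reachable

open Classical in
/-- The number of the permutation colorings of a digraph all of whose in-degrees are `k`. -/
theorem card_perm_ge (hk : 1 ≤ k) (h : ∀ y, inDegree G y = k) :
    k.factorial ^ outComponents G ≤
      ((univ : Finset (Coloring n k)).filter fun c => PermColoring G c).card := by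
  obtain ⟨c0, hc0⟩ := exists_perm n k G h
  have hfin : Finite (outGraph G).ConnectedComponent :=
    Finite.of_surjective (outGraph G).connectedComponentMk Quot.mk_surjective
  have hft : Fintype (outGraph G).ConnectedComponent := Fintype.ofFinite _
  set e0 : Fin k := ⟨0, hk⟩
  let comp : Fin n → (outGraph G).ConnectedComponent := fun v =>
    (outGraph G).connectedComponentMk (G v e0)
  let Φ : ((outGraph G).ConnectedComponent → Equiv.Perm (Fin k)) → Coloring n k := fun s v =>
    (c0 v).trans (s (comp v))
  have hstep : ∀ s v i, step G (Φ s) v i = step G c0 v ((s (comp v)).symm i) := by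
    intro s v i
    rfl
  have hcomp : ∀ c : Coloring n k, ∀ v i,
      (outGraph G).connectedComponentMk (step G c v i) = comp v := by
    intro c v i
    exact comp_eq v _ _
  have hperm : ∀ s, PermColoring G (Φ s) := by
    intro s i
    apply Finite.injective_iff_bijective.1
    intro u v huv
    have h1 : step G (Φ s) u i = step G (Φ s) v i := huv
    have h2 : comp u = comp v := by
      rw [← hcomp (Φ s) u i, ← hcomp (Φ s) v i, h1]
    rw [hstep, hstep, h2] at h1
    exact (hc0 _).1 h1
  have hinj : Function.Injective Φ := by
    intro s s' hss
    funext C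
    -- a vertex in the component
    obtain ⟨y, hy⟩ := C.exists_rep
    obtain ⟨v, hv⟩ := (hc0 e0).2 y
    have h1 : comp v = C := by
      rw [← hcomp c0 v e0]
      change (outGraph G).connectedComponentMk ((fun v => step G c0 v e0) v) = C
      rw [hv]
      exact hy
    have h2 := congrFun hss v
    have h3 : (c0 v).trans (s (comp v)) = (c0 v).trans (s' (comp v)) := h2
    rw [h1] at h3
    ext x
    have h4 := Equiv.congr_fun h3 ((c0 v).symm x)
    simp only [Equiv.trans_apply, Equiv.apply_symm_apply] at h4
    rw [h4]
  have h1 : Fintype.card ((outGraph G).ConnectedComponent → Equiv.Perm (Fin k)) =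
      k.factorial ^ outComponents G := by
    rw [Fintype.card_fun, Fintype.card_perm, Fintype.card_fin, outComponents,
      Nat.card_eq_fintype_card]
  rw [← h1, ← card_univ, ← card_image_of_injective univ hinj]
  apply card_le_card
  intro c hc
  obtain ⟨s, _, rfl⟩ := mem_image.1 hc
  exact mem_filter.2 ⟨mem_univ _, hperm s⟩

theorem not_sync_of_perm (hn : 2 ≤ n) {c : Coloring n k} (hc : PermColoring G c) :
    ¬ Synchronizing G c := by
  rintro ⟨w, p, hp⟩
  have h1 : ∀ w : List (Fin k), Function.Injective fun q => w.foldl (step G c) q := by
    intro w
    induction w with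
    | nil => exact fun _ _ h => h
    | cons x w ih =>
      intro q q' hqq
      exact (hc x).1 (ih hqq)
  have h2 := @h1 w ⟨0, by omega⟩ ⟨1, by omega⟩ (by
    change w.foldl (step G c) _ = w.foldl (step G c) _
    rw [hp, hp])
  have h3 := congrArg Fin.val h2
  simp at h3

end Pool.Agent.H98.SPC
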