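import Pool.Agent.H98.SPC.EulerPerm

/-!
# The synchronizing ratio if the characteristic polynomial has one irreducible factor
-/

namespace Pool.Agent.H98.SPC

open Finset Module Polynomial
open Pool.Agent.H10.Sync Pool.Agent.H82.SR

variable {n k : ℕ} {G : OutRegular n k}

theorem two_le_of_irreducible {q : ℚ[X]} (hq : Irreducible q) (a : ℕ)
    (hchar : (adj G).charpoly = (X - C (k : ℚ)) * X ^ a * q) : 2 ≤ n := by
  have h1 : (adj G).charpoly.natDegree = n := by
    rw [LinearMap.charpoly_natDegree]
    simp
  have h2 : (1 : ℕ) ≤ q.natDegree := hq.natDegree_pos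
  rw [hchar, natDegree_mul (mul_ne_zero (X_sub_C_ne_zero _) (pow_ne_zero _ X_ne_zero)) hq.ne_zero,
    natDegree_mul (X_sub_C_ne_zero _) (pow_ne_zero _ X_ne_zero), natDegree_X_sub_C,
    natDegree_X_pow] at h1
  omega

/-- The synchronizing colorings are those which are not permutation colorings. -/
theorem sync_iff (hk : 2 ≤ k) (hG : Primitive G) {m : Fin n → ℕ}
    (hm : IsWeight G (fun v => (m v : ℚ))) {q : ℚ[X]} (hq : Irreducible q) (a : ℕ)
    (hchar : (adj G).charpoly = (X - C (k : ℚ)) * X ^ a * q)
    (ha : a = 0 ∨ (q.coeff 0 ≠ 0 ∧ Nat.Coprime (∑ v, m v) k)) (c : Coloring n k) :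
    Synchronizing G c ↔ ¬ PermColoring G c := by
  constructor
  · intro h h'
    exact not_sync_of_perm (two_le_of_irreducible hq a hchar) h' h
  · intro h
    exact (sync_or_perm hk hG hm hq a hchar ha c).resolve_right h

/-- The upper bound for the synchronizing ratio of a digraph all of whose in-degrees are `k`. -/
theorem ratio_le (hk : 1 ≤ k) (hn : 2 ≤ n) (h : ∀ y, inDegree G y = k) :
    syncRatio G ≤ 1 - 1 / (k.factorial : ℝ) ^ (n - outComponents G) := by
  classical
  have hpos : (0 : ℝ) < (k.factorial : ℝ) ^ n :=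
    pow_pos (by exact_mod_cast Nat.factorial_pos k) n
  have hcomp : outComponents G ≤ n := by
    unfold outComponents
    have h1 := Nat.card_le_card_of_surjective (outGraph G).connectedComponentMk
      Quot.mk_surjective
    rwa [Nat.card_eq_fintype_card (α := Fin n), Fintype.card_fin] at h1
  have h1 := card_perm_ge hk h
  have h2 : ((univ : Finset (Coloring n k)).filter fun c => PermColoring G c).card ≤
      ((univ : Finset (Coloring n k)).filter fun c => ¬ Synchronizing G c).card := by
    apply card_le_card
    intro c hc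
    exact mem_filter.2 ⟨mem_univ _, not_sync_of_perm hn (mem_filter.1 hc).2⟩
  have h3 : ((k.factorial : ℝ) ^ outComponents G) ≤
      (((univ : Finset (Coloring n k)).filter fun c => ¬ Synchronizing G c).card : ℝ) := by
    exact_mod_cast h1.trans h2
  rw [syncRatio_eq, card_coloring]
  have h4 : (1 : ℝ) / (k.factorial : ℝ) ^ (n - outComponents G) ≤
      (((univ : Finset (Coloring n k)).filter fun c => ¬ Synchronizing G c).card : ℝ) /
        (k.factorial : ℝ) ^ n := by
    have h5 : (0 : ℝ) < (k.factorial : ℝ) ^ (n - outComponents G) :=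
      pow_pos (by exact_mod_cast Nat.factorial_pos k) _
    rw [div_le_div_iff₀ h5 hpos, one_mul]
    calc (k.factorial : ℝ) ^ n =
        (k.factorial : ℝ) ^ outComponents G * (k.factorial : ℝ) ^ (n - outComponents G) := by
          rw [← pow_add]
          congr 1
          omega
      _ ≤ _ := mul_le_mul_of_nonneg_right h3 h5.le
  linarith

/-- A permutation coloring is not synchronizing, so the ratio is `1` only if some in-degree is
different from `k`. -/
theorem ratio_eq_one_iff (hk : 2 ≤ k) (hG : Primitive G) {m : Fin n → ℕ}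
    (hm : IsWeight G (fun v => (m v : ℚ))) {q : ℚ[X]} (hq : Irreducible q) (a : ℕ)
    (hchar : (adj G).charpoly = (X - C (k : ℚ)) * X ^ a * q)
    (ha : a = 0 ∨ (q.coeff 0 ≠ 0 ∧ Nat.Coprime (∑ v, m v) k)) :
    syncRatio G = 1 ↔ ∃ y, inDegree G y ≠ k := by
  constructor
  · intro h
    by_contra hcon
    push Not at hcon
    have h1 := ratio_le (G := G) (by omega) (two_le_of_irreducible hq a hchar) hcon
    have h5 : (0 : ℝ) < (k.factorial : ℝ) ^ (n - outComponents G) :=
      pow_pos (by exact_mod_cast Nat.factorial_pos k) _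
    have h6 : (0 : ℝ) < 1 / (k.factorial : ℝ) ^ (n - outComponents G) := by positivity
    linarith
  · exact (ratio_of_irreducible hk hG hm hq a hchar ha).1

end Pool.Agent.H98.SPC
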