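import Pool.Agent.H98.SPC.Nilpotent
import Pool.Agent.H98.SPC.Components

/-!
# The criterion by the factors of the characteristic polynomial
-/

namespace Pool.Agent.H98.SPC

open Finset Module Polynomial
open Pool.Agent.H10.Sync Pool.Agent.H82.SR

variable {n k : ℕ} {G : OutRegular n k}

/-- An invariant subspace without the constant function `1` contains no nonzero function killed by
`A - k`. -/
theorem no_eigen (hG : Primitive G) {U : Submodule ℚ (Fin n → ℚ)}
    (h1 : (fun _ => (1 : ℚ)) ∉ U) {g : Fin n → ℚ} (hg : g ∈ U) (hg0 : g ≠ 0) {q : ℚ[X]}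
    (hq : Associated q (X - C (k : ℚ))) (h : aeval (adj G) q g = 0) : False := by
  obtain ⟨v0⟩ := nonempty_of_primitive hG
  obtain ⟨u, hu⟩ := hq
  have h2 : aeval (adj G) (X - C (k : ℚ)) g = 0 := by
    rw [← hu, mul_comm, map_mul, Module.End.mul_apply, h, map_zero]
  rw [map_sub, aeval_X, aeval_C, LinearMap.sub_apply, Module.algebraMap_end_apply] at h2
  have hc := const_of_adj_eq hG fun v => by
    have := congrFun (sub_eq_zero.1 h2) v
    rw [this]
    rfl
  have h3 : g v0 ≠ 0 := by
    intro h3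
    apply hg0
    funext v
    rw [hc v v0, h3]
    rfl
  apply h1
  have h4 : (fun _ => (1 : ℚ)) = (g v0)⁻¹ • g := by
    funext v
    simp only [Pi.smul_apply, smul_eq_mul]
    rw [hc v v0, inv_mul_cancel₀ h3]
  rw [h4]
  exact U.smul_mem _ hg

theorem ratio_ge_factors (hk : 2 ≤ k) (hG : Primitive G) {m : Fin n → ℕ}
    (hm : IsWeight G (fun v => (m v : ℚ))) (Q : Finset ℚ[X])
    (hQ : ∀ q : ℚ[X], q.Monic → Irreducible q → q ∣ (adj G).charpoly → q ≠ X - C (k : ℚ) →
      (q = X ∧ Nat.Coprime (∑ v, m v) k) ∨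
      (q ∈ Q ∧ finrank ℚ (LinearMap.ker (aeval (adj G) q)) = q.natDegree)) :
    1 - ∑ q ∈ Q, orthRatio G (fun v => (m v : ℚ)) (LinearMap.ker (aeval (adj G) q)) ≤
      syncRatio G := by
  classical
  have hne := nonempty_of_primitive hG
  apply ratio_ge_sum (by omega) hG hm
  intro r hr F hF
  obtain ⟨hbot, hadm⟩ := blockSpan_admissible hm hr hF
  have hinv := hadm.1
  have h1 := hadm.2.1
  have hchar0 : (adj G).charpoly ≠ 0 := (LinearMap.charpoly_monic _).ne_zero
  -- a factor
  have key : ∃ q, q.Monic ∧ Irreducible q ∧ q ∣ (adj G).charpoly ∧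
      (Nat.Coprime (∑ v, m v) k → q ≠ X) ∧
      ∃ g ∈ blockSpan F, g ≠ 0 ∧ aeval (adj G) q g = 0 := by
    by_cases hcop : Nat.Coprime (∑ v, m v) k
    · obtain ⟨f, hf, hfa⟩ := exists_not_nilpotent hne hcop hr hF
      obtain ⟨q, hq, hqd, hqX, hg⟩ := exists_factor_ne_X hinv _ hchar0 f hf hfa (by
        rw [LinearMap.aeval_self_charpoly]
        rfl)
      obtain ⟨q', h2, h3, h4, h5, h6⟩ := monic_of hq hqd hg
      refine ⟨q', h2, h3, h4, fun _ hX => hqX ?_, h6⟩
      rw [← hX]
      exact h5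
    · obtain ⟨f, hf, hf0⟩ := (Submodule.ne_bot_iff _).1 hbot
      obtain ⟨q, hq, hqd, hg⟩ := exists_factor hinv _ hchar0 f hf hf0 (by
        rw [LinearMap.aeval_self_charpoly]
        rfl)
      obtain ⟨q', h2, h3, h4, h5, h6⟩ := monic_of hq hqd hg
      exact ⟨q', h2, h3, h4, fun h => absurd h hcop, h6⟩
  obtain ⟨q, hmon, hirr, hdvd, hX, g, hg, hg0, hgq⟩ := key
  have hne1 : q ≠ X - C (k : ℚ) := by
    intro h
    exact no_eigen hG h1 hg hg0 (by rw [h]) hgq
  rcases hQ q hmon hirr hdvd hne1 with ⟨h2, h3⟩ | ⟨h2, h3⟩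
  · exact absurd h2 (hX h3)
  · exact ⟨q, h2, ker_le hinv hirr h3.le hg hg0 hgq⟩

theorem weight_aeval {w : Fin n → ℚ} (hw : IsWeight G w) (P : ℚ[X]) (f : Fin n → ℚ) :
    ∑ v, w v * (aeval (adj G) P f) v = P.eval (k : ℚ) * ∑ v, w v * f v := by
  induction P using Polynomial.induction_on' with
  | add p q hp hq =>
    rw [map_add, LinearMap.add_apply, eval_add, add_mul, ← hp, ← hq, ← sum_add_distrib]
    refine sum_congr rfl fun v _ => ?_
    rw [Pi.add_apply]
    ring
  | monomial m a =>
    rw [aeval_monomial, Module.End.mul_apply, Module.algebraMap_end_apply, eval_monomial]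
    have h3 : ∀ m, ∑ v, w v * (((adj G) ^ m) f) v = (k : ℚ) ^ m * ∑ v, w v * f v := by
      intro m
      induction m with
      | zero =>
        rw [pow_zero, pow_zero, one_mul]
        rfl
      | succ m ih =>
        rw [pow_succ', Module.End.mul_apply, hw.2, ih, pow_succ]
        ring
    rw [mul_assoc, ← h3 m, mul_sum]
    refine sum_congr rfl fun v _ => ?_
    rw [Pi.smul_apply, smul_eq_mul]
    ring

theorem assoc_cases {q' q : ℚ[X]} {a : ℕ} (hq' : Irreducible q') (hq : Irreducible q)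
    (h : q' ∣ (X - C (k : ℚ)) * X ^ a * q) :
    Associated q' (X - C (k : ℚ)) ∨ (a ≠ 0 ∧ Associated q' X) ∨ Associated q' q := by
  have hp := hq'.prime
  rcases hp.dvd_or_dvd h with h1 | h1
  · rcases hp.dvd_or_dvd h1 with h2 | h2
    · left
      exact hq'.associated_of_dvd (irreducible_X_sub_C _) h2
    · right
      left
      refine ⟨?_, hq'.associated_of_dvd irreducible_X (hp.dvd_of_dvd_pow h2)⟩
      rintro rfl
      rw [pow_zero] at h2
      exact hq'.not_isUnit (isUnit_of_dvd_one h2)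
  · right
    right
    exact hq'.associated_of_dvd hq h1

/-- The dimension of the kernel of `q(A)`. -/
theorem finrank_ker_le (hG : Primitive G) {w : Fin n → ℚ} (hw : IsWeight G w) {q : ℚ[X]}
    (hq : Irreducible q) (a : ℕ) (hchar : (adj G).charpoly = (X - C (k : ℚ)) * X ^ a * q)
    (ha : a = 0 ∨ q.coeff 0 ≠ 0) (hk0 : (k : ℚ) ≠ 0) (hqk : q.eval (k : ℚ) ≠ 0) :
    finrank ℚ (LinearMap.ker (aeval (adj G) q)) ≤ q.natDegree ∧ q.natDegree + a + 1 = n := by
  classical
  obtain ⟨v0⟩ := nonempty_of_primitive hG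
  have hq0 : q ≠ 0 := hq.ne_zero
  have hdeg : q.natDegree + a + 1 = n := by
    have h3 := LinearMap.charpoly_natDegree (adj G)
    rw [hchar, Polynomial.natDegree_mul (mul_ne_zero (X_sub_C_ne_zero _) (pow_ne_zero _ X_ne_zero))
      hq0, Polynomial.natDegree_mul (X_sub_C_ne_zero _) (pow_ne_zero _ X_ne_zero),
      natDegree_X_sub_C, natDegree_X_pow] at h3
    simp at h3
    omega
  refine ⟨?_, hdeg⟩
  set L : (Fin n → ℚ) →ₗ[ℚ] ℚ :=
    { toFun := fun f => ∑ v, w v * f v
      map_add' := by
        intro f g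
        simp only [Pi.add_apply, mul_add, sum_add_distrib]
      map_smul' := by
        intro c f
        simp only [Pi.smul_apply, smul_eq_mul, RingHom.id_apply, mul_sum]
        refine sum_congr rfl fun v _ => ?_
        ring } with hL
  have hLapp : ∀ f, L f = ∑ v, w v * f v := fun f => rfl
  set K := LinearMap.ker (aeval (adj G) q) with hK
  set N : Submodule ℚ (Fin n → ℚ) := Module.End.maxGenEigenspace (adj G) 0 with hN
  have hKL : K ≤ LinearMap.ker L := by
    intro f hf
    rw [LinearMap.mem_ker, hLapp]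
    have h2 := weight_aeval hw q f
    rw [LinearMap.mem_ker.1 hf] at h2
    simp only [Pi.zero_apply, mul_zero, sum_const_zero] at h2
    rcases mul_eq_zero.1 h2.symm with h3 | h3
    · exact absurd h3 hqk
    · exact h3
  have hNmem : ∀ f ∈ N, ∃ b : ℕ, ((adj G) ^ b) f = 0 := by
    intro f hf
    rw [hN, Module.End.mem_maxGenEigenspace] at hf
    obtain ⟨b, hb⟩ := hf
    refine ⟨b, ?_⟩
    rw [zero_smul, sub_zero] at hb
    exact hb
  have hNL : N ≤ LinearMap.ker L := by
    intro f hf
    rw [LinearMap.mem_ker, hLapp]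
    obtain ⟨b, hb⟩ := hNmem f hf
    have h2 := weight_aeval hw (X ^ b) f
    rw [map_pow, aeval_X, hb, eval_pow, eval_X] at h2
    simp only [Pi.zero_apply, mul_zero, sum_const_zero] at h2
    rcases mul_eq_zero.1 h2.symm with h3 | h3
    · exact absurd h3 (pow_ne_zero _ hk0)
    · exact h3
  have hLdim : finrank ℚ (LinearMap.ker L) < n := by
    have h3 : finrank ℚ (LinearMap.ker L) < finrank ℚ (Fin n → ℚ) := by
      apply Submodule.finrank_lt
      intro htop
      have h4 : (fun _ => (1 : ℚ)) ∈ LinearMap.ker L := by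
        rw [htop]
        exact Submodule.mem_top
      rw [LinearMap.mem_ker, hLapp] at h4
      simp only [mul_one] at h4
      have h5 : 0 < ∑ v, w v := sum_pos (fun v _ => hw.1 v) ⟨v0, mem_univ v0⟩
      exact h5.ne' h4
    simpa using h3
  rcases Nat.eq_zero_or_pos a with ha0 | ha0
  · have h3 := Submodule.finrank_mono hKL
    omega
  · have hqX : q.coeff 0 ≠ 0 := by
      rcases ha with h | h
      · omega
      · exact h
    have hNdim : a ≤ finrank ℚ N := by
      rw [hN, LinearMap.finrank_maxGenEigenspace_eq,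
        le_rootMultiplicity_iff (LinearMap.charpoly_monic _).ne_zero, hchar, C_0, sub_zero]
      exact ⟨(X - C (k : ℚ)) * q, by ring⟩
    have hdisj : K ⊓ N = ⊥ := by
      rw [eq_bot_iff]
      rintro f ⟨hfK, hfN⟩
      rw [Submodule.mem_bot]
      obtain ⟨b, hb⟩ := hNmem f hfN
      have h4 : ¬ q ∣ X ^ b := by
        intro hdvd
        have h5 := hq.prime.dvd_of_dvd_pow hdvd
        obtain ⟨u, hu⟩ := hq.associated_of_dvd irreducible_X h5
        have h6 : (q * (u : ℚ[X])).coeff 0 = 0 := by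
          rw [hu, coeff_X_zero]
        rw [mul_coeff_zero] at h6
        rcases mul_eq_zero.1 h6 with h7 | h7
        · exact hqX h7
        · obtain ⟨c, hc0, hc⟩ := Polynomial.isUnit_iff.1 u.isUnit
          rw [← hc, coeff_C_zero] at h7
          exact hc0.ne_zero h7
      obtain ⟨x, y, hxy⟩ := (hq.coprime_iff_not_dvd).2 h4
      have h6 : aeval (adj G) (x * q + y * X ^ b) f = f := by
        rw [hxy, map_one]
        rfl
      rw [← h6, map_add, map_mul, map_mul, LinearMap.add_apply, Module.End.mul_apply,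
        Module.End.mul_apply, LinearMap.mem_ker.1 hfK, map_pow, aeval_X, hb, map_zero, map_zero,
        add_zero]
    have h3 := Submodule.finrank_sup_add_finrank_inf_eq K N
    rw [hdisj, finrank_bot, add_zero] at h3
    have h4 := Submodule.finrank_mono (sup_le hKL hNL)
    omega

end Pool.Agent.H98.SPC
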