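import Pool.Agent.H10.Sync.Defs

/-!
# Littlewood-Offord bound for colorings of a 2-out-regular digraph
-/

namespace Pool.Agent.H98.SPC

open Finset Pool.Agent.H10.Sync

theorem perm_two (σ τ : Equiv.Perm (Fin 2)) :
    σ = τ ∨ (σ.symm 0 = τ.symm 1 ∧ σ.symm 1 = τ.symm 0) := by
  revert σ τ
  decide

theorem perm_two' (σ : Equiv.Perm (Fin 2)) :
    (σ.symm 0 = 0 ∧ σ.symm 1 = 1) ∨ (σ.symm 0 = 1 ∧ σ.symm 1 = 0) := by
  revert σ
  decide

theorem littlewood_offord {n : ℕ} (G : OutRegular n 2) (w : Fin n → ℚ) (hw : ∀ v, 0 < w v)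
    (f : Fin n → ℚ) (s : ℕ)
    (hs : s = ((univ : Finset (Fin n)).filter fun v => f (G v 0) ≠ f (G v 1)).card)
    (C : Finset (Coloring n 2))
    (hC : ∀ c ∈ C, ∑ v, w v * f (step G c v 0) = ∑ v, w v * f (step G c v 1)) :
    C.card * 2 ^ s ≤ s.choose (s / 2) * 2 ^ n := by
  classical
  set D : Finset (Fin n) := (univ : Finset (Fin n)).filter fun v => f (G v 0) ≠ f (G v 1) with hD
  have hmem : ∀ v, v ∈ D ↔ f (G v 0) ≠ f (G v 1) := by
    intro v; simp [hD]
  have hmem' : ∀ (c : Coloring n 2) v, v ∈ D ↔ f (step G c v 0) ≠ f (step G c v 1) := by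
    intro c v
    rw [hmem]
    unfold step
    rcases perm_two' (c v) with ⟨h0, h1⟩ | ⟨h0, h1⟩
    · rw [h0, h1]
    · rw [h0, h1]
      exact ne_comm
  let T : Coloring n 2 → Finset D :=
    fun c => univ.filter fun v : D => f (step G c v 1) < f (step G c v 0)
  have hT : ∀ c (v : D), v ∈ T c ↔ f (step G c v 1) < f (step G c v 0) := by
    intro c v; simp [T]
  -- monotonicity
  have hmono : ∀ c c', T c ⊆ T c' → ∀ v,
      f (step G c v 0) - f (step G c v 1) ≤ f (step G c' v 0) - f (step G c' v 1) := by
    intro c c' hsub v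
    rcases perm_two (c v) (c' v) with h | ⟨h0, h1⟩
    · unfold step; rw [h]
    · have e0 : step G c v 0 = step G c' v 1 := by unfold step; rw [h0]
      have e1 : step G c v 1 = step G c' v 0 := by unfold step; rw [h1]
      by_contra hlt
      push Not at hlt
      rw [e0, e1] at hlt
      have h2 : f (step G c' v 0) < f (step G c' v 1) := by linarith
      have hvD : v ∈ D := (hmem' c' v).2 h2.ne
      have h3 : (⟨v, hvD⟩ : D) ∈ T c := by
        rw [hT]
        change f (step G c v 1) < f (step G c v 0)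
        rw [e0, e1]; exact h2
      have h4 := (hT c' ⟨v, hvD⟩).1 (hsub h3)
      exact lt_asymm h2 h4
  -- antichain
  have hanti : IsAntichain (· ⊆ ·) ((C.image T : Finset (Finset D)) : Set (Finset D)) := by
    intro A hA B hB hne hsub
    obtain ⟨c, hc, rfl⟩ := Finset.mem_image.1 (Finset.mem_coe.1 hA)
    obtain ⟨c', hc', rfl⟩ := Finset.mem_image.1 (Finset.mem_coe.1 hB)
    apply hne
    have hge := hmono c c' hsub
    have hsum : ∑ v, w v * ((f (step G c' v 0) - f (step G c' v 1)) -
        (f (step G c v 0) - f (step G c v 1))) = 0 := by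
      have h1 := hC c hc
      have h2 := hC c' hc'
      simp only [mul_sub, Finset.sum_sub_distrib]
      linarith
    have hz := (Finset.sum_eq_zero_iff_of_nonneg (fun v _ =>
      mul_nonneg (hw v).le (sub_nonneg.2 (hge v)))).1 hsum
    ext v
    rw [hT, hT]
    have h3 := hz v.1 (Finset.mem_univ _)
    have h4 : (f (step G c' v.1 0) - f (step G c' v.1 1)) -
        (f (step G c v.1 0) - f (step G c v.1 1)) = 0 := by
      rcases mul_eq_zero.1 h3 with h | h
      · exact absurd h (hw v.1).ne'
      · exact h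
    constructor
    · intro h; linarith
    · intro h; linarith
  have hsp := hanti.sperner
  have hcardD : Fintype.card D = s := by rw [Fintype.card_coe, hs]
  rw [hcardD] at hsp
  -- the injection
  let Φ : Coloring n 2 → Finset D × ({v : Fin n // v ∉ D} → Equiv.Perm (Fin 2)) :=
    fun c => (T c, fun v => c v.1)
  have hΦ : Function.Injective Φ := by
    intro c c' h
    have hTT : T c = T c' := congrArg Prod.fst h
    have hout : ∀ v : {v : Fin n // v ∉ D}, c v.1 = c' v.1 := fun v =>
      congrFun (congrArg Prod.snd h) v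
    funext v
    by_cases hv : v ∈ D
    · rcases perm_two (c v) (c' v) with h | ⟨h0, h1⟩
      · exact h
      · exfalso
        have e0 : step G c v 0 = step G c' v 1 := by unfold step; rw [h0]
        have e1 : step G c v 1 = step G c' v 0 := by unfold step; rw [h1]
        have h5 := hT c ⟨v, hv⟩
        have h6 := hT c' ⟨v, hv⟩
        rw [hTT, h6] at h5
        have h7 : f (step G c' v 1) < f (step G c' v 0) ↔ f (step G c v 1) < f (step G c v 0) := h5
        rw [e0, e1] at h7
        rcases lt_or_gt_of_ne ((hmem' c' v).1 hv) with h8 | h8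
        · exact lt_asymm h8 (h7.2 h8)
        · exact lt_asymm h8 (h7.1 h8)
    · exact hout ⟨v, hv⟩
  have hcard : C.card ≤ (C.image T).card * 2 ^ (n - s) := by
    have h1 := Finset.card_le_card_of_injOn (s := C)
      (t := (C.image T) ×ˢ (univ : Finset ({v : Fin n // v ∉ D} → Equiv.Perm (Fin 2)))) Φ
      (fun c hc => Finset.mem_coe.2 (Finset.mem_product.2
        ⟨Finset.mem_image_of_mem _ (Finset.mem_coe.1 hc), Finset.mem_univ _⟩)) hΦ.injOn
    have h2 : Fintype.card {v : Fin n // v ∉ D} = n - s := by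
      have h3 : Fintype.card {v : Fin n // v ∉ D} = (univ.filter fun v => v ∉ D).card :=
        Fintype.card_subtype _
      rw [h3, Finset.filter_not, Finset.filter_mem_eq_inter, Finset.univ_inter,
        Finset.card_sdiff_of_subset (Finset.subset_univ _), Finset.card_univ, Fintype.card_fin, hs]
    rw [Finset.card_product, Finset.card_univ, Fintype.card_fun, h2, Fintype.card_perm,
      Fintype.card_fin] at h1
    simpa using h1
  have hsn : s ≤ n := by
    rw [hs]
    exact (Finset.card_le_univ _).trans (by simp)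
  calc C.card * 2 ^ s ≤ ((C.image T).card * 2 ^ (n - s)) * 2 ^ s := Nat.mul_le_mul_right _ hcard
    _ = (C.image T).card * 2 ^ n := by
        rw [mul_assoc, ← pow_add, Nat.sub_add_cancel hsn]
    _ ≤ s.choose (s / 2) * 2 ^ n := Nat.mul_le_mul_right _ hsp

end Pool.Agent.H98.SPC
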