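import Pool.Agent.H98.SPC.Three

/-!
# Digraphs with at most three related vertices
-/

namespace Pool.Agent.H98.SPC

open Finset
open Pool.Agent.H10.Sync

variable {n k : ℕ} {G : OutRegular n k}

theorem sum_single (w : Fin n → ℚ) (x : Fin n) (a : ℚ) :
    ∑ v, w v * (a • (Pi.single x 1 : Fin n → ℚ)) v = w x * a := by
  rw [Finset.sum_eq_single x]
  · simp
  · intro v _ hv
    simp [Pi.single_eq_of_ne hv]
  · intro h
    exact absurd (mem_univ x) h

/-- All relations are supported by three vertices which are not confluent. -/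
theorem common_three (hk : 1 ≤ k) (hG : Primitive G) {x y z : Fin n} (hxy : x ≠ y) (hxz : x ≠ z)
    (hyz : y ≠ z) (hcx : ¬ Confluent G x) (hcy : ¬ Confluent G y) (hcz : ¬ Confluent G z)
    {w : Fin n → ℚ} (hrelated : ∀ v, Related G w v → v = x ∨ v = y ∨ v = z)
    (hw : IsWeight G w) (hyx : w y ≤ w x) (hzx : w z ≤ w x) :
    ∃ h : Fin n → ℚ, h ≠ 0 ∧
      ∀ U : Submodule ℚ (Fin n → ℚ), U ≠ ⊥ → Admissible G U → h ∈ U := by
  classical
  set sx : Fin n → ℚ := Pi.single x 1 with hsx
  set sy : Fin n → ℚ := Pi.single y 1 with hsy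
  set sz : Fin n → ℚ := Pi.single z 1 with hsz
  have hdec : ∀ ε : Fin n → ℚ, (∀ u, Small (ε u)) → (∀ u, Confluent G u → ε u = 0) →
      ∑ u, w u * ε u = 0 → ε = ε x • sx + ε y • sy + ε z • sz := by
    intro ε hε1 hε2 hε3
    funext v
    simp only [Pi.add_apply, Pi.smul_apply, smul_eq_mul]
    by_cases hv : v = x ∨ v = y ∨ v = z
    swap
    · have h1 : v ≠ x ∧ v ≠ y ∧ v ≠ z := by
        push Not at hv
        exact hv
      have h2 : ε v = 0 := by
        by_contra h2
        exact hv (hrelated v ⟨ε, ⟨hε1, hε2, hε3⟩, h2⟩)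
      rw [h2, hsx, hsy, hsz, Pi.single_eq_of_ne h1.1, Pi.single_eq_of_ne h1.2.1,
        Pi.single_eq_of_ne h1.2.2]
      ring
    · rcases hv with rfl | rfl | rfl
      · rw [hsx, hsy, hsz, Pi.single_eq_same, Pi.single_eq_of_ne hxy, Pi.single_eq_of_ne hxz]
        ring
      · rw [hsx, hsy, hsz, Pi.single_eq_same, Pi.single_eq_of_ne hxy.symm,
          Pi.single_eq_of_ne hyz]
        ring
      · rw [hsx, hsy, hsz, Pi.single_eq_same, Pi.single_eq_of_ne hxz.symm,
          Pi.single_eq_of_ne hyz.symm]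
        ring
  have main : ∀ U : Submodule ℚ (Fin n → ℚ), U ≠ ⊥ → Admissible G U →
      (w x = w y + w z → (1 : ℚ) • sx + (-1 : ℚ) • sy + (-1 : ℚ) • sz ∈ U) ∧
      (w x ≠ w y + w z → w x = w y → (1 : ℚ) • sx + (-1 : ℚ) • sy + (0 : ℚ) • sz ∈ U) ∧
      (w x ≠ w y + w z → w x ≠ w y → w x = w z →
        (1 : ℚ) • sx + (0 : ℚ) • sy + (-1 : ℚ) • sz ∈ U) ∧
      (w x ≠ w y + w z → w x ≠ w y → w x ≠ w z →
        (0 : ℚ) • sx + (1 : ℚ) • sy + (-1 : ℚ) • sz ∈ U) := by
    intro U hU hadm
    have hact : ∀ v, Active G U v → v = x ∨ v = y ∨ v = z := by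
      intro v hv
      obtain ⟨ε, h0, h1, h2, h3⟩ := relation_of_active hadm hv
      refine hrelated v ⟨ε, ⟨h2, h3, perp hG hw hadm.1 hadm.2.1 h0⟩, ?_⟩
      rw [h1]
      exact one_ne_zero
    have hrel : ∀ v, Active G U v → ∃ ε : Fin n → ℚ, ε x • sx + ε y • sy + ε z • sz ∈ U ∧
        ε v = 1 ∧ ∀ u, Small (ε u) := by
      intro v hv
      obtain ⟨ε, h0, h1, h2, h3⟩ := relation_of_active hadm hv
      refine ⟨ε, ?_, h1, h2⟩
      rw [← hdec ε h2 h3 (perp hG hw hadm.1 hadm.2.1 h0)]
      exact h0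
    have hthird : ∀ a b d : Fin n, a ≠ b → d ≠ a → d ≠ b → ¬ Confluent G d →
        (∀ v, Active G U v → v = a ∨ v = b ∨ v = d) →
        (Pi.single a 1 - Pi.single b 1 : Fin n → ℚ) ∈ U → Active G U d := by
      intro a b d hab hda hdb hd h3 hmem
      by_contra hnd
      apply hd
      refine confluent_of_two hk hG hadm.1 hab hmem ?_ hda hdb
      intro v hv
      rcases h3 v hv with h4 | h4 | h4
      · exact Or.inl h4
      · exact Or.inr h4
      · rw [h4] at hv
        exact absurd hv hnd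
    refine three_cases (fun a b c => a • sx + b • sy + c • sz ∈ U) ?_ ?_ (hw.1 x) (hw.1 y)
      (hw.1 z) hyx hzx ?_ (X := Active G U x) (Y := Active G U y) (Z := Active G U z)
      ?_ ?_ ?_ ?_ ?_ ?_
    · intro a b c a' b' c' h1 h2
      have h3 := U.sub_mem h1 h2
      have h4 : a • sx + b • sy + c • sz - (a' • sx + b' • sy + c' • sz) =
          (a - a') • sx + (b - b') • sy + (c - c') • sz := by
        simp only [sub_smul]
        abel
      rw [h4] at h3
      exact h3
    · intro a b c h1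
      have h3 := U.neg_mem h1
      have h4 : -(a • sx + b • sy + c • sz) = (-a) • sx + (-b) • sy + (-c) • sz := by
        simp only [neg_smul]
        abel
      rw [h4] at h3
      exact h3
    · intro a b c h1
      have h2 := perp hG hw hadm.1 hadm.2.1 h1
      simp only [Pi.add_apply, mul_add, sum_add_distrib] at h2
      rw [sum_single, sum_single, sum_single] at h2
      exact h2
    · intro h
      obtain ⟨ε, h1, h2, h3⟩ := hrel x h
      rw [h2] at h1
      exact ⟨_, _, h3 y, h3 z, h1⟩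
    · intro h
      obtain ⟨ε, h1, h2, h3⟩ := hrel y h
      rw [h2] at h1
      exact ⟨_, _, h3 x, h3 z, h1⟩
    · intro h
      obtain ⟨ε, h1, h2, h3⟩ := hrel z h
      rw [h2] at h1
      exact ⟨_, _, h3 x, h3 y, h1⟩
    · obtain ⟨v, hv⟩ := exists_active_of_ne hG hU hadm.1 hadm.2.1
      rcases hact v hv with rfl | rfl | rfl
      · exact Or.inl hv
      · exact Or.inr (Or.inl hv)
      · exact Or.inr (Or.inr hv)
    · intro h
      refine hthird x z y hxz hxy.symm hyz hcy ?_ ?_
      · intro v hv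
        rcases hact v hv with h4 | h4 | h4
        · exact Or.inl h4
        · exact Or.inr (Or.inr h4)
        · exact Or.inr (Or.inl h4)
      · have h5 : (1 : ℚ) • sx + (0 : ℚ) • sy + (-1 : ℚ) • sz = Pi.single x 1 - Pi.single z 1 := by
          rw [one_smul, zero_smul, neg_smul, one_smul, add_zero, ← sub_eq_add_neg]
        rw [← h5]
        exact h
    · intro h
      refine hthird y z x hyz hxy hxz hcx ?_ ?_
      · intro v hv
        rcases hact v hv with h4 | h4 | h4
        · exact Or.inr (Or.inr h4)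
        · exact Or.inl h4
        · exact Or.inr (Or.inl h4)
      · have h5 : (0 : ℚ) • sx + (1 : ℚ) • sy + (-1 : ℚ) • sz = Pi.single y 1 - Pi.single z 1 := by
          rw [one_smul, zero_smul, neg_smul, one_smul, zero_add, ← sub_eq_add_neg]
        rw [← h5]
        exact h
  have hne0 : ∀ a b c : ℚ, (a ≠ 0 ∨ b ≠ 0) → a • sx + b • sy + c • sz ≠ 0 := by
    intro a b c h h0
    rcases h with h | h
    · apply h
      have := congrFun h0 x
      rw [hsx, hsy, hsz] at this
      simp only [Pi.add_apply, Pi.smul_apply, smul_eq_mul, Pi.zero_apply] at this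
      rw [Pi.single_eq_same, Pi.single_eq_of_ne hxy, Pi.single_eq_of_ne hxz] at this
      linarith
    · apply h
      have := congrFun h0 y
      rw [hsx, hsy, hsz] at this
      simp only [Pi.add_apply, Pi.smul_apply, smul_eq_mul, Pi.zero_apply] at this
      rw [Pi.single_eq_same, Pi.single_eq_of_ne hxy.symm, Pi.single_eq_of_ne hyz] at this
      linarith
  by_cases h1 : w x = w y + w z
  · exact ⟨_, hne0 1 (-1) (-1) (Or.inl one_ne_zero), fun U hU hadm => (main U hU hadm).1 h1⟩
  by_cases h2 : w x = w y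
  · exact ⟨_, hne0 1 (-1) 0 (Or.inl one_ne_zero), fun U hU hadm => (main U hU hadm).2.1 h1 h2⟩
  by_cases h3 : w x = w z
  · exact ⟨_, hne0 1 0 (-1) (Or.inl one_ne_zero),
      fun U hU hadm => (main U hU hadm).2.2.1 h1 h2 h3⟩
  · exact ⟨_, hne0 0 1 (-1) (Or.inr one_ne_zero),
      fun U hU hadm => (main U hU hadm).2.2.2 h1 h2 h3⟩

/-- All relations are supported by two vertices. -/
theorem common_two (hG : Primitive G) {x y : Fin n} (hxy : x ≠ y) {w : Fin n → ℚ}
    (hrelated : ∀ v, Related G w v → v = x ∨ v = y) (hw : IsWeight G w) :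
    ∃ h : Fin n → ℚ, h ≠ 0 ∧
      ∀ U : Submodule ℚ (Fin n → ℚ), U ≠ ⊥ → Admissible G U → h ∈ U := by
  classical
  refine ⟨Pi.single x 1 - Pi.single y 1, ?_, ?_⟩
  · intro h
    have := congrFun h x
    rw [Pi.sub_apply, Pi.single_eq_same, Pi.single_eq_of_ne hxy] at this
    norm_num at this
  intro U hU hadm
  obtain ⟨v, hv⟩ := exists_active_of_ne hG hU hadm.1 hadm.2.1
  obtain ⟨ε, h0, h1, h2, h3⟩ := relation_of_active hadm hv
  have hperp := perp hG hw hadm.1 hadm.2.1 h0
  have hsupp : ∀ u, ε u ≠ 0 → u = x ∨ u = y := fun u hu => hrelated u ⟨ε, ⟨h2, h3, hperp⟩, hu⟩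
  have hdec : ε = ε x • Pi.single x 1 + ε y • Pi.single y 1 := by
    funext u
    simp only [Pi.add_apply, Pi.smul_apply, smul_eq_mul]
    by_cases hux : u = x
    · rw [hux, Pi.single_eq_same, Pi.single_eq_of_ne hxy]
      ring
    by_cases huy : u = y
    · rw [huy, Pi.single_eq_same, Pi.single_eq_of_ne hxy.symm]
      ring
    · have h4 : ε u = 0 := by
        by_contra hc
        rcases hsupp u hc with h4 | h4
        · exact hux h4
        · exact huy h4
      rw [Pi.single_eq_of_ne hux, Pi.single_eq_of_ne huy, h4]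
      ring
  rw [hdec] at hperp
  simp only [Pi.add_apply, mul_add, sum_add_distrib] at hperp
  rw [sum_single, sum_single] at hperp
  have hx := hw.1 x
  have hy := hw.1 y
  have hvxy : v = x ∨ v = y := by
    apply hsupp v
    rw [h1]
    exact one_ne_zero
  have hfin : (ε x = 1 ∧ ε y = -1) ∨ (ε x = -1 ∧ ε y = 1) := by
    rcases hvxy with rfl | rfl
    · rw [h1] at hperp
      rcases h2 y with h4 | h4 | h4
      · exact Or.inl ⟨h1, h4⟩
      · rw [h4] at hperp
        exfalso
        linarith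
      · rw [h4] at hperp
        exfalso
        linarith
    · rw [h1] at hperp
      rcases h2 x with h4 | h4 | h4
      · exact Or.inr ⟨h4, h1⟩
      · rw [h4] at hperp
        exfalso
        linarith
      · rw [h4] at hperp
        exfalso
        linarith
  rcases hfin with ⟨h4, h5⟩ | ⟨h4, h5⟩
  · rw [hdec, h4, h5, one_smul, neg_smul, one_smul, ← sub_eq_add_neg] at h0
    exact h0
  · rw [hdec, h4, h5, one_smul, neg_smul, one_smul] at h0
    have h6 := U.neg_mem h0
    rw [neg_add, neg_neg, ← sub_eq_add_neg] at h6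
    exact h6

open Classical in
/-- At most three vertices are related. -/
theorem common_of_related (hk : 1 ≤ k) (hG : Primitive G) {w : Fin n → ℚ} (hw : IsWeight G w)
    (hcard : ((univ : Finset (Fin n)).filter fun v => Related G w v).card ≤ 3) :
    ∃ h : Fin n → ℚ, h ≠ 0 ∧
      ∀ U : Submodule ℚ (Fin n → ℚ), U ≠ ⊥ → Admissible G U → h ∈ U := by
  have hne := nonempty_of_primitive hG
  set NC := (univ : Finset (Fin n)).filter fun v => Related G w v with hNC
  have hmem : ∀ v, v ∈ NC ↔ Related G w v := by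
    intro v
    rw [hNC, mem_filter]
    simp
  have hrel : ∀ U : Submodule ℚ (Fin n → ℚ), Admissible G U → ∀ v, Active G U v →
      ∃ ε : Fin n → ℚ, ε v = 1 ∧ ∑ u, w u * ε u = 0 ∧ ∀ u, ε u ≠ 0 → u ∈ NC := by
    intro U hadm v hv
    obtain ⟨ε, h0, h1, h2, h3⟩ := relation_of_active hadm hv
    have h4 := perp hG hw hadm.1 hadm.2.1 h0
    exact ⟨ε, h1, h4, fun u hu => (hmem u).2 ⟨ε, ⟨h2, h3, h4⟩, hu⟩⟩
  have hnconf : ∀ v ∈ NC, ¬ Confluent G v := by
    intro v hv hc
    obtain ⟨ε, ⟨-, h2, -⟩, h4⟩ := (hmem v).1 hv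
    exact h4 (h2 v hc)
  have h4 : NC.card = 0 ∨ NC.card = 1 ∨ NC.card = 2 ∨ NC.card = 3 := by omega
  rcases h4 with h4 | h4 | h4 | h4
  · rw [card_eq_zero] at h4
    refine ⟨fun _ => 1, ?_, ?_⟩
    · intro h
      obtain ⟨v⟩ := hne
      exact one_ne_zero (congrFun h v)
    · intro U hU hadm
      obtain ⟨v, hv⟩ := exists_active_of_ne hG hU hadm.1 hadm.2.1
      obtain ⟨ε, h1, -, h3⟩ := hrel U hadm v hv
      exfalso
      have h5 := h3 v (by rw [h1]; exact one_ne_zero)
      rw [h4] at h5
      simp at h5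
  · obtain ⟨x, hx⟩ := card_eq_one.1 h4
    refine ⟨fun _ => 1, ?_, ?_⟩
    · intro h
      obtain ⟨v⟩ := hne
      exact one_ne_zero (congrFun h v)
    · intro U hU hadm
      obtain ⟨v, hv⟩ := exists_active_of_ne hG hU hadm.1 hadm.2.1
      obtain ⟨ε, h1, h6, h3⟩ := hrel U hadm v hv
      exfalso
      have h5 : ∀ u, u ≠ v → ε u = 0 := by
        intro u hu
        by_contra hne0
        have h7 := h3 u hne0
        have h8 := h3 v (by rw [h1]; exact one_ne_zero)
        rw [hx, mem_singleton] at h7 h8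
        exact hu (h7.trans h8.symm)
      rw [Finset.sum_eq_single v] at h6
      · rw [h1, mul_one] at h6
        exact (hw.1 v).ne' h6
      · intro u _ hu
        rw [h5 u hu, mul_zero]
      · intro h
        exact absurd (mem_univ v) h
  · obtain ⟨x, y, hxy, hNCe⟩ := card_eq_two.1 h4
    refine common_two hG hxy ?_ hw
    intro v hv
    have := (hmem v).2 hv
    rw [hNCe] at this
    simpa using this
  · have hnon : NC.Nonempty := card_pos.1 (by omega)
    obtain ⟨x, hx, hmax⟩ := exists_max_image NC w hnon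
    have h5 : (NC.erase x).card = 2 := by
      rw [card_erase_of_mem hx, h4]
    obtain ⟨y, z, hyz, hyze⟩ := card_eq_two.1 h5
    have hy : y ∈ NC.erase x := by rw [hyze]; simp
    have hz : z ∈ NC.erase x := by rw [hyze]; simp
    refine common_three hk hG (ne_of_mem_erase hy).symm (ne_of_mem_erase hz).symm hyz
      (hnconf x hx) (hnconf y (mem_of_mem_erase hy)) (hnconf z (mem_of_mem_erase hz)) ?_ hw
      (hmax y (mem_of_mem_erase hy)) (hmax z (mem_of_mem_erase hz))
    intro v hv
    by_cases hvx : v = x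
    · exact Or.inl hvx
    · have : v ∈ NC.erase x := mem_erase.2 ⟨hvx, (hmem v).2 hv⟩
      rw [hyze] at this
      right
      simpa using this

open Classical in
theorem card_related_le (w : Fin n → ℚ) :
    ((univ : Finset (Fin n)).filter fun v => Related G w v).card ≤
      ((univ : Finset (Fin n)).filter fun v => ¬ Confluent G v).card := by
  apply card_le_card
  intro v hv
  rw [mem_filter] at hv ⊢
  refine ⟨mem_univ v, fun hc => ?_⟩
  obtain ⟨ε, ⟨-, h2, -⟩, h4⟩ := hv.2
  exact h4 (h2 v hc)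

end Pool.Agent.H98.SPC
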