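import Pool.Agent.H98.SPC.OneFactor
import Pool.Agent.H98.SPC.ThreeMain
import Pool.Agent.H98.SPC.LO

/-!
# The theorems on the synchronizing ratio
-/

namespace Pool.Agent.H98.SPC

open Finset Module Polynomial
open Pool.Agent.H10.Sync Pool.Agent.H82.SR

variable {n k : ℕ} {G : OutRegular n k}

/-- At most one relation up to sign. -/
theorem ratio_ge_one_relation (hk : 2 ≤ k) (hG : Primitive G) {w : Fin n → ℚ}
    (hw : IsWeight G w) (h : ∀ ε ε', IsRelation G w ε → IsRelation G w ε' → ε ≠ 0 → ε' ≠ 0 →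
      ε' = ε ∨ ε' = -ε) :
    1 - 1 / (k : ℝ) ≤ syncRatio G := by
  classical
  have hne := nonempty_of_primitive hG
  -- every block span contains a relation
  have key : ∀ r, 2 ≤ r → ∀ F : Set (Fin n → Fin r), BlockFamily G w F →
      ∃ ε ∈ blockSpan F, ε ≠ 0 ∧ IsRelation G w ε := by
    intro r hr F hF
    obtain ⟨hbot, hadm⟩ := blockSpan_admissible hw hr hF
    obtain ⟨v, hv⟩ := exists_active_of_ne hG hbot hadm.1 hadm.2.1
    obtain ⟨ε, h0, h1, h2, h3⟩ := relation_of_active hadm hv
    refine ⟨ε, h0, ?_, h2, h3, blockSpan_perp hr hF h0⟩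
    intro h4
    rw [h4] at h1
    exact zero_ne_one h1
  by_cases hex : ∃ ε, ε ≠ 0 ∧ IsRelation G w ε
  · obtain ⟨ε, h0, hε⟩ := hex
    refine ratio_ge_of_block hk hG hw h0 fun r hr F hF => ?_
    obtain ⟨ε', h1, h2, h3⟩ := key r hr F hF
    rcases h ε' ε h3 hε h2 h0 with h4 | h4
    · rw [h4]
      exact h1
    · rw [h4]
      exact Submodule.neg_mem _ h1
  · have h0 : (fun _ => 1 : Fin n → ℚ) ≠ 0 := by
      intro h
      obtain ⟨v⟩ := hne
      exact one_ne_zero (congrFun h v)
    refine ratio_ge_of_block hk hG hw h0 fun r hr F hF => ?_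
    obtain ⟨ε', h1, h2, h3⟩ := key r hr F hF
    exact absurd ⟨ε', h2, h3⟩ hex

open Classical in
/-- At most three vertices occur in the relations. -/
theorem ratio_ge_three (hk : 2 ≤ k) (hG : Primitive G) {w : Fin n → ℚ} (hw : IsWeight G w)
    (hcard : ((univ : Finset (Fin n)).filter fun v => Related G w v).card ≤ 3) :
    1 - 1 / (k : ℝ) ≤ syncRatio G := by
  have hne := nonempty_of_primitive hG
  obtain ⟨h, h0, hall⟩ := common_of_related (by omega) hG hw hcard
  refine ratio_ge_of_block hk hG hw h0 fun r hr F hF => ?_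
  obtain ⟨hbot, hadm⟩ := blockSpan_admissible hw hr hF
  exact hall _ hbot hadm

/-- Weights which are natural numbers. -/
theorem exists_nat_weight (hG : Primitive G) :
    ∃ m : Fin n → ℕ, IsWeight G (fun v => (m v : ℚ)) := by
  classical
  obtain ⟨w, hw⟩ := exists_weight hG
  -- a common denominator
  set D : ℕ := ∏ v, (w v).den with hD
  have hD0 : (0 : ℚ) < D := by
    rw [hD]
    exact_mod_cast prod_pos fun v _ => (w v).den_pos
  have h1 : ∀ v, ∃ m : ℕ, (m : ℚ) = D * w v := by
    intro v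
    have h2 : (D : ℚ) = (∏ u ∈ univ.erase v, ((w u).den : ℚ)) * (w v).den := by
      rw [hD]
      push_cast
      exact (prod_erase_mul univ _ (mem_univ v)).symm
    refine ⟨(∏ u ∈ univ.erase v, (w u).den) * (w v).num.toNat, ?_⟩
    have h3 : (((w v).num.toNat : ℕ) : ℚ) = ((w v).num : ℚ) := by
      have h4 : 0 ≤ (w v).num := Rat.num_nonneg.2 (hw.1 v).le
      have h5 : (((w v).num.toNat : ℕ) : ℤ) = (w v).num := Int.toNat_of_nonneg h4
      exact_mod_cast h5
    push_cast
    rw [h2, h3, mul_assoc]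
    congr 1
    rw [mul_comm]
    exact (Rat.mul_den_eq_num _).symm
  choose m hmw using h1
  refine ⟨m, fun v => ?_, fun f => ?_⟩
  · change (0 : ℚ) < (m v : ℚ)
    rw [hmw v]
    exact mul_pos hD0 (hw.1 v)
  · have h2 : ∀ g : Fin n → ℚ, ∑ v, (m v : ℚ) * g v = D * ∑ v, w v * g v := by
      intro g
      rw [mul_sum]
      refine sum_congr rfl fun v _ => ?_
      rw [hmw v]
      ring
    rw [h2, h2, hw.2 f]
    ring

open Classical in
/-- The Littlewood-Offord bound for the colorings which are orthogonal to a function. -/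
theorem orthRatio_two {w : Fin n → ℚ} (hw : ∀ v, 0 < w v) (hk : k = 2)
    {U : Submodule ℚ (Fin n → ℚ)} {f : Fin n → ℚ} (hf : f ∈ U) (s : ℕ)
    (hs : s = ((univ : Finset (Fin n)).filter fun v => ∃ e e', f (G v e) ≠ f (G v e')).card) :
    orthRatio G w U ≤ (s.choose (s / 2) : ℝ) / 2 ^ s := by
  subst hk
  have h1 : ((univ : Finset (Fin n)).filter fun v => ∃ e e', f (G v e) ≠ f (G v e')) =
      (univ : Finset (Fin n)).filter fun v => f (G v 0) ≠ f (G v 1) := by
    apply filter_congr
    intro v _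
    constructor
    · rintro ⟨e, e', h⟩ h'
      apply h
      have h2 : ∀ e : Fin 2, f (G v e) = f (G v 0) := by
        intro e
        fin_cases e
        · rfl
        · exact h'.symm
      rw [h2 e, h2 e']
    · intro h
      exact ⟨0, 1, h⟩
  rw [h1] at hs
  have h2 := littlewood_offord G w hw f s hs (orth G w U) fun c hc => by
    rw [mem_orth.1 hc f hf 0, mem_orth.1 hc f hf 1]
  unfold orthRatio
  have h3 : ((Nat.factorial 2 : ℕ) : ℝ) ^ n = 2 ^ n := by norm_num [Nat.factorial]
  rw [h3, div_le_div_iff₀ (by positivity) (by positivity)]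
  exact_mod_cast h2

end Pool.Agent.H98.SPC
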