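import Pool.Agent.H98.SPC.Union

/-!
# The number of the colorings which preserve a subspace
-/

namespace Pool.Agent.H98.SPC

open Finset Module
open Pool.Agent.H10.Sync Pool.Agent.H82.SR

variable {n k : ℕ}

/-- The coloring `c` preserves the subspace `U`: for every `f` in `U` and every color `i` the
function `v ↦ f (head of the edge of color i at v)` is in `U`. -/
def CInv (G : OutRegular n k) (c : Coloring n k) (U : Submodule ℚ (Fin n → ℚ)) : Prop :=
  ∀ f ∈ U, ∀ i, (fun v => f (step G c v i)) ∈ U

theorem mem_supp {T : Finset (Fin n)} {f : Fin n → ℚ} :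
    f ∈ supp T ↔ ∀ v, v ∉ T → f v = 0 := Iff.rfl

theorem mem_activeSet {G : OutRegular n k} {U : Submodule ℚ (Fin n → ℚ)} {v : Fin n} :
    v ∈ activeSet G U ↔ ∃ f ∈ U, ∃ e e', f (G v e) ≠ f (G v e') := by
  classical
  unfold activeSet
  simp

/-- A subspace is determined by its values at a set of at most `finrank` points. -/
theorem exists_points (d : ℕ) : ∀ U : Submodule ℚ (Fin n → ℚ), finrank ℚ U = d →
    ∃ J : Finset (Fin n), J.card ≤ d ∧ ∀ f ∈ U, (∀ v ∈ J, f v = 0) → f = 0 := by
  classical
  induction d using Nat.strong_induction_on with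
  | _ d ih =>
    intro U hU
    by_cases h0 : U = ⊥
    · refine ⟨∅, by simp, ?_⟩
      intro f hf _
      rw [h0, Submodule.mem_bot] at hf
      exact hf
    · obtain ⟨g, hg, hg0⟩ := (Submodule.ne_bot_iff U).1 h0
      obtain ⟨v, hv⟩ : ∃ v, g v ≠ 0 := by
        by_contra hcon
        push Not at hcon
        exact hg0 (funext hcon)
      set U1 : Submodule ℚ (Fin n → ℚ) := U ⊓ LinearMap.ker (LinearMap.proj v : (Fin n → ℚ) →ₗ[ℚ] ℚ)
        with hU1
      have hlt : U1 < U := by
        refine lt_of_le_of_ne inf_le_left ?_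
        intro heq
        rw [← heq] at hg
        exact hv hg.2
      have hfr : finrank ℚ U1 < d := by
        rw [← hU]
        exact Submodule.finrank_lt_finrank_of_lt hlt
      obtain ⟨J, hJ, hJ'⟩ := ih _ hfr U1 rfl
      refine ⟨insert v J, ?_, ?_⟩
      · have := card_insert_le v J
        omega
      · intro f hf hfv
        apply hJ' f
        · exact ⟨hf, hfv v (mem_insert_self v J)⟩
        · intro w hw
          exact hfv w (mem_insert_of_mem hw)

/-- Permutations with a given non-constant pattern. -/
theorem perm_pattern (lab : Fin k → ℚ) (h : ∃ e e', lab e ≠ lab e')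
    (S : Finset (Equiv.Perm (Fin k)))
    (hS : ∀ σ ∈ S, ∀ τ ∈ S, ∀ i, lab (σ.symm i) = lab (τ.symm i)) :
    k * S.card ≤ k.factorial := by
  classical
  let φ : Equiv.Perm (Fin k) ↪ Coloring 1 k :=
    ⟨fun σ _ => σ, fun σ τ h => congrFun h 0⟩
  have h1 := counting (S.map φ) (fun _ => 0) (fun _ e => Encodable.encode (lab e)) ?_ ?_ ?_
  · have h2 : Fintype.card (Coloring 1 k) = k.factorial := by
      unfold Coloring
      rw [Fintype.card_fun, Fintype.card_perm, Fintype.card_fin, Fintype.card_fin, pow_one]
    rw [card_map, h2] at h1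
    exact h1
  · intro c _
    obtain ⟨e, e', he⟩ := h
    exact ⟨e, e', fun h' => he (Encodable.encode_injective h')⟩
  · intro c _ c' _
    rfl
  · intro c hc c' hc' _ i
    rw [mem_map] at hc hc'
    obtain ⟨σ, hσ, rfl⟩ := hc
    obtain ⟨τ, hτ, rfl⟩ := hc'
    exact congrArg Encodable.encode (hS σ hσ τ hτ i)

/-- Colorings which agree outside `T` and have the same patterns at the vertices of `T`. -/
theorem card_pattern_le (G : OutRegular n k) (F : Fin n → Fin n → ℚ) (T : Finset (Fin n)) :
    (∀ v ∈ T, ∃ e e', F v (G v e) ≠ F v (G v e')) →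
    ∀ C : Finset (Coloring n k), (∀ c ∈ C, ∀ c' ∈ C, ∀ v, v ∉ T → c v = c' v) →
      (∀ c ∈ C, ∀ c' ∈ C, ∀ v ∈ T, ∀ i, F v (step G c v i) = F v (step G c' v i)) →
      C.card * k ^ T.card ≤ k.factorial ^ T.card := by
  classical
  induction T using Finset.induction_on with
  | empty =>
    intro _ C hC _
    rw [card_empty, pow_zero, pow_zero, mul_one, card_le_one]
    intro c hc c' hc'
    funext v
    exact hC c hc c' hc' v (notMem_empty v)
  | insert a T ha ih =>
    intro hact C hC1 hC2
    let ψ : Coloring n k → Coloring n k := fun c => Function.update c a 1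
    have h1 : (C.image ψ).card * k ^ T.card ≤ k.factorial ^ T.card := by
      apply ih (fun v hv => hact v (mem_insert_of_mem hv))
      · intro d hd d' hd' v hv
        rw [mem_image] at hd hd'
        obtain ⟨c, hc, rfl⟩ := hd
        obtain ⟨c', hc', rfl⟩ := hd'
        by_cases hva : v = a
        · subst hva
          simp only [ψ, Function.update_self]
        · simp only [ψ, Function.update_of_ne hva]
          apply hC1 c hc c' hc' v
          rw [mem_insert]
          push Not
          exact ⟨hva, hv⟩
      · intro d hd d' hd' v hv i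
        rw [mem_image] at hd hd'
        obtain ⟨c, hc, rfl⟩ := hd
        obtain ⟨c', hc', rfl⟩ := hd'
        have hva : v ≠ a := fun h => ha (h ▸ hv)
        have h3 := hC2 c hc c' hc' v (mem_insert_of_mem hv) i
        unfold step at h3 ⊢
        simp only [ψ, Function.update_of_ne hva]
        exact h3
    have h2 : ∀ d ∈ C.image ψ, k * (C.filter fun c => ψ c = d).card ≤ k.factorial := by
      intro d _
      set Cd := C.filter fun c => ψ c = d with hCd
      have hagree : ∀ c ∈ Cd, ∀ c' ∈ Cd, ∀ v, v ≠ a → c v = c' v := by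
        intro c hc c' hc' v hv
        have h3 := (mem_filter.1 hc).2.trans (mem_filter.1 hc').2.symm
        have h4 := congrFun h3 v
        simp only [ψ, Function.update_of_ne hv] at h4
        exact h4
      have hinj : Set.InjOn (fun c : Coloring n k => c a) (Cd : Set (Coloring n k)) := by
        intro c hc c' hc' hcc
        funext v
        by_cases hva : v = a
        · rw [hva]
          exact hcc
        · exact hagree c (mem_coe.1 hc) c' (mem_coe.1 hc') v hva
      rw [← card_image_of_injOn hinj]
      apply perm_pattern (fun e => F a (G a e)) (hact a (mem_insert_self a T))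
      intro σ hσ τ hτ i
      rw [mem_image] at hσ hτ
      obtain ⟨c, hc, rfl⟩ := hσ
      obtain ⟨c', hc', rfl⟩ := hτ
      exact hC2 c (mem_filter.1 hc).1 c' (mem_filter.1 hc').1 a (mem_insert_self a T) i
    have h3 : k * C.card ≤ k.factorial * (C.image ψ).card := by
      rw [card_eq_sum_card_image ψ C, mul_sum]
      calc ∑ d ∈ C.image ψ, k * (C.filter fun c => ψ c = d).card
          ≤ ∑ d ∈ C.image ψ, k.factorial := sum_le_sum h2
        _ = k.factorial * (C.image ψ).card := by
          rw [sum_const, smul_eq_mul, mul_comm]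
    rw [card_insert_of_notMem ha, pow_succ, pow_succ]
    calc C.card * (k ^ T.card * k) = (k * C.card) * k ^ T.card := by ring
      _ ≤ (k.factorial * (C.image ψ).card) * k ^ T.card := Nat.mul_le_mul_right _ h3
      _ = k.factorial * ((C.image ψ).card * k ^ T.card) := by ring
      _ ≤ k.factorial * k.factorial ^ T.card := Nat.mul_le_mul_left _ h1
      _ = k.factorial ^ T.card * k.factorial := mul_comm _ _

/-- The same for colorings which agree outside `D ∪ T`. -/
theorem card_pattern_le' (G : OutRegular n k) (F : Fin n → Fin n → ℚ) (D : Finset (Fin n))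
    (hact : ∀ v ∈ D, ∃ e e', F v (G v e) ≠ F v (G v e')) (T : Finset (Fin n)) :
    ∀ C : Finset (Coloring n k), (∀ c ∈ C, ∀ c' ∈ C, ∀ v, v ∉ D → v ∉ T → c v = c' v) →
      (∀ c ∈ C, ∀ c' ∈ C, (∀ v, v ∉ D → c v = c' v) →
        ∀ v ∈ D, ∀ i, F v (step G c v i) = F v (step G c' v i)) →
      C.card * k ^ D.card ≤ k.factorial ^ (D.card + T.card) := by
  classical
  induction T using Finset.induction_on with
  | empty =>
    intro C hC1 hC2
    rw [card_empty, add_zero]
    apply card_pattern_le G F D hact C
    · intro c hc c' hc' v hv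
      exact hC1 c hc c' hc' v hv (notMem_empty v)
    · intro c hc c' hc'
      exact hC2 c hc c' hc' fun v hv => hC1 c hc c' hc' v hv (notMem_empty v)
  | insert a T ha ih =>
    intro C hC1 hC2
    have h1 : ∀ σ : Equiv.Perm (Fin k), (C.filter fun c => c a = σ).card * k ^ D.card ≤
        k.factorial ^ (D.card + T.card) := by
      intro σ
      apply ih
      · intro c hc c' hc' v hv hvT
        rw [mem_filter] at hc hc'
        by_cases hva : v = a
        · rw [hva, hc.2, hc'.2]
        · apply hC1 c hc.1 c' hc'.1 v hv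
          rw [mem_insert]
          push Not
          exact ⟨hva, hvT⟩
      · intro c hc c' hc'
        rw [mem_filter] at hc hc'
        exact hC2 c hc.1 c' hc'.1
    rw [card_eq_sum_card_fiberwise (f := fun c : Coloring n k => c a) (t := univ)
      (fun c _ => mem_univ _), sum_mul, card_insert_of_notMem ha, ← add_assoc, pow_succ]
    calc ∑ σ : Equiv.Perm (Fin k), (C.filter fun c => c a = σ).card * k ^ D.card
        ≤ ∑ σ : Equiv.Perm (Fin k), k.factorial ^ (D.card + T.card) :=
          sum_le_sum fun σ _ => h1 σ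
      _ = k.factorial ^ (D.card + T.card) * k.factorial := by
          rw [sum_const, smul_eq_mul, card_univ, Fintype.card_perm, Fintype.card_fin, mul_comm]

open Classical in
/-- The number of the colorings which preserve `U`. -/
theorem card_inv_le (hk : 1 ≤ k) (G : OutRegular n k) (U : Submodule ℚ (Fin n → ℚ)) :
    ((univ : Finset (Coloring n k)).filter fun c => CInv G c U).card *
      k ^ ((activeSet G U).card -
        finrank ℚ (U ⊓ supp (activeSet G U) : Submodule ℚ (Fin n → ℚ))) ≤
      k.factorial ^ n := by
  obtain ⟨J, hJ, hJ'⟩ := exists_points _ (U ⊓ supp (activeSet G U)) rfl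
  set Act := activeSet G U with hAct
  set D := Act \ J with hD
  have hch : ∀ v : Fin n, ∃ f : Fin n → ℚ, f ∈ U ∧ (v ∈ D → ∃ e e', f (G v e) ≠ f (G v e')) := by
    intro v
    by_cases hv : v ∈ D
    · rw [hD, mem_sdiff, hAct] at hv
      obtain ⟨f, hf, h⟩ := mem_activeSet.1 hv.1
      exact ⟨f, hf, fun _ => h⟩
    · exact ⟨0, U.zero_mem, fun h => absurd h hv⟩
  choose F hFU hF using hch
  have key : ∀ c, CInv G c U → ∀ c', CInv G c' U → (∀ v, v ∉ D → c v = c' v) →
      ∀ f ∈ U, ∀ v i, f (step G c v i) = f (step G c' v i) := by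
    intro c hc c' hc' hcc f hf v i
    have h1 : (fun v => f (step G c v i)) - (fun v => f (step G c' v i)) = 0 := by
      apply hJ'
      · refine ⟨U.sub_mem (hc f hf i) (hc' f hf i), ?_⟩
        intro v hv
        have h2 : ∀ e e', f (G v e) = f (G v e') := by
          intro e e'
          by_contra hcon
          exact hv (mem_activeSet.2 ⟨f, hf, e, e', hcon⟩)
        rw [Pi.sub_apply]
        unfold step
        rw [h2 ((c v).symm i) ((c' v).symm i), sub_self]
      · intro v hv
        have h2 : v ∉ D := fun h => (mem_sdiff.1 h).2 hv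
        rw [Pi.sub_apply]
        unfold step
        rw [hcc v h2, sub_self]
    have h2 := congrFun h1 v
    rw [Pi.sub_apply, Pi.zero_apply, sub_eq_zero] at h2
    exact h2
  have h1 := card_pattern_le' G F D (fun v hv => hF v hv) (univ \ D)
    (univ.filter fun c => CInv G c U)
    (fun c _ c' _ v hv hv' => absurd (mem_sdiff.2 ⟨mem_univ v, hv⟩) hv')
    (fun c hc c' hc' hcc v _ i => key c (mem_filter.1 hc).2 c' (mem_filter.1 hc').2 hcc
      (F v) (hFU v) v i)
  have h2 : D.card + (univ \ D).card = n := by
    rw [card_sdiff_of_subset (subset_univ D), card_univ, Fintype.card_fin]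
    have := card_le_univ D
    rw [Fintype.card_fin] at this
    omega
  rw [h2] at h1
  refine le_trans (Nat.mul_le_mul_left _ ?_) h1
  apply Nat.pow_le_pow_right (by omega)
  have h3 : Act.card - J.card ≤ D.card := by
    rw [hD]
    exact le_card_sdiff J Act
  omega

/-- Independent coordinates inside `A` of a subspace `M`. -/
theorem exists_free_points (A : Finset (Fin n)) (d : ℕ) :
    ∀ M : Submodule ℚ (Fin n → ℚ), finrank ℚ M = d →
    ∃ D : Finset (Fin n), D ⊆ A ∧
      finrank ℚ M - finrank ℚ (M ⊓ supp Aᶜ : Submodule ℚ (Fin n → ℚ)) ≤ D.card ∧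
      ∀ t : Fin n → ℚ, ∃ a ∈ M, ∀ v ∈ D, a v = t v := by
  classical
  induction d using Nat.strong_induction_on with
  | _ d ih =>
    intro M hM
    by_cases h0 : M ≤ supp Aᶜ
    · refine ⟨∅, empty_subset A, ?_, ?_⟩
      · rw [inf_eq_left.2 h0, Nat.sub_self]
        exact Nat.zero_le _
      · intro t
        exact ⟨0, M.zero_mem, fun v hv => absurd hv (notMem_empty v)⟩
    · obtain ⟨g, hg, v, hvA, hv⟩ : ∃ g ∈ M, ∃ v ∈ A, g v ≠ 0 := by
        by_contra hcon
        push Not at hcon
        apply h0
        intro g hg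
        rw [mem_supp]
        intro v hv
        rw [mem_compl, not_not] at hv
        exact hcon g hg v hv
      set e : (Fin n → ℚ) →ₗ[ℚ] ℚ := LinearMap.proj v with he
      set M1 : Submodule ℚ (Fin n → ℚ) := M ⊓ LinearMap.ker e with hM1
      have hlt : M1 < M := by
        refine lt_of_le_of_ne inf_le_left ?_
        intro heq
        rw [← heq] at hg
        exact hv hg.2
      have hfr : finrank ℚ M1 < d := by
        rw [← hM]
        exact Submodule.finrank_lt_finrank_of_lt hlt
      have hle : d ≤ finrank ℚ M1 + 1 := by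
        have h1 := LinearMap.finrank_range_add_finrank_ker (e.domRestrict M)
        have h2 : finrank ℚ (LinearMap.range (e.domRestrict M)) ≤ 1 := by
          refine le_trans (Submodule.finrank_le _) ?_
          rw [finrank_self]
        have h3 : finrank ℚ (LinearMap.ker (e.domRestrict M)) ≤ finrank ℚ M1 := by
          have h4 : (LinearMap.ker (e.domRestrict M)).map M.subtype ≤ M1 := by
            rintro x ⟨y, hy, rfl⟩
            exact ⟨y.2, hy⟩
          have h5 := Submodule.finrank_mono h4
          rw [Submodule.finrank_map_subtype_eq] at h5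
          exact h5
        omega
      obtain ⟨D, hDA, hD, hD'⟩ := ih _ hfr M1 rfl
      have hvD : v ∉ D := by
        intro hvD
        obtain ⟨a, ha, ha'⟩ := hD' (fun _ => 1)
        have h1 := ha' v hvD
        have h2 : a v = 0 := ha.2
        rw [h2] at h1
        exact zero_ne_one h1
      have hinf : M1 ⊓ supp Aᶜ = M ⊓ supp Aᶜ := by
        apply le_antisymm
        · exact inf_le_inf_right _ inf_le_left
        · rintro x ⟨hx, hx'⟩
          refine ⟨⟨hx, ?_⟩, hx'⟩
          apply hx' v
          rw [mem_compl, not_not]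
          exact hvA
      refine ⟨insert v D, insert_subset hvA hDA, ?_, ?_⟩
      · rw [hinf] at hD
        rw [card_insert_of_notMem hvD]
        omega
      · intro t
        obtain ⟨a, ha, ha'⟩ := hD' (t - (t v / g v) • g)
        refine ⟨(t v / g v) • g + a, M.add_mem (M.smul_mem _ hg) ha.1, ?_⟩
        intro w hw
        rcases mem_insert.1 hw with rfl | hw
        · have h2 : a w = 0 := ha.2
          rw [Pi.add_apply, h2, Pi.smul_apply, smul_eq_mul, div_mul_cancel₀ _ hv, add_zero]
        · rw [Pi.add_apply, ha' w hw, Pi.sub_apply, add_sub_cancel]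

open Classical in
/-- The colorings whose letters move `U` into the annihilator of `M`. -/
noncomputable def orth2 (G : OutRegular n k) (U M : Submodule ℚ (Fin n → ℚ)) :
    Finset (Coloring n k) :=
  univ.filter fun c => ∀ a ∈ M, ∀ f ∈ U, ∀ i, ∑ v, a v * f (step G c v i) = 0

/-- The number of the colorings whose letters move `U` into the annihilator of `M`. -/
theorem card_orth2_le (hk : 1 ≤ k) (G : OutRegular n k) (U M : Submodule ℚ (Fin n → ℚ)) :
    (orth2 G U M).card *
      k ^ (finrank ℚ M - finrank ℚ (M ⊓ supp (activeSet G U)ᶜ : Submodule ℚ (Fin n → ℚ))) ≤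
      k.factorial ^ n := by
  classical
  obtain ⟨D, hDA, hD, hD'⟩ := exists_free_points (activeSet G U) _ M rfl
  have hch : ∀ v : Fin n, ∃ f : Fin n → ℚ, f ∈ U ∧ (v ∈ D → ∃ e e', f (G v e) ≠ f (G v e')) := by
    intro v
    by_cases hv : v ∈ D
    · obtain ⟨f, hf, h⟩ := mem_activeSet.1 (hDA hv)
      exact ⟨f, hf, fun _ => h⟩
    · exact ⟨0, U.zero_mem, fun h => absurd h hv⟩
  choose F hFU hF using hch
  have key : ∀ c ∈ orth2 G U M, ∀ c' ∈ orth2 G U M, (∀ v, v ∉ D → c v = c' v) →
      ∀ f ∈ U, ∀ v ∈ D, ∀ i, f (step G c v i) = f (step G c' v i) := by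
    intro c hc c' hc' hcc f hf v hv i
    unfold orth2 at hc hc'
    obtain ⟨a, ha, ha'⟩ := hD' (fun w => if w = v then 1 else 0)
    have h1 := (mem_filter.1 hc).2 a ha f hf i
    have h2 := (mem_filter.1 hc').2 a ha f hf i
    have h3 : ∑ w, a w * (f (step G c w i) - f (step G c' w i)) = 0 := by
      have h4 : ∀ w, a w * (f (step G c w i) - f (step G c' w i)) =
          a w * f (step G c w i) - a w * f (step G c' w i) := fun w => mul_sub _ _ _
      rw [sum_congr rfl fun w _ => h4 w, sum_sub_distrib, h1, h2, sub_self]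
    rw [sum_eq_single v] at h3
    · rw [ha' v hv, if_pos rfl, one_mul] at h3
      exact sub_eq_zero.1 h3
    · intro w _ hwv
      by_cases hw : w ∈ D
      · rw [ha' w hw, if_neg hwv, zero_mul]
      · unfold step
        rw [hcc w hw, sub_self, mul_zero]
    · intro h
      exact absurd (mem_univ v) h
  have h1 := card_pattern_le' G F D (fun v hv => hF v hv) (univ \ D) (orth2 G U M)
    (fun c _ c' _ v hv hv' => absurd (mem_sdiff.2 ⟨mem_univ v, hv⟩) hv')
    (fun c hc c' hc' hcc v hv i => key c hc c' hc' hcc (F v) (hFU v) v hv i)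
  have h2 : D.card + (univ \ D).card = n := by
    rw [card_sdiff_of_subset (subset_univ D), card_univ, Fintype.card_fin]
    have := card_le_univ D
    rw [Fintype.card_fin] at this
    omega
  rw [h2] at h1
  refine le_trans (Nat.mul_le_mul_left _ ?_) h1
  exact Nat.pow_le_pow_right (by omega) hD

end Pool.Agent.H98.SPC
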