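import Pool.Agent.H98.SPC.CountBad

/-!
# Irreducible adjacency polynomials
-/

namespace Pool.Agent.H98.SPC

open Finset Polynomial
open Pool.Agent.H10.Sync

variable {n k : ℕ} {G : OutRegular n k}

/-- Let the characteristic polynomial of the adjacency operator be `(X - k) q` with `q` irreducible
over the rational numbers. Then every nonzero invariant subspace which does not contain the
constant function `1` is the kernel of `q` of the adjacency operator. -/
theorem eq_ker_of_irreducible (hG : Primitive G) {q : ℚ[X]} (hq : Irreducible q)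
    (hchar : (adj G).charpoly = (X - C (k : ℚ)) * q) {U : Submodule ℚ (Fin n → ℚ)} (hU : U ≠ ⊥)
    (h1 : ∀ f ∈ U, adj G f ∈ U) (h2 : (fun _ => (1 : ℚ)) ∉ U) :
    U = LinearMap.ker (aeval (adj G) q) := by
  classical
  have hne := nonempty_of_primitive hG
  -- polynomials in the operator preserve `U`
  have hpoly : ∀ P : ℚ[X], ∀ f ∈ U, aeval (adj G) P f ∈ U := by
    intro P
    induction P using Polynomial.induction_on' with
    | add p q hp hq =>
      intro f hf
      rw [map_add, LinearMap.add_apply]
      exact U.add_mem (hp f hf) (hq f hf)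
    | monomial m a =>
      intro f hf
      rw [aeval_monomial, Module.End.mul_apply, Module.algebraMap_end_apply]
      refine U.smul_mem _ ?_
      have h3 : ∀ m, ((adj G) ^ m) f ∈ U := by
        intro m
        induction m with
        | zero => exact hf
        | succ m ih =>
          rw [pow_succ', Module.End.mul_apply]
          exact h1 _ ih
      exact h3 m
  have hconst : ∀ f ∈ U, (∀ u v, f u = f v) → f = 0 := by
    intro f hf hc
    obtain ⟨v0⟩ := hne
    have h6 : f v0 = 0 := by
      by_contra hne0
      apply h2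
      have h7 : (fun _ => (1 : ℚ)) = (f v0)⁻¹ • f := by
        funext v
        simp only [Pi.smul_apply, smul_eq_mul]
        rw [hc v v0, inv_mul_cancel₀ hne0]
      rw [h7]
      exact U.smul_mem _ hf
    funext v
    rw [hc v v0, h6]
    rfl
  have hle : U ≤ LinearMap.ker (aeval (adj G) q) := by
    intro f hf
    rw [LinearMap.mem_ker]
    apply hconst _ (hpoly q f hf)
    have h3 : aeval (adj G) (adj G).charpoly = 0 := LinearMap.aeval_self_charpoly _
    rw [hchar, map_mul] at h3
    have h4 := LinearMap.congr_fun h3 f
    rw [Module.End.mul_apply, map_sub, aeval_X, aeval_C, LinearMap.sub_apply,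
      Module.algebraMap_end_apply, LinearMap.zero_apply] at h4
    exact const_of_adj_eq hG fun v => by
      have := congrFun (sub_eq_zero.1 h4) v
      rw [this]
      rfl
  -- the dimension of `U`
  obtain ⟨f, hf, hf0⟩ := (Submodule.ne_bot_iff U).1 hU
  have hqf : aeval (adj G) q f = 0 := hle hf
  have hq0 : q ≠ 0 := hq.ne_zero
  let E : Polynomial.degreeLT ℚ q.natDegree →ₗ[ℚ] U :=
    { toFun := fun P => ⟨aeval (adj G) (P : ℚ[X]) f, hpoly _ f hf⟩
      map_add' := by
        intro P Q
        apply Subtype.ext
        simp
      map_smul' := by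
        intro a P
        apply Subtype.ext
        simp }
  have hE : Function.Injective E := by
    rw [← LinearMap.ker_eq_bot, LinearMap.ker_eq_bot']
    rintro ⟨P, hP⟩ hPE
    have h3 : aeval (adj G) P f = 0 := congrArg Subtype.val hPE
    apply Subtype.ext
    change P = 0
    by_contra hP0
    rw [Polynomial.mem_degreeLT] at hP
    have h4 : ¬ q ∣ P := by
      intro hdvd
      have h5 := Polynomial.degree_le_of_dvd hdvd hP0
      rw [Polynomial.degree_eq_natDegree hq0] at h5
      exact absurd (lt_of_le_of_lt h5 hP) (lt_irrefl _)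
    have h5 : IsCoprime q P := (hq.coprime_iff_not_dvd).2 h4
    obtain ⟨a, b, hab⟩ := h5
    apply hf0
    have h6 : aeval (adj G) (a * q + b * P) f = f := by
      rw [hab, map_one]
      rfl
    rw [← h6, map_add, map_mul, map_mul, LinearMap.add_apply, Module.End.mul_apply,
      Module.End.mul_apply, hqf, h3, map_zero, map_zero, add_zero]
  have hdim1 : q.natDegree ≤ Module.finrank ℚ U := by
    have h3 := LinearMap.finrank_le_finrank_of_injective hE
    have h4 : Module.finrank ℚ (Polynomial.degreeLT ℚ q.natDegree) = q.natDegree := by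
      rw [(Polynomial.degreeLTEquiv ℚ q.natDegree).finrank_eq]
      simp
    rw [h4] at h3
    exact h3
  have hdeg : q.natDegree + 1 = n := by
    have h3 := LinearMap.charpoly_natDegree (adj G)
    rw [hchar, Polynomial.natDegree_mul (X_sub_C_ne_zero _) hq0, natDegree_X_sub_C] at h3
    simp at h3
    omega
  -- the constant function is not in the kernel
  have h1ker : (fun _ => (1 : ℚ)) ∉ LinearMap.ker (aeval (adj G) q) := by
    intro hmem
    rw [LinearMap.mem_ker] at hmem
    have h3 : Module.End.HasEigenvector (adj G) (k : ℚ) (fun _ => (1 : ℚ)) := by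
      rw [Module.End.hasEigenvector_iff]
      refine ⟨?_, ?_⟩
      · rw [Module.End.mem_eigenspace_iff]
        funext v
        rw [adj_apply]
        simp
      · intro h4
        obtain ⟨v0⟩ := hne
        exact one_ne_zero (congrFun h4 v0)
    rw [Module.End.aeval_apply_of_hasEigenvector h3] at hmem
    have h4 : q.eval (k : ℚ) = 0 := by
      obtain ⟨v0⟩ := hne
      have := congrFun hmem v0
      simpa using this
    have h5 : (X - C (k : ℚ)) ∣ q := Polynomial.dvd_iff_isRoot.2 h4
    obtain ⟨s, hs⟩ := h5
    have h6 : IsUnit s := by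
      rcases hq.isUnit_or_isUnit hs with h7 | h7
      · exact absurd h7 (Polynomial.not_isUnit_X_sub_C _)
      · exact h7
    obtain ⟨a, ha0, ha⟩ := Polynomial.isUnit_iff.1 h6
    apply hf0
    apply hconst f hf
    rw [hs, map_mul, ← ha, aeval_C, Module.End.mul_apply, Module.algebraMap_end_apply,
      map_smul] at hqf
    have h7 : aeval (adj G) (X - C (k : ℚ)) f = 0 := by
      rcases smul_eq_zero.1 hqf with h8 | h8
      · exact absurd h8 ha0.ne_zero
      · exact h8
    rw [map_sub, aeval_X, aeval_C, LinearMap.sub_apply, Module.algebraMap_end_apply] at h7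
    exact const_of_adj_eq hG fun v => by
      have := congrFun (sub_eq_zero.1 h7) v
      rw [this]
      rfl
  apply Submodule.eq_of_le_of_finrank_le hle
  have h3 : Module.finrank ℚ (LinearMap.ker (aeval (adj G) q)) <
      Module.finrank ℚ (Fin n → ℚ) := by
    apply Submodule.finrank_lt
    intro htop
    apply h1ker
    rw [htop]
    exact Submodule.mem_top
  have h4 : Module.finrank ℚ (Fin n → ℚ) = n := by simp
  omega

theorem common_of_irreducible (hG : Primitive G) {q : ℚ[X]} (hq : Irreducible q)
    (hchar : (adj G).charpoly = (X - C (k : ℚ)) * q) : ∃ h : Fin n → ℚ, h ≠ 0 ∧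
      ∀ U : Submodule ℚ (Fin n → ℚ), U ≠ ⊥ → Admissible G U → h ∈ U := by
  by_cases hker : LinearMap.ker (aeval (adj G) q) = ⊥
  · have hne := nonempty_of_primitive hG
    have h1 : (fun _ => (1 : ℚ) : Fin n → ℚ) ≠ 0 := by
      intro h
      obtain ⟨v⟩ := hne
      exact one_ne_zero (congrFun h v)
    refine ⟨_, h1, fun U hU hadm => ?_⟩
    have h2 := eq_ker_of_irreducible hG hq hchar hU hadm.1 hadm.2.1
    rw [hker] at h2
    exact absurd h2 hU
  · obtain ⟨h, hh, hh0⟩ := (Submodule.ne_bot_iff _).1 hker
    refine ⟨h, hh0, fun U hU hadm => ?_⟩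
    rw [eq_ker_of_irreducible hG hq hchar hU hadm.1 hadm.2.1]
    exact hh

end Pool.Agent.H98.SPC
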