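import Pool.Agent.H98.SPC.ModDefs

/-!
# Double counting of the pairs of a function modulo a prime and a coloring
-/

set_option autoImplicit false

namespace Pool.Agent.H98.SPC

open Finset Module
open Pool.Agent.H10.Sync

variable {n k : ℕ}

/-- `timeSpace` is closed under affine maps. -/
private theorem affine_mem {p : ℕ} (G : OutRegular n k) {h : Fin n → ZMod p}
    (hh : h ∈ timeSpace G p) (a b : ZMod p) : (fun v => a * h v + b) ∈ timeSpace G p := by
  obtain ⟨t, ht⟩ := hh
  refine ⟨a * t, fun v => ?_⟩
  simp only [sum_add_distrib, ← mul_sum, ht v, sum_const, card_univ, Fintype.card_fin,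
    nsmul_eq_mul]
  ring

/-- `ModFits` is invariant under affine maps. -/
private theorem affine_fits {p : ℕ} (G : OutRegular n k) (m : Fin n → ℕ) {h : Fin n → ZMod p}
    {c : Coloring n k} (hh : ModFits G m h c) (a b : ZMod p) :
    ModFits G m (fun v => a * h v + b) c := by
  intro w
  have h1 : ∀ x : Fin n → ZMod p, ∑ v, (m v : ZMod p) * (a * x v + b) =
      a * ∑ v, (m v : ZMod p) * x v + b * ∑ v, (m v : ZMod p) := by
    intro x
    rw [mul_sum, mul_sum, ← sum_add_distrib]
    refine sum_congr rfl fun v _ => ?_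
    ring
  change ∑ v, (m v : ZMod p) * (a * h (w.foldl (step G c) v) + b) =
    ∑ v, (m v : ZMod p) * (a * h v + b)
  rw [h1 fun v => h (w.foldl (step G c) v), h1 h, hh w]

/-- Every coloring of `B` is in at least `p (p - 1)` pairs. -/
theorem card_mul_le_modPairs {p : ℕ} (hp : p.Prime) (G : OutRegular n k) (m : Fin n → ℕ)
    (B : Finset (Coloring n k))
    (hB : ∀ c ∈ B, ∃ h ∈ timeSpace G p, (∃ u v, h u ≠ h v) ∧ ModFits G m h c) :
    B.card * (p * (p - 1)) ≤ modPairs G m p := by
  have := Fact.mk hp
  choose h hh hne hfit using hB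
  let f : B × ((ZMod p)ˣ × ZMod p) → {x : (Fin n → ZMod p) × Coloring n k //
      x.1 ∈ timeSpace G p ∧ (∃ u v, x.1 u ≠ x.1 v) ∧ ModFits G m x.1 x.2} := fun y =>
    ⟨(fun v => (y.2.1 : ZMod p) * h y.1 y.1.2 v + y.2.2, y.1), affine_mem G (hh _ _) _ _, by
      obtain ⟨u, v, huv⟩ := hne y.1 y.1.2
      refine ⟨u, v, fun h1 => huv ?_⟩
      exact (Units.mul_right_inj y.2.1).1 (add_right_cancel h1), affine_fits G m (hfit _ _) _ _⟩
  have hf : Function.Injective f := by
    rintro ⟨⟨c, hc⟩, a, b⟩ ⟨⟨c', hc'⟩, a', b'⟩ hy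
    have h0 := congrArg Subtype.val hy
    have hcc : c = c' := congrArg Prod.snd h0
    subst hcc
    have h1 : ∀ v, (a : ZMod p) * h c hc v + b = (a' : ZMod p) * h c hc v + b' := fun v =>
      congrFun (congrArg Prod.fst h0) v
    obtain ⟨u, v, huv⟩ := hne c hc
    have h2 : ((a : ZMod p) - a') * (h c hc u - h c hc v) = 0 := by
      linear_combination h1 u - h1 v
    have h3 : (a : ZMod p) = a' := by
      rcases mul_eq_zero.1 h2 with h3 | h3
      · exact sub_eq_zero.1 h3
      · exact absurd (sub_eq_zero.1 h3) huv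
    have h4 : a = a' := Units.ext h3
    subst h4
    have h5 : b = b' := add_left_cancel (h1 u)
    subst h5
    rfl
  have h1 := Nat.card_le_card_of_injective f hf
  rw [Nat.card_prod, Nat.card_prod, Nat.card_eq_fintype_card, Nat.card_eq_fintype_card,
    Nat.card_eq_fintype_card, ZMod.card_units, ZMod.card, Fintype.card_coe] at h1
  calc B.card * (p * (p - 1)) = B.card * ((p - 1) * p) := by rw [mul_comm p]
    _ ≤ modPairs G m p := h1

/-- The number of the functions of `timeSpace` which are not constant. -/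
private theorem card_nonconst {p : ℕ} [Fact p.Prime] (hne : Nonempty (Fin n)) (G : OutRegular n k) :
    (open Classical in ((univ : Finset (Fin n → ZMod p)).filter fun h =>
      h ∈ timeSpace G p ∧ ∃ u v, h u ≠ h v).card) + p =
      p ^ (finrank (ZMod p) (timeSpace G p)) := by
  classical
  have h1 : ((univ : Finset (Fin n → ZMod p)).filter fun h => h ∈ timeSpace G p).card =
      p ^ (finrank (ZMod p) (timeSpace G p)) := by
    have h2 := Module.card_eq_pow_finrank (K := ZMod p) (V := timeSpace G p)
    rw [ZMod.card] at h2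
    rw [← h2, Fintype.card_subtype]
  have h2 : ((univ : Finset (ZMod p)).image fun b => (fun _ : Fin n => b)).card = p := by
    rw [card_image_of_injective, card_univ, ZMod.card]
    intro b b' hb
    exact congrFun hb hne.some
  rw [← h1]
  refine (congrArg (_ + ·) h2.symm).trans ?_
  rw [← card_union_of_disjoint]
  · congr 1
    ext h
    simp only [mem_union, mem_filter, mem_univ, true_and, mem_image]
    constructor
    · rintro (h3 | ⟨b, rfl⟩)
      · exact h3.1
      · refine ⟨0, fun v => ?_⟩
        simp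
    · intro h3
      by_cases h4 : ∃ u v, h u ≠ h v
      · exact Or.inl ⟨h3, h4⟩
      · push Not at h4
        exact Or.inr ⟨h hne.some, funext fun v => h4 _ _⟩
  · rw [Finset.disjoint_left]
    rintro h h3 h4
    obtain ⟨-, -, u, v, huv⟩ := mem_filter.1 h3
    obtain ⟨b, -, rfl⟩ := mem_image.1 h4
    exact huv rfl

open Classical in
/-- A bound for the number of the pairs. -/
theorem modPairs_le {p : ℕ} (hp : p.Prime) (hne : Nonempty (Fin n)) (G : OutRegular n k)
    (m : Fin n → ℕ) {β : ℝ}
    (hβ : ∀ h ∈ timeSpace G p, (∃ u v, h u ≠ h v) →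
      (((univ : Finset (Coloring n k)).filter fun c => ModFits G m h c).card : ℝ) ≤
        β * (k.factorial : ℝ) ^ n) :
    (modPairs G m p : ℝ) ≤
      β * ((p : ℝ) ^ (finrank (ZMod p) (timeSpace G p)) - p) * (k.factorial : ℝ) ^ n := by
  have := Fact.mk hp
  set S : Finset (Fin n → ZMod p) := univ.filter fun h =>
      h ∈ timeSpace G p ∧ ∃ u v, h u ≠ h v with hS
  have h1 : modPairs G m p =
      ∑ h ∈ S, ((univ : Finset (Coloring n k)).filter fun c => ModFits G m h c).card := by
    rw [modPairs, Nat.card_eq_fintype_card, Fintype.card_subtype, card_filter,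
      Fintype.sum_prod_type, hS, sum_filter]
    refine sum_congr rfl fun h _ => ?_
    split_ifs with h2
    · rw [card_filter]
      refine sum_congr rfl fun c _ => ?_
      simp only [h2.1, h2.2, true_and]
    · refine sum_eq_zero fun c _ => ?_
      rw [if_neg]
      rintro ⟨h3, h4, -⟩
      exact h2 ⟨h3, h4⟩
  have h2 : (S.card : ℝ) = (p : ℝ) ^ (finrank (ZMod p) (timeSpace G p)) - p := by
    have h3 := card_nonconst (p := p) hne G
    rw [eq_sub_iff_add_eq]
    exact_mod_cast h3
  rw [h1, Nat.cast_sum]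
  calc ∑ h ∈ S, ((((univ : Finset (Coloring n k)).filter fun c => ModFits G m h c).card : ℕ) : ℝ)
      ≤ ∑ _h ∈ S, β * (k.factorial : ℝ) ^ n := sum_le_sum fun h hh => by
        obtain ⟨-, h3, h4⟩ := mem_filter.1 hh
        exact hβ h h3 h4
    _ = β * ((p : ℝ) ^ (finrank (ZMod p) (timeSpace G p)) - p) * (k.factorial : ℝ) ^ n := by
        rw [sum_const, nsmul_eq_mul, h2]
        ring

end Pool.Agent.H98.SPC
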