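import Pool.Agent.H98.SPC.ModDefs

/-!
# The number of the colorings which fit a function modulo a prime
-/

namespace Pool.Agent.H98.SPC

open Finset Module
open Pool.Agent.H10.Sync

variable {n k : ℕ}

private theorem card_same_pattern {α : Type*} [DecidableEq α] (p : Fin k → α)
    (C : Finset (Equiv.Perm (Fin k)))
    (hC : ∀ σ ∈ C, ∀ τ ∈ C, ∀ i, p (σ.symm i) = p (τ.symm i)) :
    C.card ≤ ∏ x ∈ (univ : Finset (Fin k)).image p,
      ((univ : Finset (Fin k)).filter fun e => p e = x).card.factorial := by
  classical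
  rcases C.eq_empty_or_nonempty with h | ⟨σ₀, h₀⟩
  · rw [h, card_empty]
    exact Nat.zero_le _
  have h1 : C.card ≤ Fintype.card {g : Equiv.Perm (Fin k) // p ∘ g = p} := by
    rw [← Fintype.card_coe C]
    refine Fintype.card_le_of_injective
      (fun σ : C => (⟨σ₀⁻¹ * (σ : Equiv.Perm (Fin k)), ?_⟩ :
        {g : Equiv.Perm (Fin k) // p ∘ g = p})) ?_
    · funext x
      have h2 := hC σ₀ h₀ (σ : Equiv.Perm (Fin k)) σ.2 ((σ : Equiv.Perm (Fin k)) x)
      rw [Equiv.symm_apply_apply] at h2
      exact h2
    · intro σ τ h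
      have h3 : σ₀⁻¹ * (σ : Equiv.Perm (Fin k)) = σ₀⁻¹ * (τ : Equiv.Perm (Fin k)) :=
        congrArg Subtype.val h
      exact Subtype.ext (mul_left_cancel h3)
  rw [DomMulAct.stabilizer_card'] at h1
  refine h1.trans (le_of_eq ?_)
  refine prod_congr rfl fun x _ => ?_
  rw [Fintype.card_subtype]

private theorem card_coloring' (n k : ℕ) : Fintype.card (Coloring n k) = k.factorial ^ n := by
  rw [Fintype.card_pi, prod_const, card_univ, Fintype.card_fin, Fintype.card_perm,
    Fintype.card_fin]

private theorem card_update_image (C : Finset (Coloring n k)) (v : Fin n) :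
    (C.image fun c => Function.update c v 1).card * k.factorial ≤ k.factorial ^ n := by
  classical
  have h1 : ((C.image fun c => Function.update c v 1) ×ˢ
      (univ : Finset (Equiv.Perm (Fin k)))).card ≤ (univ : Finset (Coloring n k)).card := by
    refine card_le_card_of_injOn (fun x => Function.update x.1 v x.2)
      (fun _ _ => mem_coe.2 (mem_univ _)) ?_
    rintro ⟨d, s⟩ hd ⟨d', s'⟩ hd' h
    have hd1 := (mem_product.1 (mem_coe.1 hd)).1
    have hd1' := (mem_product.1 (mem_coe.1 hd')).1
    obtain ⟨c, _, hc⟩ := mem_image.1 hd1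
    obtain ⟨c', _, hc'⟩ := mem_image.1 hd1'
    simp only at hc hc' h
    have e1 : d v = 1 := by rw [← hc, Function.update_self]
    have e2 : d' v = 1 := by rw [← hc', Function.update_self]
    have e3 : s = s' := by
      have h2 := congrFun h v
      rwa [Function.update_self, Function.update_self] at h2
    have e4 : d = d' := by
      funext w
      by_cases hw : w = v
      · rw [hw, e1, e2]
      · have h2 := congrFun h w
        rwa [Function.update_of_ne hw, Function.update_of_ne hw] at h2
    rw [e3, e4]
  rw [card_product, card_univ, card_univ, Fintype.card_perm, Fintype.card_fin,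
    card_coloring'] at h1
  exact h1

open Classical in
theorem card_fits_le {p : ℕ} (hp : p.Prime) (G : OutRegular n k) (m : Fin n → ℕ)
    (h : Fin n → ZMod p) (v : Fin n) (hv : (m v : ZMod p) ≠ 0) :
    (((univ : Finset (Coloring n k)).filter fun c => ModFits G m h c).card : ℝ) ≤
      patternRatio G h v * (k.factorial : ℝ) ^ n := by
  have : Fact p.Prime := ⟨hp⟩
  set C := (univ : Finset (Coloring n k)).filter fun c => ModFits G m h c with hC
  set P : ℕ := ∏ x ∈ (univ : Finset (Fin k)).image fun e => h (G v e),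
    ((univ : Finset (Fin k)).filter fun e => h (G v e) = x).card.factorial with hP
  have hfib : ∀ d ∈ C.image (fun c => Function.update c v 1),
      (C.filter fun c => Function.update c v 1 = d).card ≤ P := by
    intro d _
    set Cd := C.filter fun c => Function.update c v 1 = d with hCd
    have hagree : ∀ c ∈ Cd, ∀ c' ∈ Cd, ∀ w, w ≠ v → c w = c' w := by
      intro c hc c' hc' w hw
      have h3 := (mem_filter.1 hc).2.trans (mem_filter.1 hc').2.symm
      have h4 := congrFun h3 w
      rwa [Function.update_of_ne hw, Function.update_of_ne hw] at h4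
    have hinj : Set.InjOn (fun c : Coloring n k => c v) (Cd : Set (Coloring n k)) := by
      intro c hc c' hc' hcc
      funext w
      by_cases hw : w = v
      · rw [hw]
        exact hcc
      · exact hagree c (mem_coe.1 hc) c' (mem_coe.1 hc') w hw
    rw [← card_image_of_injOn hinj]
    refine card_same_pattern (fun e => h (G v e)) _ ?_
    intro σ hσ τ hτ i
    rw [mem_image] at hσ hτ
    obtain ⟨c, hc, rfl⟩ := hσ
    obtain ⟨c', hc', rfl⟩ := hτ
    have f1 : ModFits G m h c := (mem_filter.1 (mem_filter.1 hc).1).2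
    have f2 : ModFits G m h c' := (mem_filter.1 (mem_filter.1 hc').1).2
    have h3 : ∑ w, (m w : ZMod p) * h (step G c w i) = ∑ w, (m w : ZMod p) * h (step G c' w i) :=
      (f1 [i]).trans (f2 [i]).symm
    rw [← add_sum_erase univ _ (mem_univ v),
      ← add_sum_erase univ (fun w => (m w : ZMod p) * h (step G c' w i)) (mem_univ v)] at h3
    have h4 : ∑ w ∈ univ.erase v, (m w : ZMod p) * h (step G c w i) =
        ∑ w ∈ univ.erase v, (m w : ZMod p) * h (step G c' w i) := by
      refine sum_congr rfl fun w hw => ?_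
      unfold step
      rw [hagree c hc c' hc' w (ne_of_mem_erase hw)]
    rw [h4] at h3
    exact mul_left_cancel₀ hv (add_right_cancel h3)
  have h1 := card_le_mul_card_image C P hfib
  have h2 := card_update_image C v
  have h3 : C.card * k.factorial ≤ P * k.factorial ^ n := by
    calc C.card * k.factorial ≤
          (P * (C.image fun c => Function.update c v 1).card) * k.factorial :=
          Nat.mul_le_mul_right _ h1
      _ = P * ((C.image fun c => Function.update c v 1).card * k.factorial) := mul_assoc _ _ _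
      _ ≤ P * k.factorial ^ n := Nat.mul_le_mul_left _ h2
  have hk : (0 : ℝ) < (k.factorial : ℝ) := by exact_mod_cast Nat.factorial_pos k
  have h4 : (C.card : ℝ) * (k.factorial : ℝ) ≤ (P : ℝ) * (k.factorial : ℝ) ^ n := by
    exact_mod_cast h3
  have h5 : patternRatio G h v = (P : ℝ) / (k.factorial : ℝ) := rfl
  rw [h5, div_mul_eq_mul_div, le_div_iff₀ hk]
  exact h4

private theorem fact_mul_fact_le (a b : ℕ) :
    (a + 1).factorial * (b + 1).factorial ≤ (a + b + 1).factorial := by
  induction b with
  | zero => simp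
  | succ b ih =>
    calc (a + 1).factorial * (b + 1 + 1).factorial
        = (b + 1 + 1) * ((a + 1).factorial * (b + 1).factorial) := by
          rw [Nat.factorial_succ (b + 1)]
          ring
      _ ≤ (a + b + 1 + 1) * (a + b + 1).factorial := Nat.mul_le_mul (by omega) ih
      _ = (a + (b + 1) + 1).factorial := by
          rw [show a + (b + 1) + 1 = (a + b + 1) + 1 by ring, Nat.factorial_succ (a + b + 1)]

theorem patternRatio_le (hk : 1 ≤ k) (G : OutRegular n k) {p : ℕ} (h : Fin n → ZMod p)
    (v : Fin n) (hne : ∃ e e', h (G v e) ≠ h (G v e')) :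
    patternRatio G h v ≤ 1 / (k : ℝ) := by
  classical
  obtain ⟨e, e', hee⟩ := hne
  set f : Fin k → ZMod p := fun e => h (G v e) with hf
  set I := (univ : Finset (Fin k)).image f with hI
  set a : ZMod p → ℕ := fun x => ((univ : Finset (Fin k)).filter fun e => f e = x).card with ha
  have hsum : ∑ x ∈ I, a x = k := by
    have h1 := card_eq_sum_card_image f (univ : Finset (Fin k))
    rw [card_univ, Fintype.card_fin] at h1
    exact h1.symm
  have hmem : f e ∈ I := mem_image_of_mem _ (mem_univ _)
  have hmem' : f e' ∈ I.erase (f e) :=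
    mem_erase.2 ⟨fun h1 => hee h1.symm, mem_image_of_mem _ (mem_univ _)⟩
  have hpos : ∀ e0, 1 ≤ a (f e0) := by
    intro e0
    exact card_pos.2 ⟨e0, mem_filter.2 ⟨mem_univ _, rfl⟩⟩
  have hsplit : a (f e) + ∑ x ∈ I.erase (f e), a x = k := by
    rw [add_sum_erase I a hmem, hsum]
  have hrest : 1 ≤ ∑ x ∈ I.erase (f e), a x :=
    (hpos e').trans (single_le_sum (fun _ _ => Nat.zero_le _) hmem')
  have hprod : ∏ x ∈ I, (a x).factorial ≤ (k - 1).factorial := by
    rw [← mul_prod_erase I (fun x => (a x).factorial) hmem]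
    have h1 : ∏ x ∈ I.erase (f e), (a x).factorial ≤ (∑ x ∈ I.erase (f e), a x).factorial :=
      Nat.le_of_dvd (Nat.factorial_pos _) (Nat.prod_factorial_dvd_factorial_sum _ _)
    refine (Nat.mul_le_mul_left _ h1).trans ?_
    obtain ⟨b, hb⟩ := Nat.exists_eq_add_of_le' (hpos e)
    obtain ⟨c, hc⟩ := Nat.exists_eq_add_of_le' hrest
    rw [hb, hc] at hsplit ⊢
    refine (fact_mul_fact_le b c).trans (le_of_eq ?_)
    congr 1
    omega
  have hkpos : (0 : ℝ) < (k.factorial : ℝ) := by exact_mod_cast Nat.factorial_pos k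
  have hk0 : (0 : ℝ) < (k : ℝ) := by exact_mod_cast (show 0 < k by omega)
  have h5 : patternRatio G h v = ((∏ x ∈ I, (a x).factorial : ℕ) : ℝ) / (k.factorial : ℝ) := by
    unfold patternRatio
    rw [hI, hf, ha]
  rw [h5, div_le_div_iff₀ hkpos hk0, one_mul]
  have h6 : (∏ x ∈ I, (a x).factorial) * k ≤ k.factorial := by
    obtain ⟨q, rfl⟩ := Nat.exists_eq_add_of_le' hk
    rw [Nat.factorial_succ, mul_comm (q + 1)]
    exact Nat.mul_le_mul_right _ hprod
  exact_mod_cast h6

end Pool.Agent.H98.SPC
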