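import Pool.Agent.H98.SPC.ModLocal
import Pool.Agent.H98.SPC.ModPattern
import Pool.Agent.H98.SPC.ModPairs

/-!
# The bound by the functions modulo the primes
-/

namespace Pool.Agent.H98.SPC

open Finset Module
open Pool.Agent.H10.Sync Pool.Agent.H82.SR

variable {n k : ℕ} {G : OutRegular n k}

theorem prime_of_split {m : Fin n → ℕ} {p : ℕ} (hp : p ∈ splitPrimes m) : p.Prime := by
  classical
  unfold splitPrimes at hp
  exact (mem_filter.1 hp).2.1

/-- The union bound over the functions modulo the primes. -/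
theorem ratio_ge_modPairs (hk : 1 ≤ k) (hG : Primitive G) {m : Fin n → ℕ}
    (hm : IsWeight G (fun v => (m v : ℚ))) :
    1 - ∑ p ∈ splitPrimes m, (modPairs G m p : ℝ) / ((p : ℝ) * (p - 1) * (k.factorial : ℝ) ^ n) ≤
      syncRatio G := by
  classical
  have hpos : (0 : ℝ) < (k.factorial : ℝ) ^ n :=
    pow_pos (by exact_mod_cast Nat.factorial_pos k) n
  set B : ℕ → Finset (Coloring n k) := fun p => (univ : Finset (Coloring n k)).filter
    fun c => ∃ h ∈ timeSpace G p, (∃ u v, h u ≠ h v) ∧ ModFits G m h c with hB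
  have h1 : ((univ : Finset (Coloring n k)).filter fun c => ¬ Synchronizing G c) ⊆
      (splitPrimes m).biUnion B := by
    intro c hc
    obtain ⟨p, hp, h⟩ := exists_modFits hk hG hm c (mem_filter.1 hc).2
    rw [mem_biUnion]
    exact ⟨p, hp, mem_filter.2 ⟨mem_univ _, h⟩⟩
  have h2 := (card_le_card h1).trans card_biUnion_le
  have h3 : ∀ p ∈ splitPrimes m, ((B p).card : ℝ) / (k.factorial : ℝ) ^ n ≤
      (modPairs G m p : ℝ) / ((p : ℝ) * (p - 1) * (k.factorial : ℝ) ^ n) := by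
    intro p hp
    have hpp := prime_of_split hp
    have h4 := card_mul_le_modPairs hpp G m (B p) fun c hc => (mem_filter.1 hc).2
    have hp1 : (1 : ℝ) < p := by exact_mod_cast hpp.one_lt
    have hpp0 : (0 : ℝ) < (p : ℝ) * (p - 1) := mul_pos (by linarith) (by linarith)
    have h5 : ((B p).card : ℝ) * ((p : ℝ) * (p - 1)) ≤ (modPairs G m p : ℝ) := by
      have h6 : (((B p).card * (p * (p - 1)) : ℕ) : ℝ) ≤ (modPairs G m p : ℝ) := by
        exact_mod_cast h4
      rw [Nat.cast_mul, Nat.cast_mul, Nat.cast_sub hpp.one_lt.le, Nat.cast_one] at h6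
      exact h6
    rw [div_le_div_iff₀ hpos (mul_pos hpp0 hpos)]
    calc ((B p).card : ℝ) * ((p : ℝ) * (p - 1) * (k.factorial : ℝ) ^ n) =
        ((B p).card : ℝ) * ((p : ℝ) * (p - 1)) * (k.factorial : ℝ) ^ n := by ring
      _ ≤ _ := mul_le_mul_of_nonneg_right h5 hpos.le
  rw [syncRatio_eq, card_coloring]
  have h6 : (((univ : Finset (Coloring n k)).filter fun c => ¬ Synchronizing G c).card : ℝ) /
      (k.factorial : ℝ) ^ n ≤
      ∑ p ∈ splitPrimes m, (modPairs G m p : ℝ) / ((p : ℝ) * (p - 1) * (k.factorial : ℝ) ^ n) := by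
    calc _ ≤ (∑ p ∈ splitPrimes m, ((B p).card : ℝ)) / (k.factorial : ℝ) ^ n := by
          apply div_le_div_of_nonneg_right _ hpos.le
          exact_mod_cast h2
      _ = ∑ p ∈ splitPrimes m, ((B p).card : ℝ) / (k.factorial : ℝ) ^ n := by
          rw [sum_div]
      _ ≤ _ := sum_le_sum h3
  linarith

/-- The dimension of `timeSpace` is at least one. -/
theorem one_le_finrank (hne : Nonempty (Fin n)) {p : ℕ} (hp : p.Prime) :
    1 ≤ finrank (ZMod p) (timeSpace G p) := by
  haveI : Fact p.Prime := ⟨hp⟩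
  obtain ⟨v0⟩ := hne
  have h1 : (fun _ => 1 : Fin n → ZMod p) ∈ timeSpace G p := ⟨0, fun v => by simp⟩
  have h2 : Nontrivial (timeSpace G p) := by
    refine ⟨⟨⟨_, h1⟩, 0, ?_⟩⟩
    intro h
    have h3 := congrArg (fun x : timeSpace G p => (x : Fin n → ZMod p) v0) h
    exact one_ne_zero h3
  exact finrank_pos

/-- The bound in terms of the dimensions of the spaces `timeSpace G p`. -/
theorem ratio_ge_beta (hk : 1 ≤ k) (hG : Primitive G) {m : Fin n → ℕ}
    (hm : IsWeight G (fun v => (m v : ℚ))) (β : ℕ → ℝ)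
    (hβ : ∀ p ∈ splitPrimes m, ∀ h ∈ timeSpace G p, (∃ u v, h u ≠ h v) →
      ∃ v, (m v : ZMod p) ≠ 0 ∧ patternRatio G h v ≤ β p) :
    1 - ∑ p ∈ splitPrimes m, β p *
      (((p : ℝ) ^ (finrank (ZMod p) (timeSpace G p) - 1) - 1) / (p - 1)) ≤ syncRatio G := by
  classical
  have hne := nonempty_of_primitive hG
  have hpos : (0 : ℝ) < (k.factorial : ℝ) ^ n :=
    pow_pos (by exact_mod_cast Nat.factorial_pos k) n
  refine le_trans ?_ (ratio_ge_modPairs hk hG hm)
  apply sub_le_sub_left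
  apply sum_le_sum
  intro p hp
  have hpp := prime_of_split hp
  have hp1 : (1 : ℝ) < p := by exact_mod_cast hpp.one_lt
  have hp0 : (p : ℝ) ≠ 0 := by linarith
  have hp2 : (p : ℝ) - 1 ≠ 0 := by linarith
  have hpp0 : (0 : ℝ) < (p : ℝ) * (p - 1) := mul_pos (by linarith) (by linarith)
  have h1 := modPairs_le (β := β p) hpp hne G m fun h hh hnc => by
    obtain ⟨v, hv, hle⟩ := hβ p hp h hh hnc
    exact (card_fits_le hpp G m h v hv).trans (mul_le_mul_of_nonneg_right hle hpos.le)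
  have h2 : (p : ℝ) ^ finrank (ZMod p) (timeSpace G p) =
      p * (p : ℝ) ^ (finrank (ZMod p) (timeSpace G p) - 1) := by
    rw [← pow_succ', Nat.sub_add_cancel (one_le_finrank hne hpp)]
  rw [div_le_iff₀ (mul_pos hpp0 hpos)]
  refine h1.trans (le_of_eq ?_)
  rw [h2]
  field_simp

end Pool.Agent.H98.SPC
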