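import Pool.Agent.H98.SPC.ModBound

/-!
# Consequences of the bound by the functions modulo the primes
-/

namespace Pool.Agent.H98.SPC

open Finset Module
open Pool.Agent.H10.Sync Pool.Agent.H82.SR

variable {n k : ℕ} {G : OutRegular n k}

/-- All colorings are synchronizing if there are no functions which are not constant. -/
theorem ratio_eq_one (hk : 1 ≤ k) (hG : Primitive G) {m : Fin n → ℕ}
    (hm : IsWeight G (fun v => (m v : ℚ)))
    (hc : ∀ p ∈ splitPrimes m, ∀ h ∈ timeSpace G p, ∀ a b, h a = h b) : syncRatio G = 1 := by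
  classical
  have h1 : ((univ : Finset (Coloring n k)).filter fun c => ¬ Synchronizing G c) = ∅ := by
    rw [filter_eq_empty_iff]
    rintro c - h
    obtain ⟨p, hp, g, hg, ⟨a, b, hab⟩, -⟩ := exists_modFits hk hG hm c h
    exact hab (hc p hp g hg a b)
  rw [syncRatio_eq, h1, card_empty]
  simp

/-- The bound for one prime and a space of dimension at most two. -/
theorem ratio_ge_one_prime (hk : 1 ≤ k) (hG : Primitive G) {m : Fin n → ℕ}
    (hm : IsWeight G (fun v => (m v : ℚ))) {p : ℕ} (hp : splitPrimes m ⊆ {p})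
    (hd : finrank (ZMod p) (timeSpace G p) ≤ 2)
    (hact : ∀ h ∈ timeSpace G p, (∃ a b, h a ≠ h b) →
      ∃ v, (m v : ZMod p) ≠ 0 ∧ ∃ e e', h (G v e) ≠ h (G v e')) :
    1 - 1 / (k : ℝ) ≤ syncRatio G := by
  classical
  have hne := nonempty_of_primitive hG
  have h1 := ratio_ge_beta hk hG hm (fun _ => 1 / (k : ℝ)) fun q hq h hh hnc => by
    have h2 := mem_singleton.1 (hp hq)
    subst h2
    obtain ⟨v, hv, hv'⟩ := hact h hh hnc
    exact ⟨v, hv, patternRatio_le hk G h v hv'⟩
  refine le_trans ?_ h1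
  apply sub_le_sub_left
  have hk0 : (0 : ℝ) < (k : ℝ) := by exact_mod_cast (show 0 < k by omega)
  rcases subset_singleton_iff.1 hp with h2 | h2
  · rw [h2, sum_empty]
    positivity
  · rw [h2, sum_singleton]
    have hpp : p.Prime := prime_of_split (h2 ▸ mem_singleton_self p)
    have hp1 : (1 : ℝ) < p := by exact_mod_cast hpp.one_lt
    have h3 := one_le_finrank (G := G) hne hpp
    have h4 : ((p : ℝ) ^ (finrank (ZMod p) (timeSpace G p) - 1) - 1) / (p - 1) ≤ 1 := by
      rw [div_le_one (by linarith)]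
      apply sub_le_sub_right
      calc (p : ℝ) ^ (finrank (ZMod p) (timeSpace G p) - 1) ≤ (p : ℝ) ^ 1 :=
            pow_le_pow_right₀ hp1.le (by omega)
        _ = p := pow_one _
    calc 1 / (k : ℝ) * (((p : ℝ) ^ (finrank (ZMod p) (timeSpace G p) - 1) - 1) / (p - 1)) ≤
        1 / (k : ℝ) * 1 := mul_le_mul_of_nonneg_left h4 (by positivity)
      _ = 1 / (k : ℝ) := mul_one _

end Pool.Agent.H98.SPC
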