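import Pool.Agent.H98.SPC.Stmt

/-!
# Functions modulo a prime: the definitions used in the statement
-/

namespace Pool.Agent.H98.SPC

open Finset Module
open Pool.Agent.H10.Sync

variable {n k : ℕ}

/-- The functions `h` from the vertices to the integers modulo `p` such that `(A - k) h` is
constant. -/
def timeSpace (G : OutRegular n k) (p : ℕ) : Submodule (ZMod p) (Fin n → ZMod p) where
  carrier := {h | ∃ t : ZMod p, ∀ v, ∑ e, h (G v e) = k * h v + t}
  add_mem' := by
    rintro f g ⟨s, hs⟩ ⟨t, ht⟩
    refine ⟨s + t, fun v => ?_⟩
    simp only [Pi.add_apply, sum_add_distrib, hs v, ht v]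
    ring
  zero_mem' := ⟨0, fun v => by simp⟩
  smul_mem' := by
    rintro a f ⟨s, hs⟩
    refine ⟨a * s, fun v => ?_⟩
    simp only [Pi.smul_apply, smul_eq_mul, ← mul_sum, hs v]
    ring

/-- The condition on a coloring given by the weights `m` and the function `h`: the weighted sum of
the values `h (v.w)` modulo `p` is the same for all words `w` (here `v.w` is the end of the path with
the start `v` and the colors `w`). -/
def ModFits (G : OutRegular n k) (m : Fin n → ℕ) {p : ℕ} (h : Fin n → ZMod p)
    (c : Coloring n k) : Prop :=
  ∀ w : List (Fin k),
    ∑ v, (m v : ZMod p) * h (w.foldl (step G c) v) = ∑ v, (m v : ZMod p) * h v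

/-- The vertices can be divided into `r` sets of equal weight. -/
def EqualSplit (m : Fin n → ℕ) (r : ℕ) : Prop :=
  ∃ φ : Fin n → Fin r, ∀ l, r * ∑ v with φ v = l, m v = ∑ v, m v

open Classical in
/-- The primes `p` such that the vertices can be divided into `p` sets of equal weight (for positive
weights such a number `p` divides the sum of the weights and is at most `n`). -/
noncomputable def splitPrimes (m : Fin n → ℕ) : Finset ℕ :=
  (range (n + 1)).filter fun p => p.Prime ∧ EqualSplit m p

/-- The number of the pairs of a function in `timeSpace G p` which is not constant and a coloring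
which satisfies the condition of this function. -/
noncomputable def modPairs (G : OutRegular n k) (m : Fin n → ℕ) (p : ℕ) : ℕ :=
  Nat.card {x : (Fin n → ZMod p) × Coloring n k //
    x.1 ∈ timeSpace G p ∧ (∃ u v, x.1 u ≠ x.1 v) ∧ ModFits G m x.1 x.2}

open Classical in
/-- The fraction of the bijections from the edges leaving `v` to the colors which produce a given
pattern of the values of `h`: the product of the factorials of the multiplicities of the values of
`h` at the heads of these edges, divided by `k!`. -/
noncomputable def patternRatio (G : OutRegular n k) {p : ℕ} (h : Fin n → ZMod p) (v : Fin n) : ℝ :=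
  ((∏ x ∈ (univ : Finset (Fin k)).image fun e => h (G v e),
    ((univ : Finset (Fin k)).filter fun e => h (G v e) = x).card.factorial : ℕ) : ℝ) /
      (k.factorial : ℝ)

end Pool.Agent.H98.SPC
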