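import Pool.Agent.H98.SPC.RankBound

/-!
# The union bound over a family of subspaces
-/

namespace Pool.Agent.H98.SPC

open Finset Module
open Pool.Agent.H10.Sync Pool.Agent.H82.SR

variable {n k : ℕ} {G : OutRegular n k}

theorem mem_orth {w : Fin n → ℚ} {U : Submodule ℚ (Fin n → ℚ)} {c : Coloring n k} :
    c ∈ orth G w U ↔ ∀ f ∈ U, ∀ i, ∑ v, w v * f (step G c v i) = 0 := by
  classical
  unfold orth
  simp

theorem orth_anti {w : Fin n → ℚ} {U V : Submodule ℚ (Fin n → ℚ)} (h : U ≤ V) :
    orth G w V ⊆ orth G w U := fun _ hc =>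
  mem_orth.2 fun f hf => mem_orth.1 hc f (h hf)

/-- A nonzero invariant subspace is orthogonal to at most `(k!) ^ n / k` colorings. -/
theorem orth_invariant (hk : 1 ≤ k) (hG : Primitive G) {w : Fin n → ℚ} (hw : ∀ v, 0 < w v)
    {U : Submodule ℚ (Fin n → ℚ)} (h0 : U ≠ ⊥) (hU : ∀ f ∈ U, adj G f ∈ U) :
    k * (orth G w U).card ≤ Fintype.card (Coloring n k) := by
  classical
  have hne := nonempty_of_primitive hG
  obtain ⟨h, hh, hne0⟩ := (Submodule.ne_bot_iff U).1 h0
  by_cases hc : ∀ u v, h u = h v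
  · have hemp : orth G w U = ∅ := by
      rw [eq_empty_iff_forall_notMem]
      intro c hcc
      have h1 := mem_orth.1 hcc h hh ⟨0, hk⟩
      obtain ⟨v0⟩ := hne
      have h2 : ∀ v, w v * h (step G c v ⟨0, hk⟩) = w v * h v0 := fun v => by
        rw [hc _ v0]
      rw [sum_congr rfl fun v _ => h2 v, ← sum_mul] at h1
      have h3 : 0 < ∑ v, w v := sum_pos (fun v _ => hw v) ⟨v0, mem_univ v0⟩
      have h4 : h v0 = 0 := by
        rcases mul_eq_zero.1 h1 with h5 | h5
        · exact absurd h5 h3.ne'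
        · exact h5
      apply hne0
      funext v
      rw [hc v v0, h4]
      rfl
    rw [hemp]
    simp
  · obtain ⟨t, v0, e0, e1, hne1⟩ := exists_active hG hc
    set g := (adj G)^[t] h with hg
    have hgU : g ∈ U := iterate_mem hU hh t
    refine counting (orth G w U) (fun _ => v0) (fun v e => Encodable.encode (g (G v e))) ?_ ?_ ?_
    · intro c _
      exact ⟨e0, e1, fun h => hne1 (Encodable.encode_injective h)⟩
    · intro c _ c' _
      rfl
    · intro c hc c' hc' hcc i
      have h1 := mem_orth.1 hc g hgU i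
      have h2 := mem_orth.1 hc' g hgU i
      rw [← add_sum_erase univ _ (mem_univ v0)] at h1 h2
      have h3 : ∑ v ∈ univ.erase v0, w v * g (step G c' v i) =
          ∑ v ∈ univ.erase v0, w v * g (step G c v i) := by
        refine sum_congr rfl fun v hv => ?_
        unfold step
        rw [hcc v (ne_of_mem_erase hv)]
      rw [h3] at h2
      have h4 : w v0 * g (step G c v0 i) = w v0 * g (step G c' v0 i) := by linarith
      have h5 := mul_left_cancel₀ (hw v0).ne' h4
      exact congrArg Encodable.encode h5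

open Classical in
/-- The union bound. -/
theorem card_le_sum (hk : 1 ≤ k) (hG : Primitive G) {w : Fin n → ℚ} (hw : IsWeight G w)
    {ι : Type*} (s : Finset ι) (U : ι → Submodule ℚ (Fin n → ℚ))
    (hU : ∀ r, 2 ≤ r → ∀ F : Set (Fin n → Fin r), BlockFamily G w F → ∃ i ∈ s, U i ≤ blockSpan F) :
    ((univ : Finset (Coloring n k)).filter fun c => ¬ Synchronizing G c).card ≤
      ∑ i ∈ s, (orth G w (U i)).card := by
  have h1 : ((univ : Finset (Coloring n k)).filter fun c => ¬ Synchronizing G c) ⊆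
      s.biUnion fun i => orth G w (U i) := by
    intro c hc
    have hc' := (mem_filter.1 hc).2
    obtain ⟨r, hr, F, hF, hstep, -⟩ := exists_blockFamily hk hG hw c hc'
    obtain ⟨i, hi, hle⟩ := hU r hr F hF
    rw [mem_biUnion]
    refine ⟨i, hi, mem_orth.2 fun f hf x => ?_⟩
    exact blockSpan_perp hr hF (hstep f (hle hf) x)
  exact (card_le_card h1).trans card_biUnion_le

/-- The fraction of the colorings which are orthogonal to a subspace. -/
noncomputable def orthRatio (G : OutRegular n k) (w : Fin n → ℚ) (U : Submodule ℚ (Fin n → ℚ)) :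
    ℝ := (orth G w U).card / (k.factorial : ℝ) ^ n

theorem ratio_ge_sum (hk : 1 ≤ k) (hG : Primitive G) {w : Fin n → ℚ} (hw : IsWeight G w)
    {ι : Type*} (s : Finset ι) (U : ι → Submodule ℚ (Fin n → ℚ))
    (hU : ∀ r, 2 ≤ r → ∀ F : Set (Fin n → Fin r), BlockFamily G w F → ∃ i ∈ s, U i ≤ blockSpan F) :
    1 - ∑ i ∈ s, orthRatio G w (U i) ≤ syncRatio G := by
  classical
  have h1 := card_le_sum hk hG hw s U hU
  have hpos : (0 : ℝ) < (k.factorial : ℝ) ^ n :=
    pow_pos (by exact_mod_cast Nat.factorial_pos k) n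
  rw [syncRatio_eq]
  have h2 : (((univ : Finset (Coloring n k)).filter fun c => ¬ Synchronizing G c).card : ℝ) ≤
      ∑ i ∈ s, ((orth G w (U i)).card : ℝ) := by exact_mod_cast h1
  rw [card_coloring]
  unfold orthRatio
  rw [← sum_div]
  have h4 := div_le_div_of_nonneg_right h2 hpos.le
  linarith

theorem orthRatio_invariant (hk : 1 ≤ k) (hG : Primitive G) {w : Fin n → ℚ} (hw : ∀ v, 0 < w v)
    {U : Submodule ℚ (Fin n → ℚ)} (h0 : U ≠ ⊥) (hU : ∀ f ∈ U, adj G f ∈ U) :
    orthRatio G w U ≤ 1 / k := by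
  have h1 := orth_invariant hk hG hw h0 hU
  have hpos : (0 : ℝ) < (k.factorial : ℝ) ^ n :=
    pow_pos (by exact_mod_cast Nat.factorial_pos k) n
  have hk0 : (0 : ℝ) < k := by exact_mod_cast (show 0 < k by omega)
  unfold orthRatio
  rw [div_le_div_iff₀ hpos hk0]
  have h2 : ((k * (orth G w U).card : ℕ) : ℝ) ≤ (Fintype.card (Coloring n k) : ℝ) := by
    exact_mod_cast h1
  rw [card_coloring] at h2
  push_cast at h2
  linarith

theorem orthRatio_rank (hk : 1 ≤ k) {w : Fin n → ℚ} (hw : ∀ v, 0 < w v)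
    (U : Submodule ℚ (Fin n → ℚ)) :
    orthRatio G w U ≤ 1 / 2 ^ (finrank ℚ U -
      finrank ℚ (U ⊓ outConst G ∅ : Submodule ℚ (Fin n → ℚ))) := by
  have h1 := orth_rank hk G (fun v => (hw v).ne') U
  have hpos : (0 : ℝ) < (k.factorial : ℝ) ^ n :=
    pow_pos (by exact_mod_cast Nat.factorial_pos k) n
  unfold orthRatio
  rw [div_le_div_iff₀ hpos (by positivity)]
  rw [one_mul]
  exact_mod_cast h1

theorem orthRatio_anti {w : Fin n → ℚ} {U V : Submodule ℚ (Fin n → ℚ)} (h : U ≤ V) :
    orthRatio G w V ≤ orthRatio G w U := by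
  unfold orthRatio
  apply div_le_div_of_nonneg_right _ (by positivity)
  exact_mod_cast card_le_card (orth_anti h)

end Pool.Agent.H98.SPC
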