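import Pool.Agent.H98.SPC.ModDefs
import Pool.Agent.H98.SPC.Block
import Pool.Agent.H98.SPC.Union

/-!
# A coloring which is not synchronizing fits a function modulo a prime
-/

namespace Pool.Agent.H98.SPC

open Finset Module
open Pool.Agent.H10.Sync Pool.Agent.H82.SR

variable {n k : ℕ} {G : OutRegular n k}

/-- On an invariant subspace which does not contain the constants the operator `A - k` is onto. -/
theorem exists_preimage (hG : Primitive G) {U : Submodule ℚ (Fin n → ℚ)}
    (hinv : ∀ f ∈ U, adj G f ∈ U) (h1 : (fun _ => (1 : ℚ)) ∉ U) {f : Fin n → ℚ} (hf : f ∈ U) :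
    ∃ b ∈ U, ∀ v, adj G b v - k * b v = f v := by
  classical
  obtain ⟨v0⟩ := nonempty_of_primitive hG
  let T : U →ₗ[ℚ] U :=
    { toFun := fun g => ⟨adj G g - (k : ℚ) • (g : Fin n → ℚ),
        U.sub_mem (hinv g g.2) (U.smul_mem _ g.2)⟩
      map_add' := by
        intro g g'
        apply Subtype.ext
        simp only [Submodule.coe_add, map_add, smul_add]
        abel
      map_smul' := by
        intro a g
        apply Subtype.ext
        simp only [Submodule.coe_smul, map_smul, RingHom.id_apply, smul_sub]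
        rw [smul_comm (k : ℚ) a (g : Fin n → ℚ)] }
  have hinj : Function.Injective T := by
    rw [← LinearMap.ker_eq_bot, eq_bot_iff]
    intro g hg
    rw [Submodule.mem_bot]
    have h2 : adj G (g : Fin n → ℚ) - (k : ℚ) • (g : Fin n → ℚ) = 0 :=
      congrArg (fun x : U => (x : Fin n → ℚ)) (LinearMap.mem_ker.1 hg)
    have hc := const_of_adj_eq hG (f := (g : Fin n → ℚ)) fun v => by
      have h3 := congrFun h2 v
      rw [Pi.sub_apply, Pi.smul_apply, smul_eq_mul, Pi.zero_apply] at h3
      linarith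
    by_contra hne
    apply h1
    have h3 : (g : Fin n → ℚ) v0 ≠ 0 := by
      intro h3
      apply hne
      apply Subtype.ext
      funext v
      rw [hc v v0, h3]
      rfl
    have h4 : (fun _ => (1 : ℚ)) = ((g : Fin n → ℚ) v0)⁻¹ • (g : Fin n → ℚ) := by
      funext v
      rw [Pi.smul_apply, smul_eq_mul, hc v v0, inv_mul_cancel₀ h3]
    rw [h4]
    exact U.smul_mem _ g.2
  have hsurj : Function.Surjective T := LinearMap.injective_iff_surjective.1 hinj
  obtain ⟨b, hb⟩ := hsurj ⟨f, hf⟩
  refine ⟨b, b.2, fun v => ?_⟩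
  have h2 : adj G (b : Fin n → ℚ) - (k : ℚ) • (b : Fin n → ℚ) = f :=
    congrArg (fun x : U => (x : Fin n → ℚ)) hb
  have h3 := congrFun h2 v
  rw [Pi.sub_apply, Pi.smul_apply, smul_eq_mul] at h3
  exact h3

/-- The levels of the members of a block family have equal weight, and their number is at most the
number of the vertices. -/
theorem block_levels (hne : Nonempty (Fin n)) {m : Fin n → ℕ}
    (hm : IsWeight G (fun v => (m v : ℚ))) {r : ℕ} (hr : 2 ≤ r) {F : Set (Fin n → Fin r)}
    (hF : BlockFamily G (fun v => (m v : ℚ)) F) : EqualSplit m r ∧ r ≤ n := by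
  classical
  obtain ⟨φ, hφ⟩ := hF.1
  have hlev := (hF.2 φ hφ).1
  have hsurj : Function.Surjective φ := by
    intro l
    by_contra hcon
    push Not at hcon
    have h1 := hlev l
    have h2 : (univ.filter fun v => φ v = l) = ∅ := by
      rw [filter_eq_empty_iff]
      intro v _
      exact hcon v
    rw [h2, sum_empty, mul_zero] at h1
    obtain ⟨v0⟩ := hne
    have h3 : 0 < ∑ v, (m v : ℚ) := sum_pos (fun v _ => hm.1 v) ⟨v0, mem_univ v0⟩
    linarith
  refine ⟨⟨φ, fun l => ?_⟩, ?_⟩
  · have h1 := hlev l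
    have h2 : ((r * ∑ v with φ v = l, m v : ℕ) : ℚ) = ((∑ v, m v : ℕ) : ℚ) := by
      push_cast
      exact h1
    exact_mod_cast h2
  · have h1 := Fintype.card_le_of_surjective φ hsurj
    simpa using h1

/-- Merging of sets of equal weight. -/
theorem EqualSplit.dvd {m : Fin n → ℕ} {r p : ℕ} (hr : 0 < r) (h : EqualSplit m r) (hp : p ∣ r) :
    EqualSplit m p := by
  classical
  obtain ⟨φ, hφ⟩ := h
  obtain ⟨q, rfl⟩ := hp
  have hp0 : 0 < p := Nat.pos_of_mul_pos_right hr
  have hq0 : 0 < q := Nat.pos_of_mul_pos_left hr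
  let e : Fin (p * q) ≃ Fin p × Fin q := finProdFinEquiv.symm
  refine ⟨fun v => (e (φ v)).1, fun l => ?_⟩
  have h1 : ∑ v with (e (φ v)).1 = l, m v =
      ∑ j : Fin q, ∑ v with φ v = e.symm (l, j), m v := by
    rw [← sum_biUnion]
    · apply sum_congr _ fun _ _ => rfl
      ext v
      simp only [mem_filter, mem_univ, true_and, mem_biUnion]
      constructor
      · intro h
        refine ⟨(e (φ v)).2, ?_⟩
        rw [← h, Prod.mk.eta, Equiv.symm_apply_apply]
      · rintro ⟨j, h⟩
        rw [h, Equiv.apply_symm_apply]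
    · intro i _ j _ hij
      change Disjoint _ _
      rw [Finset.disjoint_left]
      intro v hv hv'
      rw [mem_filter] at hv hv'
      apply hij
      have h2 := e.symm.injective (hv.2.symm.trans hv'.2)
      rw [Prod.mk.injEq] at h2
      exact h2.2
  have h2 : q * (p * ∑ v with (e (φ v)).1 = l, m v) = q * ∑ v, m v := by
    rw [h1, ← mul_assoc, mul_comm q p, mul_sum, sum_congr rfl fun j _ => hφ (e.symm (l, j)),
      sum_const, card_univ, Fintype.card_fin, smul_eq_mul]
  exact Nat.eq_of_mul_eq_mul_left hq0 h2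

/-- A function with a bounded denominator. -/
theorem exists_den (g : Fin n → ℚ) : ∃ D : ℕ, 0 < D ∧ ∀ v, ∃ z : ℤ, (z : ℚ) = D * g v := by
  classical
  refine ⟨∏ v, (g v).den, prod_pos fun v _ => (g v).den_pos, fun v => ?_⟩
  refine ⟨(∏ u ∈ univ.erase v, ((g u).den : ℤ)) * (g v).num, ?_⟩
  have h2 : ((∏ u, (g u).den : ℕ) : ℚ) =
      (∏ u ∈ univ.erase v, ((g u).den : ℚ)) * (g v).den := by
    push_cast
    exact (prod_erase_mul univ _ (mem_univ v)).symm
  rw [h2]
  push_cast
  rw [mul_assoc]
  congr 1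
  rw [mul_comm]
  exact (Rat.mul_den_eq_num _).symm

/-- The local step: a rational function `g` with `g v0 = 0` such that `(A - k) g` is an integral
function which is `-1` modulo `p` gives a function modulo `p`. -/
theorem exists_mod_of_rat {p : ℕ} (hp : p.Prime) (v0 : Fin n) {g : Fin n → ℚ} (hg0 : g v0 = 0)
    {u : Fin n → ℤ} (hgu : ∀ v, adj G g v - k * g v = u v) (hu : ∀ v, (u v : ZMod p) = -1) :
    ∃ (D : ℕ) (z : Fin n → ℤ), 0 < D ∧ (∀ v, (z v : ℚ) = D * g v) ∧
      (fun v => (z v : ZMod p)) ∈ timeSpace G p ∧ ∃ a b, (z a : ZMod p) ≠ (z b : ZMod p) := by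
  classical
  haveI : Fact p.Prime := ⟨hp⟩
  have hex := exists_den g
  set D := Nat.find hex with hD
  obtain ⟨hDpos, hDz⟩ := Nat.find_spec hex
  choose z hz using hDz
  have hzu : ∀ v, ∑ e, z (G v e) - k * z v = D * u v := by
    intro v
    have h1 : ((∑ e, z (G v e) - k * z v : ℤ) : ℚ) = ((D * u v : ℤ) : ℚ) := by
      push_cast
      rw [← hgu v, adj_apply, mul_sub, mul_sum, hz v]
      rw [sum_congr rfl fun e _ => hz (G v e)]
      ring
    exact_mod_cast h1
  have hmod : ∀ v, ∑ e, (z (G v e) : ZMod p) - k * (z v : ZMod p) = - (D : ZMod p) := by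
    intro v
    have h1 := congrArg (fun x : ℤ => (x : ZMod p)) (hzu v)
    push_cast at h1
    rw [h1, hu v]
    ring
  refine ⟨D, z, hDpos, hz, ⟨-(D : ZMod p), fun v => ?_⟩, ?_⟩
  · have h1 := hmod v
    linear_combination h1
  · by_contra hcon
    push Not at hcon
    have hz0 : z v0 = 0 := by
      have h1 := hz v0
      rw [hg0, mul_zero] at h1
      exact_mod_cast h1
    have hall : ∀ v, (z v : ZMod p) = 0 := by
      intro v
      rw [hcon v v0, hz0]
      simp
    have hdvd : ∀ v, (p : ℤ) ∣ z v := fun v => (ZMod.intCast_zmod_eq_zero_iff_dvd _ _).1 (hall v)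
    -- `p` divides `D`
    have hpD : p ∣ D := by
      have h1 := hmod v0
      rw [hall v0, mul_zero, sub_zero, sum_congr rfl fun e _ => hall (G v0 e), sum_const_zero] at h1
      have h2 : (D : ZMod p) = 0 := by
        linear_combination h1
      exact (ZMod.natCast_eq_zero_iff _ _).1 h2
    obtain ⟨D', hD'⟩ := hpD
    have hp0 : (p : ℚ) ≠ 0 := by exact_mod_cast hp.ne_zero
    have hD'pos : 0 < D' := by
      rcases Nat.eq_zero_or_pos D' with h | h
      · rw [h, mul_zero] at hD'
        omega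
      · exact h
    have hlt : D' < D := by
      rw [hD']
      exact lt_mul_of_one_lt_left hD'pos hp.one_lt
    apply Nat.find_min hex hlt
    refine ⟨hD'pos, fun v => ?_⟩
    obtain ⟨y, hy⟩ := hdvd v
    refine ⟨y, ?_⟩
    have h1 := hz v
    rw [hy] at h1
    have h2 : (D : ℚ) = p * D' := by exact_mod_cast hD'
    rw [h2] at h1
    push_cast at h1
    apply mul_left_cancel₀ hp0
    rw [h1]
    ring

/-- A coloring which is not synchronizing has a number `r` such that for every prime divisor `p` of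
`r` it fits a function modulo `p` for all words. -/
theorem exists_rank (hk : 1 ≤ k) (hG : Primitive G) {m : Fin n → ℕ}
    (hm : IsWeight G (fun v => (m v : ℚ))) (c : Coloring n k) (hc : ¬ Synchronizing G c) :
    ∃ r, 2 ≤ r ∧ r ≤ n ∧ EqualSplit m r ∧ ∀ p, p.Prime → p ∣ r →
      ∃ h ∈ timeSpace G p, (∃ a b, h a ≠ h b) ∧ ∀ w : List (Fin k),
        ∑ v, (m v : ZMod p) * h (w.foldl (step G c) v) = ∑ v, (m v : ZMod p) * h v := by
  classical
  haveI hne := nonempty_of_primitive hG
  obtain ⟨v0⟩ := id hne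
  obtain ⟨r, hr, F, hF, hstep, -⟩ := exists_blockFamily hk hG hm c hc
  obtain ⟨-, hadm⟩ := blockSpan_admissible hm hr hF
  have hinv := hadm.1
  have h1 := hadm.2.1
  obtain ⟨hrW, hrn⟩ := block_levels ⟨v0⟩ hm hr hF
  refine ⟨r, hr, hrn, hrW, fun p hpp hpr => ?_⟩
  haveI : Fact p.Prime := ⟨hpp⟩
  have hr0 : (r : ℚ) ≠ 0 := by
    have : r ≠ 0 := by omega
    exact_mod_cast this
  obtain ⟨φ, hφ⟩ := hF.1
  set l : Fin r := ⟨0, by omega⟩
  obtain ⟨b, hb, hbf⟩ := exists_preimage hG hinv h1
    ((blockSpan F).smul_mem (r : ℚ) (cind_mem hφ l))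
  set g : Fin n → ℚ := fun v => b v - b v0 with hg
  set u : Fin n → ℤ := fun v => r * (if φ v = l then 1 else 0) - 1 with hu
  have hgu : ∀ v, adj G g v - k * g v = u v := by
    intro v
    have h2 := hbf v
    rw [Pi.smul_apply, smul_eq_mul] at h2
    have h3 : adj G g v = adj G b v - k * b v0 := by
      rw [adj_apply, adj_apply, hg]
      simp only [sum_sub_distrib, sum_const, card_univ, Fintype.card_fin, nsmul_eq_mul]
    rw [h3, hu]
    simp only [hg]
    push_cast
    unfold cind at h2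
    have h4 : (r : ℚ) * ((if φ v = l then 1 else 0) - 1 / (r : ℚ)) =
        r * (if φ v = l then 1 else 0) - 1 := by
      field_simp
    rw [h4] at h2
    linarith
  have hup : ∀ v, (u v : ZMod p) = -1 := by
    intro v
    rw [hu]
    push_cast
    have h2 : ((r : ℕ) : ZMod p) = 0 := (ZMod.natCast_eq_zero_iff _ _).2 hpr
    rw [h2]
    ring
  obtain ⟨D, z, hD, hz, hmem, hnc⟩ := exists_mod_of_rat hpp v0 (by simp [hg]) hgu hup
  -- the words
  have hword : ∀ w : List (Fin k), ∀ f ∈ blockSpan F,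
      (fun v => f (w.foldl (step G c) v)) ∈ blockSpan F := by
    intro w
    induction w with
    | nil => exact fun f hf => hf
    | cons x w ih =>
      intro f hf
      exact hstep _ (ih f hf) x
  refine ⟨fun v => (z v : ZMod p), hmem, hnc, fun w => ?_⟩
  have h2 : ∑ v, (m v : ℚ) * b (w.foldl (step G c) v) = 0 := blockSpan_perp hr hF (hword w b hb)
  have h3 : ∑ v, (m v : ℚ) * b v = 0 := blockSpan_perp hr hF hb
  have h4 : ∑ v, (m v : ℤ) * z (w.foldl (step G c) v) = ∑ v, (m v : ℤ) * z v := by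
    have h5 : ((∑ v, (m v : ℤ) * z (w.foldl (step G c) v) : ℤ) : ℚ) =
        ((∑ v, (m v : ℤ) * z v : ℤ) : ℚ) := by
      push_cast
      have h6 : ∀ f : Fin n → Fin n, ∑ v, (m v : ℚ) * (z (f v) : ℚ) =
          D * (∑ v, (m v : ℚ) * b (f v) - ∑ v, (m v : ℚ) * b v0) := by
        intro f
        rw [← sum_sub_distrib, mul_sum]
        refine sum_congr rfl fun v _ => ?_
        rw [hz (f v)]
        simp only [hg]
        ring
      rw [h6 fun v => w.foldl (step G c) v, h6 fun v => v, h2, h3]
    exact_mod_cast h5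
  have h5 := congrArg (fun x : ℤ => (x : ZMod p)) h4
  push_cast at h5
  exact h5

/-- A coloring which is not synchronizing fits a function modulo a prime. -/
theorem exists_modFits (hk : 1 ≤ k) (hG : Primitive G) {m : Fin n → ℕ}
    (hm : IsWeight G (fun v => (m v : ℚ))) (c : Coloring n k) (hc : ¬ Synchronizing G c) :
    ∃ p ∈ splitPrimes m, ∃ h ∈ timeSpace G p, (∃ a b, h a ≠ h b) ∧ ModFits G m h c := by
  classical
  obtain ⟨r, hr, hrn, hrW, hall⟩ := exists_rank hk hG hm c hc
  have hpp : r.minFac.Prime := Nat.minFac_prime (by omega)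
  obtain ⟨h, hh, hnc, hw⟩ := hall _ hpp (Nat.minFac_dvd r)
  refine ⟨r.minFac, ?_, h, hh, hnc, hw⟩
  unfold splitPrimes
  rw [mem_filter, mem_range]
  have h2 : r.minFac ≤ r := Nat.minFac_le (by omega)
  exact ⟨by omega, hpp, hrW.dvd (by omega) (Nat.minFac_dvd r)⟩

end Pool.Agent.H98.SPC
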