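import Pool.Agent.H98.SPC.Poly

/-!
# Weights whose sum is coprime to the out-degree
-/

namespace Pool.Agent.H98.SPC

open Finset Module Polynomial
open Pool.Agent.H10.Sync

variable {n k : ℕ} {G : OutRegular n k}

theorem exists_nat_iterate (a : ℕ) (g : Fin n → ℕ) :
    ∃ N : Fin n → ℕ, ((adj G) ^ a) (fun v => (g v : ℚ)) = fun v => (N v : ℚ) := by
  induction a with
  | zero => exact ⟨g, rfl⟩
  | succ a ih =>
    obtain ⟨N, hN⟩ := ih
    refine ⟨fun v => ∑ e, N (G v e), ?_⟩
    rw [pow_succ', Module.End.mul_apply, hN]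
    funext v
    rw [adj_apply]
    push_cast
    rfl

theorem iterate_const (a : ℕ) (x : ℚ) :
    ((adj G) ^ a) (fun _ => x) = fun _ => (k : ℚ) ^ a * x := by
  induction a with
  | zero =>
    funext v
    simp
  | succ a ih =>
    rw [pow_succ', Module.End.mul_apply, ih]
    funext v
    rw [adj_apply, sum_const, card_univ, Fintype.card_fin, nsmul_eq_mul, pow_succ]
    ring

/-- If the weights are natural numbers whose sum is coprime to `k`, then the span of a block
family contains a function which is not killed by any power of the adjacency operator. -/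
theorem exists_not_nilpotent (hn : Nonempty (Fin n)) {m : Fin n → ℕ}
    (hcop : Nat.Coprime (∑ v, m v) k) {r : ℕ} (hr : 2 ≤ r)
    {F : Set (Fin n → Fin r)} (hF : BlockFamily G (fun v => (m v : ℚ)) F) :
    ∃ f ∈ blockSpan F, ∀ a : ℕ, ((adj G) ^ a) f ≠ 0 := by
  classical
  obtain ⟨φ, hφ⟩ := hF.1
  obtain ⟨v0⟩ := hn
  set l : Fin r := ⟨0, by omega⟩
  refine ⟨cind φ l, cind_mem hφ l, fun a ha => ?_⟩
  have hr0 : (r : ℚ) ≠ 0 := by
    have : r ≠ 0 := by omega
    exact_mod_cast this
  -- the number of walks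
  obtain ⟨N, hN⟩ := exists_nat_iterate (G := G) a (fun v => if φ v = l then 1 else 0)
  have h1 : cind φ l = (fun v => ((if φ v = l then 1 else 0 : ℕ) : ℚ)) - fun _ => 1 / (r : ℚ) := by
    funext v
    simp only [cind, Pi.sub_apply]
    push_cast
    rfl
  rw [h1, map_sub, hN, iterate_const] at ha
  have h2 := congrFun ha v0
  have h3 : (r : ℚ) * N v0 = (k : ℚ) ^ a := by
    simp only [Pi.sub_apply, Pi.zero_apply] at h2
    field_simp at h2
    linarith
  have h4 : r * N v0 = k ^ a := by exact_mod_cast h3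
  have h5 : r ∣ k ^ a := ⟨_, h4.symm⟩
  have h6 := (hF.2 φ hφ).1 l
  beta_reduce at h6
  have h7 : r * ∑ v with φ v = l, m v = ∑ v, m v := by exact_mod_cast h6
  have h8 : r ∣ ∑ v, m v := ⟨_, h7.symm⟩
  have h9 : r ∣ 1 := by
    have h10 := Nat.Coprime.pow_right a hcop
    rw [← h10]
    exact Nat.dvd_gcd h8 h5
  have h10 := Nat.dvd_one.1 h9
  omega

end Pool.Agent.H98.SPC
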