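import Pool.Agent.H98.SPC.DivisorP
import Pool.Agent.H98.SPC.EdgeRank

/-!
# The factorisations of the characteristic polynomial and the colorings
-/

namespace Pool.Agent.H98.SPC

open Finset Module Polynomial
open Pool.Agent.H10.Sync Pool.Agent.H82.SR

variable {n k : ℕ} {G : OutRegular n k}

/-- A function `f` of the span `U` of a block family with `(A - k) p(A) f = 0` is killed by
`p(A)`. -/
theorem aeval_eq_zero (hG : Primitive G) {U : Submodule ℚ (Fin n → ℚ)}
    (hinv : ∀ f ∈ U, adj G f ∈ U) (h1 : (fun _ => (1 : ℚ)) ∉ U) {p : ℚ[X]} {f : Fin n → ℚ}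
    (hf : f ∈ U) (h : aeval (adj G) ((X - C (k : ℚ)) * p) f = 0) : aeval (adj G) p f = 0 := by
  by_contra hne
  apply no_eigen hG h1 (aeval_mem hinv p f hf) hne (Associated.refl (X - C (k : ℚ)))
  rw [← Module.End.mul_apply, ← map_mul]
  exact h

/-- The factorisation which belongs to the span of a block family. -/
theorem exists_factorisation (hG : Primitive G) (hk0 : (k : ℚ) ≠ 0) {p : ℚ[X]} (hpm : p.Monic)
    (a : ℕ) (hchar : (adj G).charpoly = (X - C (k : ℚ)) * X ^ a * p)
    (ha : a = 0 ∨ p.coeff 0 ≠ 0)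
    (hnd : ∀ q : ℚ[X], q.Monic → Irreducible q → q ∣ p →
      finrank ℚ (LinearMap.ker (aeval (adj G) q)) ≤ q.natDegree)
    {U : Submodule ℚ (Fin n → ℚ)} (hinv : ∀ f ∈ U, adj G f ∈ U)
    (h1 : (fun _ => (1 : ℚ)) ∉ U) (hnil : ∃ f ∈ U, aeval (adj G) (X ^ a : ℚ[X]) f ≠ 0) :
    ∃ g g' : ℚ[X], g.Monic ∧ g'.Monic ∧ g * g' = p ∧ g ≠ 1 ∧
      LinearMap.ker (aeval (adj G) g) ≤ U ∧
      ∀ b ∈ leftKer G g', ∀ f ∈ U, ∑ v, b v * f v = 0 := by
  classical
  set Up : Submodule ℚ (Fin n → ℚ) := U ⊓ LinearMap.ker (aeval (adj G) p) with hUp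
  have hUpinv : ∀ f ∈ Up, adj G f ∈ Up := by
    intro f hf
    refine ⟨hinv f hf.1, LinearMap.mem_ker.2 ?_⟩
    have h2 := LinearMap.mem_ker.1 hf.2
    have h4 : aeval (adj G) (p * X) f = 0 := by
      rw [mul_comm, map_mul, Module.End.mul_apply, h2, map_zero]
    rw [map_mul, aeval_X, Module.End.mul_apply] at h4
    exact h4
  -- from `U` to `Up`
  have hmem : ∀ f ∈ U, aeval (adj G) (X ^ a : ℚ[X]) f ∈ Up := by
    intro f hf
    have h2 := aeval_mem hinv (X ^ a) f hf
    refine ⟨h2, LinearMap.mem_ker.2 (aeval_eq_zero hG hinv h1 h2 ?_)⟩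
    rw [← Module.End.mul_apply, ← map_mul]
    have h4 : (X - C (k : ℚ)) * p * X ^ a = (adj G).charpoly := by
      rw [hchar]
      ring
    rw [h4, LinearMap.aeval_self_charpoly]
    rfl
  set B := (adj G).restrict hUpinv with hB
  have hint : IsIntegral ℚ B := Algebra.IsIntegral.isIntegral B
  have hmon : (minpoly ℚ B).Monic := minpoly.monic hint
  have hdvd : minpoly ℚ B ∣ p := by
    apply minpoly.dvd
    apply LinearMap.ext
    intro f
    apply Subtype.ext
    rw [aeval_restrict_apply hUpinv]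
    exact LinearMap.mem_ker.1 f.2.2
  have hker : Up = LinearMap.ker (aeval (adj G) (minpoly ℚ B)) := by
    have hle : Up ≤ LinearMap.ker (aeval (adj G) (minpoly ℚ B)) := by
      intro f hf
      rw [LinearMap.mem_ker]
      have h2 := aeval_restrict_apply hUpinv (minpoly ℚ B) ⟨f, hf⟩
      have h3 : aeval B (minpoly ℚ B) = 0 := minpoly.aeval ℚ B
      have h4 : (aeval B (minpoly ℚ B)) ⟨f, hf⟩ = 0 := LinearMap.congr_fun h3 ⟨f, hf⟩
      rw [← h2, ← hB]
      exact congrArg (fun x : Up => (x : Fin n → ℚ)) h4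
    apply Submodule.eq_of_le_of_finrank_le hle
    have h2 := finrank_ker_le_natDegree' hnd (minpoly ℚ B) hmon.ne_zero hdvd
    have h3 : (minpoly ℚ B).natDegree ≤ finrank ℚ Up := by
      rw [← LinearMap.charpoly_natDegree B]
      exact natDegree_le_of_dvd (LinearMap.minpoly_dvd_charpoly B)
        (LinearMap.charpoly_monic B).ne_zero
    exact h2.trans h3
  obtain ⟨g', hg'⟩ := hdvd
  have hg'mon : g'.Monic := by
    rw [hg'] at hpm
    exact hmon.of_mul_monic_left hpm
  refine ⟨minpoly ℚ B, g', hmon, hg'mon, hg'.symm, ?_, ?_, ?_⟩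
  · -- not `1`
    intro hone
    obtain ⟨f, hf, hf0⟩ := hnil
    have h2 := hmem f hf
    rw [hker, hone, LinearMap.mem_ker, map_one, Module.End.one_apply] at h2
    exact hf0 h2
  · rw [← hker]
    exact inf_le_left
  · intro b hb f hf
    -- a Bezout relation
    have hcop : IsCoprime (X ^ a : ℚ[X]) ((X - C (k : ℚ)) * g') := by
      rcases Nat.eq_zero_or_pos a with h0 | h0
      · rw [h0, pow_zero]
        exact isCoprime_one_left
      · have hp0 : p.coeff 0 ≠ 0 := by
          rcases ha with h | h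
          · omega
          · exact h
        apply IsCoprime.pow_left
        rw [irreducible_X.coprime_iff_not_dvd]
        rw [X_dvd_iff, mul_coeff_zero, coeff_sub, coeff_X_zero, coeff_C_zero, zero_sub]
        intro h2
        rcases mul_eq_zero.1 h2 with h3 | h3
        · exact hk0 (neg_eq_zero.1 h3)
        · apply hp0
          rw [hg', mul_coeff_zero, h3, mul_zero]
    obtain ⟨x, y, hxy⟩ := hcop
    have h2 : f = aeval (adj G) (X ^ a : ℚ[X]) (aeval (adj G) x f) +
        aeval (adj G) ((X - C (k : ℚ)) * g') (aeval (adj G) y f) := by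
      have h3 : aeval (adj G) (x * X ^ a + y * ((X - C (k : ℚ)) * g')) f = f := by
        rw [hxy, map_one]
        rfl
      rw [← Module.End.mul_apply, ← Module.End.mul_apply, ← map_mul, ← map_mul,
        ← LinearMap.add_apply, ← map_add, mul_comm (X ^ a : ℚ[X]) x,
        mul_comm ((X - C (k : ℚ)) * g') y]
      exact h3.symm
    have h3 := hmem _ (aeval_mem hinv x f hf)
    rw [hker] at h3
    obtain ⟨f', hf'⟩ := ker_le_range hG hk0 a hchar ha hnd hg'.symm h3
    rw [h2, ← hf']
    simp only [Pi.add_apply, mul_add, sum_add_distrib]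
    rw [hb f', hb _, add_zero]

end Pool.Agent.H98.SPC
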