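import Pool.Agent.H98.SPC.InvCount
import Pool.Agent.H98.SPC.Pair

/-!
# The union bound over the factorisations
-/

namespace Pool.Agent.H98.SPC

open Finset Module Polynomial
open Pool.Agent.H10.Sync Pool.Agent.H82.SR

variable {n k : ℕ} {G : OutRegular n k}

open Classical in
theorem permRatio_le (hk : 2 ≤ k) (hG : Primitive G) :
    (((univ : Finset (Coloring n k)).filter fun c => PermColoring G c ∧
      ¬ Synchronizing G c).card : ℝ) / (k.factorial : ℝ) ^ n ≤ permBound G := by
  have hpos : (0 : ℝ) < (k.factorial : ℝ) ^ n :=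
    pow_pos (by exact_mod_cast Nat.factorial_pos k) n
  have hk0 : (0 : ℝ) < k := by exact_mod_cast (show 0 < k by omega)
  unfold permBound
  split_ifs with h
  · apply le_min
    · have h1 := card_perm_le' (G := G) (by omega) hG
      have h2 : (k : ℝ) * (((univ : Finset (Coloring n k)).filter fun c => PermColoring G c ∧
          ¬ Synchronizing G c).card : ℝ) ≤ (Fintype.card (Coloring n k) : ℝ) := by
        exact_mod_cast h1
      rw [card_coloring] at h2
      rw [div_le_div_iff₀ hpos hk0]
      linarith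
    · have h1 := card_perm_le (G := G) (by omega) hG
      have h2 : ((univ : Finset (Coloring n k)).filter fun c => PermColoring G c ∧
          ¬ Synchronizing G c).card ≤
          ((univ : Finset (Coloring n k)).filter fun c => PermColoring G c).card := by
        apply card_le_card
        intro c hc
        rw [mem_filter] at hc ⊢
        exact ⟨hc.1, hc.2.1⟩
      rw [div_le_div_iff₀ hpos (by positivity), one_mul]
      exact_mod_cast (Nat.mul_le_mul_right _ h2).trans h1
  · have h1 : ((univ : Finset (Coloring n k)).filter fun c => PermColoring G c ∧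
        ¬ Synchronizing G c) = ∅ := by
      rw [filter_eq_empty_iff]
      rintro c _ ⟨hc, -⟩
      exact h fun y => inDegree_of_perm hc y
    rw [h1]
    simp

theorem card_orth2_div_le (hk : 2 ≤ k) (U M : Submodule ℚ (Fin n → ℚ)) :
    ((orth2 G U M).card : ℝ) / (k.factorial : ℝ) ^ n ≤ pairBound G U M := by
  classical
  have hpos : (0 : ℝ) < (k.factorial : ℝ) ^ n :=
    pow_pos (by exact_mod_cast Nat.factorial_pos k) n
  have hk0 : (0 : ℝ) < k := by exact_mod_cast (show 0 < k by omega)
  unfold pairBound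
  apply le_min
  · have h1 := card_pairRank_le (by omega) G U M (orth2 G U M) fun c hc => (mem_filter.1 hc).2
    rw [div_le_div_iff₀ hpos (by positivity), one_mul]
    exact_mod_cast h1
  · have h1 := card_orth2_le (by omega) G U M
    rw [div_le_div_iff₀ hpos (by positivity), one_mul]
    exact_mod_cast h1

/-- Every coloring is synchronizing, or a permutation coloring, or orthogonal for a proper
factorisation of `p`, where the characteristic polynomial is `(X - k) X ^ a p`. -/
theorem sync_or_perm_or_pair (hk : 2 ≤ k) (hG : Primitive G) {m : Fin n → ℕ}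
    (hm : IsWeight G (fun v => (m v : ℚ))) {p : ℚ[X]} (a : ℕ)
    (hchar : (adj G).charpoly = (X - C (k : ℚ)) * X ^ a * p)
    (ha : a = 0 ∨ (p.coeff 0 ≠ 0 ∧ Nat.Coprime (∑ v, m v) k))
    (hnd : ∀ q : ℚ[X], q.Monic → Irreducible q → q ∣ p →
      finrank ℚ (LinearMap.ker (aeval (adj G) q)) ≤ q.natDegree) (c : Coloring n k) :
    Synchronizing G c ∨ PermColoring G c ∨ ∃ g g' : ℚ[X], g.Monic ∧ g'.Monic ∧ g * g' = p ∧
      g ≠ 1 ∧ g' ≠ 1 ∧ ∀ b ∈ leftKer G g', ∀ f ∈ LinearMap.ker (aeval (adj G) g), ∀ i,
        ∑ v, b v * f (step G c v i) = 0 := by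
  classical
  have hne := nonempty_of_primitive hG
  have hk0 : (k : ℚ) ≠ 0 := by
    have : k ≠ 0 := by omega
    exact_mod_cast this
  have ha' : a = 0 ∨ p.coeff 0 ≠ 0 := ha.imp_right And.left
  have hpm : p.Monic := by
    have h1 := LinearMap.charpoly_monic (adj G)
    rw [hchar] at h1
    exact Monic.of_mul_monic_left ((monic_X_sub_C _).mul (monic_X_pow a)) h1
  by_cases hc' : Synchronizing G c
  · exact Or.inl hc'
  right
  by_cases hperm : PermColoring G c
  · exact Or.inl hperm
  right
  obtain ⟨r, hr, F, hF, hstep, S, hSr, hS⟩ := exists_blockFamily (by omega) hG hm c hc'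
  obtain ⟨hbot, hadm⟩ := blockSpan_admissible hm hr hF
  have hinv := hadm.1
  have h1 := hadm.2.1
  have hnil : ∃ f ∈ blockSpan F, aeval (adj G) (X ^ a : ℚ[X]) f ≠ 0 := by
    rcases ha with ha | ⟨-, hcop⟩
    · obtain ⟨f, hf, hf0⟩ := (Submodule.ne_bot_iff _).1 hbot
      refine ⟨f, hf, ?_⟩
      rw [ha, pow_zero, map_one, Module.End.one_apply]
      exact hf0
    · obtain ⟨f, hf, hfa⟩ := exists_not_nilpotent hne hcop hr hF
      refine ⟨f, hf, ?_⟩
      rw [map_pow, aeval_X]
      exact hfa a
  obtain ⟨g, g', hg, hg', hgg, hg1, hker, hleft⟩ :=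
    exists_factorisation hG hk0 hpm a hchar ha' hnd hinv h1 hnil
  have hg'1 : g' ≠ 1 := by
    rintro rfl
    rw [mul_one] at hgg
    subst hgg
    apply hperm
    have h2 : n ≤ S.card := card_eq_of_ker_le hG hm hchar (ha.imp_right And.right) (by omega)
      fun f hf => hS f (hker hf)
    exact perm_of_card hr (by omega) hm hne hF hstep
  refine ⟨g, g', hg, hg', hgg, hg1, hg'1, ?_⟩
  intro b hb f hf i
  exact hleft b hb _ (hstep f (hker hf) i)

/-- The union bound over the factorisations of `p`, where the characteristic polynomial is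
`(X - k) X ^ a p`. -/
theorem ratio_ge_pairs (hk : 2 ≤ k) (hG : Primitive G) {m : Fin n → ℕ}
    (hm : IsWeight G (fun v => (m v : ℚ))) {p : ℚ[X]} (a : ℕ)
    (hchar : (adj G).charpoly = (X - C (k : ℚ)) * X ^ a * p)
    (ha : a = 0 ∨ (p.coeff 0 ≠ 0 ∧ Nat.Coprime (∑ v, m v) k))
    (hnd : ∀ q : ℚ[X], q.Monic → Irreducible q → q ∣ p →
      finrank ℚ (LinearMap.ker (aeval (adj G) q)) ≤ q.natDegree)
    (Q : Finset (ℚ[X] × ℚ[X]))
    (hQ : ∀ g g' : ℚ[X], g.Monic → g'.Monic → g * g' = p → g ≠ 1 → g' ≠ 1 → (g, g') ∈ Q) :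
    1 - permBound G - ∑ P ∈ Q, pairBound G (LinearMap.ker (aeval (adj G) P.1)) (leftKer G P.2) ≤
      syncRatio G := by
  classical
  have hpos : (0 : ℝ) < (k.factorial : ℝ) ^ n :=
    pow_pos (by exact_mod_cast Nat.factorial_pos k) n
  -- the union
  have h1 : ((univ : Finset (Coloring n k)).filter fun c => ¬ Synchronizing G c) ⊆
      ((univ : Finset (Coloring n k)).filter fun c => PermColoring G c ∧
        ¬ Synchronizing G c) ∪
      Q.biUnion fun P => orth2 G (LinearMap.ker (aeval (adj G) P.1)) (leftKer G P.2) := by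
    intro c hc
    have hc' := (mem_filter.1 hc).2
    rw [mem_union]
    rcases sync_or_perm_or_pair hk hG hm a hchar ha hnd c with h | h | h
    · exact absurd h hc'
    · exact Or.inl (mem_filter.2 ⟨mem_univ _, h, hc'⟩)
    · obtain ⟨g, g', hg, hg', hgg, hg1, hg'1, hall⟩ := h
      right
      rw [mem_biUnion]
      exact ⟨(g, g'), hQ g g' hg hg' hgg hg1 hg'1, mem_filter.2 ⟨mem_univ _, hall⟩⟩
  have h2 := (card_le_card h1).trans ((card_union_le _ _).trans
    (Nat.add_le_add_left card_biUnion_le _))
  rw [syncRatio_eq, card_coloring]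
  have h3 : (((univ : Finset (Coloring n k)).filter fun c => ¬ Synchronizing G c).card : ℝ) /
      (k.factorial : ℝ) ^ n ≤ permBound G +
        ∑ P ∈ Q, pairBound G (LinearMap.ker (aeval (adj G) P.1)) (leftKer G P.2) := by
    calc _ ≤ ((((univ : Finset (Coloring n k)).filter fun c => PermColoring G c ∧
          ¬ Synchronizing G c).card : ℝ) + ∑ P ∈ Q,
            ((orth2 G (LinearMap.ker (aeval (adj G) P.1)) (leftKer G P.2)).card : ℝ)) /
            (k.factorial : ℝ) ^ n := by
          apply div_le_div_of_nonneg_right _ hpos.le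
          exact_mod_cast h2
      _ = (((univ : Finset (Coloring n k)).filter fun c => PermColoring G c ∧
          ¬ Synchronizing G c).card : ℝ) / (k.factorial : ℝ) ^ n +
          ∑ P ∈ Q, ((orth2 G (LinearMap.ker (aeval (adj G) P.1)) (leftKer G P.2)).card : ℝ) /
            (k.factorial : ℝ) ^ n := by
          rw [add_div, sum_div]
      _ ≤ _ := by
          apply add_le_add (permRatio_le hk hG)
          exact sum_le_sum fun P _ => card_orth2_div_le hk _ _
  linarith

end Pool.Agent.H98.SPC
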