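import Pool.Agent.H98.SPC.Permutation

/-!
# The number of the permutation colorings
-/

namespace Pool.Agent.H98.SPC

open Finset Module Polynomial
open Pool.Agent.H10.Sync Pool.Agent.H82.SR

variable {n k : ℕ} {G : OutRegular n k}

/-- The functions whose weighted sum is zero. -/
def wperp (w : Fin n → ℚ) : Submodule ℚ (Fin n → ℚ) where
  carrier := {f | ∑ v, w v * f v = 0}
  add_mem' := by
    intro f g hf hg
    rw [Set.mem_setOf_eq] at hf hg ⊢
    simp only [Pi.add_apply, mul_add, sum_add_distrib, hf, hg, add_zero]
  zero_mem' := by simp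
  smul_mem' := by
    intro c f hf
    rw [Set.mem_setOf_eq] at hf ⊢
    have h1 : ∀ v, w v * (c • f) v = c * (w v * f v) := by
      intro v
      rw [Pi.smul_apply, smul_eq_mul]
      ring
    rw [sum_congr rfl fun v _ => h1 v, ← mul_sum, hf, mul_zero]

theorem mem_wperp {w f : Fin n → ℚ} : f ∈ wperp w ↔ ∑ v, w v * f v = 0 := Iff.rfl

theorem one_notMem_wperp (hne : Nonempty (Fin n)) {w : Fin n → ℚ} (hw : ∀ v, 0 < w v) :
    (fun _ => (1 : ℚ)) ∉ wperp w := by
  obtain ⟨v0⟩ := hne
  rw [mem_wperp]
  simp only [mul_one]
  exact (sum_pos (fun v _ => hw v) ⟨v0, mem_univ v0⟩).ne'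

theorem finrank_wperp (w : Fin n → ℚ) : n ≤ finrank ℚ (wperp w) + 1 := by
  set M : (Fin n → ℚ) →ₗ[ℚ] ℚ :=
    { toFun := fun f => ∑ v, w v * f v
      map_add' := by
        intro f g
        simp only [Pi.add_apply, mul_add, sum_add_distrib]
      map_smul' := by
        intro c f
        simp only [Pi.smul_apply, smul_eq_mul, RingHom.id_apply, mul_sum]
        refine sum_congr rfl fun v _ => ?_
        ring } with hM
  have h1 : LinearMap.ker M = wperp w := rfl
  have h2 := LinearMap.finrank_range_add_finrank_ker M
  have h3 : finrank ℚ (LinearMap.range M) ≤ 1 := by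
    have := Submodule.finrank_le (LinearMap.range M)
    rwa [finrank_self] at this
  have h4 : finrank ℚ (Fin n → ℚ) = n := by simp
  rw [h1] at h2
  omega

/-- The weights are constant if there is a permutation coloring. -/
theorem weight_const (hG : Primitive G) {w : Fin n → ℚ} (hw : IsWeight G w) {c : Coloring n k}
    (hc : PermColoring G c) (v : Fin n) : n * w v = ∑ u, w u := by
  classical
  set L : (Fin n → ℚ) →ₗ[ℚ] ℚ :=
    { toFun := fun f => ∑ v, f v
      map_add' := by
        intro f g
        simp only [Pi.add_apply, sum_add_distrib]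
      map_smul' := by
        intro c f
        simp only [Pi.smul_apply, smul_eq_mul, RingHom.id_apply, mul_sum] } with hL
  have hLapp : ∀ f, L f = ∑ v, f v := fun f => rfl
  have h1 : ∀ f, L (adj G f) = k * L f := by
    intro f
    rw [hLapp, hLapp]
    have h2 : ∀ v, adj G f v = ∑ i, f (step G c v i) := by
      intro v
      rw [adj_apply]
      exact (Equiv.sum_comp (c v).symm fun e => f (G v e)).symm
    rw [sum_congr rfl fun v _ => h2 v, sum_comm]
    have h3 : ∀ i, ∑ v, f (step G c v i) = ∑ v, f v := by
      intro i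
      exact Function.Bijective.sum_comp (hc i) f
    rw [sum_congr rfl fun i _ => h3 i, sum_const, card_univ, Fintype.card_fin, nsmul_eq_mul]
  have h2 := functional_eq hG hw L h1 (Pi.single v 1)
  rw [hLapp, hLapp] at h2
  have h3 : ∑ u, (Pi.single v 1 : Fin n → ℚ) u = 1 := by
    rw [Finset.sum_pi_single']
    simp
  have h4 : ∑ u, w u * (Pi.single v 1 : Fin n → ℚ) u = w v := by
    rw [Finset.sum_eq_single v]
    · rw [Pi.single_eq_same, mul_one]
    · intro u _ hu
      rw [Pi.single_eq_of_ne hu, mul_zero]
    · intro h
      exact absurd (mem_univ v) h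
  rw [h3, h4, sum_const, card_univ, Fintype.card_fin, nsmul_eq_mul, mul_one, mul_one] at h2
  linarith

theorem perm_mem_orth (hG : Primitive G) {w : Fin n → ℚ} (hw : IsWeight G w) {c : Coloring n k}
    (hc : PermColoring G c) : c ∈ orth G w (wperp w) := by
  obtain ⟨v0⟩ := nonempty_of_primitive hG
  rw [mem_orth]
  intro f hf i
  have hconst := weight_const hG hw hc
  have hn : (n : ℚ) ≠ 0 := by
    have : n ≠ 0 := by
      rintro rfl
      exact v0.elim0
    exact_mod_cast this
  have h1 : ∀ u, w u = w v0 := by
    intro u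
    have h2 := (hconst u).trans (hconst v0).symm
    exact mul_left_cancel₀ hn h2
  rw [mem_wperp] at hf
  rw [sum_congr rfl fun v _ => by rw [h1 v], ← mul_sum] at hf ⊢
  rw [Function.Bijective.sum_comp (hc i) f]
  exact hf

open Classical in
theorem card_perm_le (hk : 1 ≤ k) (hG : Primitive G) :
    ((univ : Finset (Coloring n k)).filter fun c => PermColoring G c).card *
      2 ^ (n - outComponents G) ≤ k.factorial ^ n := by
  obtain ⟨w, hw⟩ := exists_weight hG
  have hne := nonempty_of_primitive hG
  have h1 := orth_rank hk G (fun v => (hw.1 v).ne') (wperp w)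
  have h2 : ((univ : Finset (Coloring n k)).filter fun c => PermColoring G c).card ≤
      (orth G w (wperp w)).card := by
    apply card_le_card
    intro c hc
    exact perm_mem_orth hG hw (mem_filter.1 hc).2
  have h3 := finrank_wperp w
  have h4 : finrank ℚ (wperp w ⊓ outConst G ∅ : Submodule ℚ (Fin n → ℚ)) < outComponents G := by
    rw [← finrank_outConst G]
    apply Submodule.finrank_lt_finrank_of_lt
    refine lt_of_le_of_ne inf_le_right ?_
    intro h4
    apply one_notMem_wperp hne hw.1
    have h5 : (fun _ => (1 : ℚ)) ∈ outConst G ∅ := fun _ _ _ _ => rfl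
    rw [← h4] at h5
    exact h5.1
  calc _ ≤ (orth G w (wperp w)).card * 2 ^ (finrank ℚ (wperp w) -
        finrank ℚ (wperp w ⊓ outConst G ∅ : Submodule ℚ (Fin n → ℚ))) := by
        apply Nat.mul_le_mul h2
        apply Nat.pow_le_pow_right (by norm_num)
        omega
    _ ≤ _ := h1

open Classical in
/-- At most a fraction `1 / k` of the colorings are permutation colorings without being
synchronizing. -/
theorem card_perm_le' (hk : 1 ≤ k) (hG : Primitive G) :
    k * ((univ : Finset (Coloring n k)).filter fun c => PermColoring G c ∧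
      ¬ Synchronizing G c).card ≤ Fintype.card (Coloring n k) := by
  obtain ⟨w, hw⟩ := exists_weight hG
  have hne := nonempty_of_primitive hG
  by_cases hbot : wperp w = ⊥
  · -- one vertex
    have h3 := finrank_wperp w
    rw [hbot, finrank_bot] at h3
    have h4 : ((univ : Finset (Coloring n k)).filter fun c => PermColoring G c ∧
        ¬ Synchronizing G c) = ∅ := by
      rw [filter_eq_empty_iff]
      rintro c _ ⟨-, hc⟩
      apply hc
      obtain ⟨v0⟩ := hne
      refine ⟨[], v0, fun q => ?_⟩
      apply Fin.ext
      have h5 := q.2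
      have h6 := v0.2
      change (q : ℕ) = v0
      omega
    rw [h4]
    simp
  · have h1 := orth_invariant hk hG hw.1 hbot (fun f hf => by
      rw [mem_wperp] at hf ⊢
      rw [hw.2 f, hf, mul_zero])
    refine le_trans ?_ h1
    apply Nat.mul_le_mul_left
    apply card_le_card
    intro c hc
    exact perm_mem_orth hG hw (mem_filter.1 hc).2.1

end Pool.Agent.H98.SPC
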