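import Mathlib

/-!
# Permutations with the same fibre pattern
-/

namespace Pool.Agent.H98.SPC

open Finset

theorem two_pow_le_fact (s : ℕ) : 2 ^ (s - 1) ≤ s.factorial := by
  induction s with
  | zero => simp
  | succ n ih =>
    rcases n with _ | m
    · simp
    · rw [Nat.factorial_succ]
      calc 2 ^ (m + 1 + 1 - 1) = 2 * 2 ^ (m + 1 - 1) := by
            simp only [Nat.add_sub_cancel]; ring
        _ ≤ (m + 1 + 1) * (m + 1).factorial := Nat.mul_le_mul (by omega) ih

theorem perm_fibre {k : ℕ} {α : Type*} [DecidableEq α] (p : Fin k → α)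
    (C : Finset (Equiv.Perm (Fin k)))
    (hC : ∀ σ ∈ C, ∀ τ ∈ C, ∀ i, p (σ.symm i) = p (τ.symm i)) :
    C.card * 2 ^ (((univ : Finset (Fin k)).image p).card - 1) ≤ k.factorial := by
  classical
  set S : Finset α := (univ : Finset (Fin k)).image p with hS
  have hrep : ∀ A : S, ∃ i : Fin k, p i = A := by
    intro A
    obtain ⟨i, -, hi⟩ := Finset.mem_image.1 A.2
    exact ⟨i, hi⟩
  choose rep hrep using hrep
  have hinj : Function.Injective rep := by
    intro A B hAB
    apply Subtype.ext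
    rw [← hrep A, ← hrep B, hAB]
  let e : S ↪ Fin k := ⟨rep, hinj⟩
  have he : ∀ A : S, p (e A) = A := hrep
  let F : Equiv.Perm (Fin k) × Equiv.Perm S → Equiv.Perm (Fin k) :=
    fun x => (x.2.viaFintypeEmbedding e) * x.1⁻¹
  have hF : Set.InjOn F (C ×ˢ (univ : Finset (Equiv.Perm S)) : Finset _) := by
    rintro ⟨σ₁, ρ₁⟩ h₁ ⟨σ₂, ρ₂⟩ h₂ h
    have h₁' : σ₁ ∈ C := (Finset.mem_product.1 h₁).1
    have h₂' : σ₂ ∈ C := (Finset.mem_product.1 h₂).1
    have hval : ∀ i, ρ₁.viaFintypeEmbedding e (σ₁.symm i) =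
        ρ₂.viaFintypeEmbedding e (σ₂.symm i) := fun i => Equiv.ext_iff.1 h i
    have hρ : ρ₁ = ρ₂ := by
      apply Equiv.ext
      intro A
      -- the point `σ₁ (e A)`
      have h3 := hval (σ₁ (e A))
      rw [Equiv.symm_apply_apply, Equiv.Perm.viaFintypeEmbedding_apply_image] at h3
      -- `σ₂.symm (σ₁ (e A))` is the representative of `ρ₂.symm (ρ₁ A)`
      have h4 : ρ₂.viaFintypeEmbedding e (e (ρ₂.symm (ρ₁ A))) = e (ρ₁ A) := by
        rw [Equiv.Perm.viaFintypeEmbedding_apply_image, Equiv.apply_symm_apply]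
      have h5 : e (ρ₂.symm (ρ₁ A)) = σ₂.symm (σ₁ (e A)) :=
        (ρ₂.viaFintypeEmbedding e).injective (h4.trans h3)
      have h6 : p (σ₂.symm (σ₁ (e A))) = p (σ₁.symm (σ₁ (e A))) := hC σ₂ h₂' σ₁ h₁' _
      rw [← h5, he, Equiv.symm_apply_apply, he] at h6
      have h7 : ρ₂.symm (ρ₁ A) = A := Subtype.ext h6
      rw [Equiv.symm_apply_eq] at h7
      exact h7
    subst hρ
    have hσ : σ₁ = σ₂ := by
      have h8 : ∀ i, σ₁.symm i = σ₂.symm i := fun i =>
        (ρ₁.viaFintypeEmbedding e).injective (hval i)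
      have h9 : σ₁.symm = σ₂.symm := Equiv.ext h8
      rw [← Equiv.symm_symm σ₁, h9, Equiv.symm_symm]
    rw [hσ]
  have hcard : (C ×ˢ (univ : Finset (Equiv.Perm S))).card ≤ k.factorial := by
    have h1 := Finset.card_le_card_of_injOn (s := C ×ˢ (univ : Finset (Equiv.Perm S)))
      (t := (univ : Finset (Equiv.Perm (Fin k)))) F (fun _ _ => Finset.mem_coe.2 (Finset.mem_univ _)) hF
    rwa [Finset.card_univ, Fintype.card_perm, Fintype.card_fin] at h1
  rw [Finset.card_product, Finset.card_univ, Fintype.card_perm, Fintype.card_coe] at hcard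
  exact (Nat.mul_le_mul_left _ (two_pow_le_fact _)).trans hcard

end Pool.Agent.H98.SPC
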