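import Pool.Agent.H98.SPC.Factor

/-!
# Colorings whose invariant subspace is large
-/

namespace Pool.Agent.H98.SPC

open Finset Module Polynomial
open Pool.Agent.H10.Sync Pool.Agent.H82.SR

variable {n k : ℕ} {G : OutRegular n k}

/-- A functional which is multiplied by `k` is proportional to the weights. -/
theorem functional_eq (hG : Primitive G) {w : Fin n → ℚ} (hw : IsWeight G w)
    (L : (Fin n → ℚ) →ₗ[ℚ] ℚ) (hL : ∀ f, L (adj G f) = k * L f) (f : Fin n → ℚ) :
    (∑ v, w v) * L f = (∑ v, w v * f v) * L (fun _ => 1) := by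
  classical
  obtain ⟨v0⟩ := nonempty_of_primitive hG
  set M : (Fin n → ℚ) →ₗ[ℚ] ℚ :=
    { toFun := fun f => ∑ v, w v * f v
      map_add' := by
        intro f g
        simp only [Pi.add_apply, mul_add, sum_add_distrib]
      map_smul' := by
        intro c f
        simp only [Pi.smul_apply, smul_eq_mul, RingHom.id_apply, mul_sum]
        refine sum_congr rfl fun v _ => ?_
        ring } with hM
  have hMapp : ∀ f, M f = ∑ v, w v * f v := fun f => rfl
  set D : (Fin n → ℚ) →ₗ[ℚ] (Fin n → ℚ) := adj G - (k : ℚ) • LinearMap.id with hD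
  have hDapp : ∀ f, D f = adj G f - (k : ℚ) • f := fun f => rfl
  have hW : 0 < ∑ v, w v := sum_pos (fun v _ => hw.1 v) ⟨v0, mem_univ v0⟩
  -- the kernel
  have hker : finrank ℚ (LinearMap.ker D) ≤ 1 := by
    apply finrank_le_one (⟨fun _ => 1, by
      rw [LinearMap.mem_ker, hDapp]
      funext v
      rw [Pi.sub_apply, adj_apply, Pi.smul_apply, sum_const, card_univ, Fintype.card_fin,
        nsmul_eq_mul, smul_eq_mul, sub_self]
      rfl⟩ : LinearMap.ker D)
    rintro ⟨g, hg⟩
    rw [LinearMap.mem_ker, hDapp] at hg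
    have hc := const_of_adj_eq hG (f := g) fun v => by
      have h1 := congrFun hg v
      rw [Pi.sub_apply, Pi.smul_apply, smul_eq_mul, Pi.zero_apply] at h1
      linarith
    refine ⟨g v0, ?_⟩
    apply Subtype.ext
    funext v
    change g v0 * 1 = g v
    rw [mul_one, hc v v0]
  have hrk := LinearMap.finrank_range_add_finrank_ker D
  have hn : finrank ℚ (Fin n → ℚ) = n := by simp
  have hMdim : finrank ℚ (LinearMap.ker M) < n := by
    have h3 : finrank ℚ (LinearMap.ker M) < finrank ℚ (Fin n → ℚ) := by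
      apply Submodule.finrank_lt
      intro htop
      have h4 : (fun _ => (1 : ℚ)) ∈ LinearMap.ker M := by
        rw [htop]
        exact Submodule.mem_top
      rw [LinearMap.mem_ker, hMapp] at h4
      simp only [mul_one] at h4
      exact hW.ne' h4
    rwa [hn] at h3
  have hle : LinearMap.range D ≤ LinearMap.ker M := by
    rintro _ ⟨g, rfl⟩
    rw [LinearMap.mem_ker, hDapp, map_sub, map_smul, hMapp, hMapp, hw.2 g, smul_eq_mul, sub_self]
  have heq : LinearMap.range D = LinearMap.ker M :=
    Submodule.eq_of_le_of_finrank_le hle (by omega)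
  have hLker : LinearMap.ker M ≤ LinearMap.ker L := by
    rw [← heq]
    rintro _ ⟨g, rfl⟩
    rw [LinearMap.mem_ker, hDapp, map_sub, map_smul, hL, smul_eq_mul, sub_self]
  have h1 : (∑ v, w v) • f - (∑ v, w v * f v) • (fun _ => (1 : ℚ)) ∈ LinearMap.ker M := by
    rw [LinearMap.mem_ker, map_sub, map_smul, map_smul, hMapp, hMapp]
    simp only [mul_one, smul_eq_mul]
    ring
  have h2 := LinearMap.mem_ker.1 (hLker h1)
  rw [map_sub, map_smul, map_smul, smul_eq_mul, smul_eq_mul] at h2
  linarith

/-- If the kernel of `g(A)` is contained in the span of the block family of a coloring, where the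
characteristic polynomial is `(X - k) X ^ b g`, then the coloring is a permutation coloring. -/
theorem card_eq_of_ker_le (hG : Primitive G) {m : Fin n → ℕ}
    (hm : IsWeight G (fun v => (m v : ℚ))) {g : ℚ[X]} {b : ℕ}
    (hchar : (adj G).charpoly = (X - C (k : ℚ)) * X ^ b * g)
    (hb : b = 0 ∨ Nat.Coprime (∑ v, m v) k) {S : Finset (Fin n)} (h0 : 0 < S.card)
    (hS : ∀ f ∈ LinearMap.ker (aeval (adj G) g), ∑ s ∈ S, f s = 0) : n ≤ S.card := by
  classical
  obtain ⟨v0⟩ := nonempty_of_primitive hG
  set L : (Fin n → ℚ) →ₗ[ℚ] ℚ :=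
    { toFun := fun f => ∑ s ∈ S, (((adj G) ^ b) f) s
      map_add' := by
        intro f g
        rw [map_add]
        simp only [Pi.add_apply, sum_add_distrib]
      map_smul' := by
        intro c f
        rw [map_smul]
        simp only [Pi.smul_apply, smul_eq_mul, RingHom.id_apply, mul_sum] } with hL
  have hLapp : ∀ f, L f = ∑ s ∈ S, (((adj G) ^ b) f) s := fun f => rfl
  have h1 : ∀ f, L (adj G f) = k * L f := by
    intro f
    have h2 : aeval (adj G) ((X - C (k : ℚ)) * X ^ b) f ∈ LinearMap.ker (aeval (adj G) g) := by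
      rw [LinearMap.mem_ker, ← Module.End.mul_apply, ← map_mul, mul_comm g, ← hchar,
        LinearMap.aeval_self_charpoly]
      rfl
    have h3 := hS _ h2
    rw [sub_mul, map_sub, map_mul, map_mul, aeval_C, map_pow, aeval_X, LinearMap.sub_apply,
      Module.End.mul_apply, Module.End.mul_apply, Module.algebraMap_end_apply] at h3
    simp only [Pi.sub_apply, Pi.smul_apply, smul_eq_mul, sum_sub_distrib, ← mul_sum] at h3
    rw [hLapp, hLapp, ← Module.End.mul_apply, ← pow_succ, pow_succ', Module.End.mul_apply]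
    linarith
  have hL1 : L (fun _ => 1) = S.card * (k : ℚ) ^ b := by
    rw [hLapp, iterate_const, sum_const, nsmul_eq_mul, mul_one]
  -- the weights divide
  have h2 : ∀ v, (∑ u, m u) ∣ S.card * m v := by
    intro v
    obtain ⟨N, hN⟩ := exists_nat_iterate (G := G) b (fun u => if u = v then 1 else 0)
    have h3 := functional_eq hG hm L h1 (fun u => ((if u = v then 1 else 0 : ℕ) : ℚ))
    rw [hLapp, hN, hL1] at h3
    have h4 : ∑ u, (m u : ℚ) * ((if u = v then 1 else 0 : ℕ) : ℚ) = m v := by
      rw [Finset.sum_eq_single v]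
      · simp
      · intro u _ hu
        simp [hu]
      · intro h
        exact absurd (mem_univ v) h
    rw [h4] at h3
    beta_reduce at h3
    have h5 : (∑ u, m u) * ∑ s ∈ S, N s = m v * (S.card * k ^ b) := by
      exact_mod_cast h3
    have h6 : (∑ u, m u) ∣ (S.card * m v) * k ^ b := ⟨_, by rw [h5]; ring⟩
    rcases hb with hb | hb
    · rw [hb, pow_zero, mul_one] at h6
      exact h6
    · exact (Nat.Coprime.pow_right b hb).dvd_of_dvd_mul_right h6
  -- a vertex of minimal weight
  obtain ⟨v, -, hv⟩ := exists_min_image univ m ⟨v0, mem_univ v0⟩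
  have hmv : 0 < m v := by
    have h3 := hm.1 v
    beta_reduce at h3
    exact_mod_cast h3
  have h3 : n * m v ≤ ∑ u, m u := by
    calc n * m v = ∑ _u : Fin n, m v := by simp
      _ ≤ ∑ u, m u := sum_le_sum fun u _ => hv u (mem_univ u)
  have h4 : ∑ u, m u ≤ S.card * m v := Nat.le_of_dvd (Nat.mul_pos h0 hmv) (h2 v)
  exact Nat.le_of_mul_le_mul_right (h3.trans h4) hmv

/-- If the block family of a coloring has `n` blocks, then the coloring is a permutation
coloring. -/
theorem perm_of_card {r : ℕ} (hr : 2 ≤ r) (hn : n ≤ r) {w : Fin n → ℚ} (hw : IsWeight G w)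
    (hne : Nonempty (Fin n)) {F : Set (Fin n → Fin r)}
    (hF : BlockFamily G w F) {c : Coloring n k}
    (hstep : ∀ f ∈ blockSpan F, ∀ i, (fun v => f (step G c v i)) ∈ blockSpan F) :
    PermColoring G c := by
  classical
  obtain ⟨-, hadm⟩ := blockSpan_admissible hw hr hF
  obtain ⟨φ, hφ⟩ := hF.1
  have hr0 : (r : ℚ) ≠ 0 := by
    have : r ≠ 0 := by omega
    exact_mod_cast this
  have hsurj : Function.Surjective φ := by
    intro l
    by_contra hcon
    push Not at hcon
    have h1 := (hF.2 φ hφ).1 l
    have h2 : (univ.filter fun v => φ v = l) = ∅ := by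
      rw [filter_eq_empty_iff]
      intro v _
      exact hcon v
    rw [h2, sum_empty, mul_zero] at h1
    obtain ⟨v0⟩ := hne
    have h3 : 0 < ∑ v, w v := sum_pos (fun v _ => hw.1 v) ⟨v0, mem_univ v0⟩
    linarith
  have hinj : Function.Injective φ := by
    have h1 : Fintype.card (Fin n) = Fintype.card (Fin r) := by
      rw [Fintype.card_fin, Fintype.card_fin]
      refine le_antisymm hn ?_
      have h2 := Fintype.card_le_of_surjective φ hsurj
      simpa using h2
    exact ((Fintype.bijective_iff_surjective_and_card φ).2 ⟨hsurj, h1⟩).1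
  intro i
  apply Finite.surjective_iff_bijective.1
  intro y
  by_contra hcon
  push Not at hcon
  have h1 := hstep _ (cind_mem hφ (φ y)) i
  have h2 : (fun v => cind φ (φ y) (step G c v i)) = fun _ => - (1 / (r : ℚ)) := by
    funext v
    unfold cind
    rw [if_neg fun h => hcon v (hinj h)]
    ring
  rw [h2] at h1
  apply hadm.2.1
  have h3 : (fun _ => (1 : ℚ) : Fin n → ℚ) = (- (r : ℚ)) • fun _ => - (1 / (r : ℚ)) := by
    funext v
    rw [Pi.smul_apply, smul_eq_mul]
    field_simp
  rw [h3]
  exact Submodule.smul_mem _ _ h1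

end Pool.Agent.H98.SPC
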