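import Pool.Agent.H98.SPC.Weights
import Pool.Agent.H82.SR.LinearZero

/-!
# Invariant subspaces without the constant function are orthogonal to the weights
-/

namespace Pool.Agent.H98.SPC

open Finset
open Pool.Agent.H10.Sync Pool.Agent.H82.SR

variable {n k : ℕ} {G : OutRegular n k}

/-- An invariant subspace which does not contain the constant function `1` is orthogonal to the
weights. -/
theorem perp (hG : Primitive G) {w : Fin n → ℚ} (hw : IsWeight G w)
    {U : Submodule ℚ (Fin n → ℚ)} (h1 : ∀ f ∈ U, adj G f ∈ U) (h2 : (fun _ => (1 : ℚ)) ∉ U)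
    {f : Fin n → ℚ} (hf : f ∈ U) : ∑ v, w v * f v = 0 := by
  classical
  have hne := nonempty_of_primitive hG
  let D : (Fin n → ℚ) →ₗ[ℚ] (Fin n → ℚ) := adj G - (k : ℚ) • LinearMap.id
  have hD : ∀ g v, D g v = adj G g v - k * g v := by
    intro g v
    simp [D]
  have hDU : ∀ g ∈ U, D g ∈ U := by
    intro g hg
    have : D g = adj G g - (k : ℚ) • g := by
      simp [D]
    rw [this]
    exact U.sub_mem (h1 g hg) (U.smul_mem _ hg)
  let T : U →ₗ[ℚ] U := D.restrict hDU
  have hT : Function.Injective T := by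
    rw [← LinearMap.ker_eq_bot, LinearMap.ker_eq_bot']
    rintro ⟨g, hg⟩ hgT
    have h3 : D g = 0 := congrArg Subtype.val hgT
    have h4 : ∀ v, adj G g v = k * g v := by
      intro v
      have := congrFun h3 v
      rw [hD] at this
      exact sub_eq_zero.1 this
    have h5 := const_of_adj_eq hG h4
    obtain ⟨v0⟩ := hne
    have h6 : g v0 = 0 := by
      by_contra hne0
      apply h2
      have h7 : (fun _ => (1 : ℚ)) = (g v0)⁻¹ • g := by
        funext v
        simp only [Pi.smul_apply, smul_eq_mul]
        rw [h5 v v0, inv_mul_cancel₀ hne0]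
      rw [h7]
      exact U.smul_mem _ hg
    apply Subtype.ext
    funext v
    change g v = 0
    rw [h5 v v0, h6]
  let L : (Fin n → ℚ) →ₗ[ℚ] ℚ := ∑ v, w v • LinearMap.proj v
  have hL : ∀ g, L g = ∑ v, w v * g v := by
    intro g
    simp only [L, LinearMap.sum_apply, LinearMap.smul_apply, LinearMap.proj_apply, smul_eq_mul]
  have h3 := linear_zero T hT (L.comp U.subtype) (by
    rintro ⟨g, hg⟩
    change L (D g) = 0
    rw [hL]
    simp only [hD, mul_sub, sum_sub_distrib]
    rw [hw.2 g, mul_sum, ← sum_sub_distrib]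
    apply sum_eq_zero
    intro v _
    ring) ⟨f, hf⟩
  rw [← hL]
  exact h3

end Pool.Agent.H98.SPC
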