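import Pool.Agent.H98.SPC.Union

/-!
# Invariant subspaces and the irreducible factors of the characteristic polynomial
-/

namespace Pool.Agent.H98.SPC

open Finset Module Polynomial
open Pool.Agent.H10.Sync

variable {n k : ℕ} {G : OutRegular n k}

theorem aeval_mem {U : Submodule ℚ (Fin n → ℚ)} (h1 : ∀ f ∈ U, adj G f ∈ U) (P : ℚ[X]) :
    ∀ f ∈ U, aeval (adj G) P f ∈ U := by
  induction P using Polynomial.induction_on' with
  | add p q hp hq =>
    intro f hf
    rw [map_add, LinearMap.add_apply]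
    exact U.add_mem (hp f hf) (hq f hf)
  | monomial m a =>
    intro f hf
    rw [aeval_monomial, Module.End.mul_apply, Module.algebraMap_end_apply]
    refine U.smul_mem _ ?_
    have h3 : ∀ m, ((adj G) ^ m) f ∈ U := by
      intro m
      induction m with
      | zero => exact hf
      | succ m ih =>
        rw [pow_succ', Module.End.mul_apply]
        exact h1 _ ih
    exact h3 m

/-- An invariant subspace which meets the kernel of `q(A)`, `q` irreducible, contains a subspace of
this kernel whose dimension is the degree of `q`. -/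
theorem natDegree_le_finrank {U : Submodule ℚ (Fin n → ℚ)} (h1 : ∀ f ∈ U, adj G f ∈ U)
    {q : ℚ[X]} (hq : Irreducible q) {f : Fin n → ℚ} (hf : f ∈ U) (hf0 : f ≠ 0)
    (hqf : aeval (adj G) q f = 0) :
    q.natDegree ≤ finrank ℚ (U ⊓ LinearMap.ker (aeval (adj G) q) : Submodule ℚ (Fin n → ℚ)) := by
  classical
  have hq0 : q ≠ 0 := hq.ne_zero
  have hker : ∀ P : ℚ[X], aeval (adj G) q (aeval (adj G) P f) = 0 := by
    intro P
    rw [← Module.End.mul_apply, ← map_mul, mul_comm, map_mul, Module.End.mul_apply, hqf, map_zero]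
  let E : Polynomial.degreeLT ℚ q.natDegree →ₗ[ℚ]
      (U ⊓ LinearMap.ker (aeval (adj G) q) : Submodule ℚ (Fin n → ℚ)) :=
    { toFun := fun P => ⟨aeval (adj G) (P : ℚ[X]) f,
        ⟨aeval_mem h1 _ f hf, LinearMap.mem_ker.2 (hker _)⟩⟩
      map_add' := by
        intro P Q
        apply Subtype.ext
        simp
      map_smul' := by
        intro a P
        apply Subtype.ext
        simp }
  have hE : Function.Injective E := by
    rw [← LinearMap.ker_eq_bot, LinearMap.ker_eq_bot']
    rintro ⟨P, hP⟩ hPE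
    have h3 : aeval (adj G) P f = 0 := congrArg Subtype.val hPE
    apply Subtype.ext
    change P = 0
    by_contra hP0
    rw [Polynomial.mem_degreeLT] at hP
    have h4 : ¬ q ∣ P := by
      intro hdvd
      have h5 := Polynomial.degree_le_of_dvd hdvd hP0
      rw [Polynomial.degree_eq_natDegree hq0] at h5
      exact absurd (lt_of_le_of_lt h5 hP) (lt_irrefl _)
    have h5 : IsCoprime q P := (hq.coprime_iff_not_dvd).2 h4
    obtain ⟨a, b, hab⟩ := h5
    apply hf0
    have h6 : aeval (adj G) (a * q + b * P) f = f := by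
      rw [hab, map_one]
      rfl
    rw [← h6, map_add, map_mul, map_mul, LinearMap.add_apply, Module.End.mul_apply,
      Module.End.mul_apply, hqf, h3, map_zero, map_zero, add_zero]
  have h3 := LinearMap.finrank_le_finrank_of_injective hE
  have h4 : finrank ℚ (Polynomial.degreeLT ℚ q.natDegree) = q.natDegree := by
    rw [(Polynomial.degreeLTEquiv ℚ q.natDegree).finrank_eq]
    simp
  rw [h4] at h3
  exact h3

theorem ker_le {U : Submodule ℚ (Fin n → ℚ)} (h1 : ∀ f ∈ U, adj G f ∈ U)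
    {q : ℚ[X]} (hq : Irreducible q) (hdim : finrank ℚ (LinearMap.ker (aeval (adj G) q)) ≤ q.natDegree)
    {f : Fin n → ℚ} (hf : f ∈ U) (hf0 : f ≠ 0) (hqf : aeval (adj G) q f = 0) :
    LinearMap.ker (aeval (adj G) q) ≤ U := by
  have h2 := natDegree_le_finrank h1 hq hf hf0 hqf
  have h3 : U ⊓ LinearMap.ker (aeval (adj G) q) = LinearMap.ker (aeval (adj G) q) :=
    Submodule.eq_of_le_of_finrank_le inf_le_right (hdim.trans h2)
  rw [← h3]
  exact inf_le_left

theorem exists_factor {U : Submodule ℚ (Fin n → ℚ)} (h1 : ∀ f ∈ U, adj G f ∈ U) (P : ℚ[X]) :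
    P ≠ 0 → ∀ f ∈ U, f ≠ 0 → aeval (adj G) P f = 0 →
      ∃ q, Irreducible q ∧ q ∣ P ∧ ∃ g ∈ U, g ≠ 0 ∧ aeval (adj G) q g = 0 := by
  induction P using WfDvdMonoid.induction_on_irreducible with
  | zero => intro h; exact absurd rfl h
  | unit u hu =>
    intro _ f _ hf0 h
    exfalso
    obtain ⟨v, hv⟩ := hu.exists_left_inv
    apply hf0
    have h2 : aeval (adj G) (v * u) f = f := by
      rw [hv, map_one]
      rfl
    rw [← h2, map_mul, Module.End.mul_apply, h, map_zero]
  | mul a i ha hi ih =>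
    intro _ f hf hf0 h
    by_cases h2 : aeval (adj G) a f = 0
    · obtain ⟨q, hq, hqa, hg⟩ := ih ha f hf hf0 h2
      exact ⟨q, hq, Dvd.dvd.mul_left hqa i, hg⟩
    · refine ⟨i, hi, dvd_mul_right i a, _, aeval_mem h1 a f hf, h2, ?_⟩
      rw [← Module.End.mul_apply, ← map_mul]
      exact h

theorem exists_factor_ne_X {U : Submodule ℚ (Fin n → ℚ)} (h1 : ∀ f ∈ U, adj G f ∈ U) (P : ℚ[X]) :
    P ≠ 0 → ∀ f ∈ U, (∀ a : ℕ, ((adj G) ^ a) f ≠ 0) → aeval (adj G) P f = 0 →
      ∃ q, Irreducible q ∧ q ∣ P ∧ ¬ Associated q X ∧ ∃ g ∈ U, g ≠ 0 ∧ aeval (adj G) q g = 0 := by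
  induction P using WfDvdMonoid.induction_on_irreducible with
  | zero => intro h; exact absurd rfl h
  | unit u hu =>
    intro _ f _ hf0 h
    exfalso
    obtain ⟨v, hv⟩ := hu.exists_left_inv
    apply hf0 0
    rw [pow_zero, Module.End.one_apply]
    have h2 : aeval (adj G) (v * u) f = f := by
      rw [hv, map_one]
      rfl
    rw [← h2, map_mul, Module.End.mul_apply, h, map_zero]
  | mul a i ha hi ih =>
    intro _ f hf hf0 h
    by_cases hX : Associated i X
    · have h2 : ∀ b : ℕ, ((adj G) ^ b) (adj G f) ≠ 0 := by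
        intro b
        have h3 := hf0 (b + 1)
        rw [pow_succ, Module.End.mul_apply] at h3
        exact h3
      have h3 : aeval (adj G) a (adj G f) = 0 := by
        obtain ⟨u, hu⟩ := hX
        have h4 : aeval (adj G) (X * a) f = 0 := by
          rw [← hu, mul_right_comm, mul_comm, map_mul, Module.End.mul_apply, h, map_zero]
        rw [mul_comm, map_mul, aeval_X, Module.End.mul_apply] at h4
        exact h4
      obtain ⟨q, hq, hqa, hg⟩ := ih ha _ (h1 f hf) h2 h3
      exact ⟨q, hq, Dvd.dvd.mul_left hqa i, hg⟩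
    · by_cases h2 : aeval (adj G) a f = 0
      · obtain ⟨q, hq, hqa, hg⟩ := ih ha f hf hf0 h2
        exact ⟨q, hq, Dvd.dvd.mul_left hqa i, hg⟩
      · refine ⟨i, hi, dvd_mul_right i a, hX, _, aeval_mem h1 a f hf, h2, ?_⟩
        rw [← Module.End.mul_apply, ← map_mul]
        exact h

/-- The same with a monic factor. -/
theorem monic_of {q P : ℚ[X]} {U : Submodule ℚ (Fin n → ℚ)} (hq : Irreducible q) (hd : q ∣ P)
    (hg : ∃ g ∈ U, g ≠ 0 ∧ aeval (adj G) q g = 0) :
    ∃ q', q'.Monic ∧ Irreducible q' ∧ q' ∣ P ∧ Associated q q' ∧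
      ∃ g ∈ U, g ≠ 0 ∧ aeval (adj G) q' g = 0 := by
  obtain ⟨g, hgU, hg0, hgq⟩ := hg
  have hlc : IsUnit (C q.leadingCoeff⁻¹ : ℚ[X]) := by
    rw [Polynomial.isUnit_C]
    exact (isUnit_iff_ne_zero.2 (inv_ne_zero (leadingCoeff_ne_zero.2 hq.ne_zero)))
  have hass : Associated q (q * C q.leadingCoeff⁻¹) := (associated_mul_unit_left q _ hlc).symm
  refine ⟨q * C q.leadingCoeff⁻¹, monic_mul_leadingCoeff_inv hq.ne_zero,
    (hass.irreducible_iff).1 hq, (hass.dvd_iff_dvd_left).1 hd, hass, g, hgU, hg0, ?_⟩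
  rw [mul_comm, map_mul, Module.End.mul_apply, hgq, map_zero]

end Pool.Agent.H98.SPC
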