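import Pool.Agent.H98.SPC.Block

/-!
# Digraphs whose total weight is a prime number
-/

namespace Pool.Agent.H98.SPC

open Finset
open Pool.Agent.H10.Sync

variable {n k : ℕ} {G : OutRegular n k}

/-- Let the weights be positive integers whose sum is a prime number. Then the maps of a block
family are injective. -/
theorem injective_of_prime {m : Fin n → ℕ} (hm : IsWeight G (fun v => (m v : ℚ)))
    (hp : (∑ v, m v).Prime) {r : ℕ} (hr : 2 ≤ r) {F : Set (Fin n → Fin r)}
    (hF : BlockFamily G (fun v => (m v : ℚ)) F) {φ : Fin n → Fin r} (hφ : φ ∈ F) :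
    Function.Injective φ := by
  have h1 : ∀ l, r * ∑ v with φ v = l, m v = ∑ v, m v := by
    intro l
    have h2 := (hF.2 φ hφ).1 l
    beta_reduce at h2
    exact_mod_cast h2
  have hpos : ∀ v, 1 ≤ m v := by
    intro v
    have h2 := hm.1 v
    beta_reduce at h2
    have h3 : 0 < m v := by exact_mod_cast h2
    exact h3
  intro v v' hvv
  by_contra hne
  have h2 := h1 (φ v)
  have hdvd : r ∣ ∑ v, m v := ⟨_, h2.symm⟩
  have h3 : r = ∑ v, m v := by
    rcases (Nat.dvd_prime hp).1 hdvd with h4 | h4
    · omega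
    · exact h4
  have h4 : ∑ u with φ u = φ v, m u = 1 := by
    have h5 : r * ∑ u with φ u = φ v, m u = r * 1 := by
      rw [h2, mul_one, h3]
    exact Nat.eq_of_mul_eq_mul_left (by omega) h5
  have h5 : m v + m v' ≤ ∑ u with φ u = φ v, m u := by
    have h6 : ({v, v'} : Finset (Fin n)) ⊆ univ.filter fun u => φ u = φ v := by
      intro u hu
      rw [mem_insert, mem_singleton] at hu
      rw [mem_filter]
      refine ⟨mem_univ u, ?_⟩
      rcases hu with rfl | rfl
      · rfl
      · exact hvv.symm
    calc m v + m v' = ∑ u ∈ ({v, v'} : Finset (Fin n)), m u := (sum_pair hne).symm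
      _ ≤ _ := sum_le_sum_of_subset h6
  have h6 := hpos v
  have h7 := hpos v'
  omega

theorem ratio_ge_of_prime (hk : 2 ≤ k) (hG : Primitive G) {m : Fin n → ℕ}
    (hm : IsWeight G (fun v => (m v : ℚ))) (hp : (∑ v, m v).Prime) :
    1 - 1 / (k : ℝ) ≤ syncRatio G := by
  classical
  have hne := nonempty_of_primitive hG
  obtain ⟨a⟩ := hne
  by_cases hb : ∃ b, b ≠ a
  · obtain ⟨b, hb⟩ := hb
    have h0 : (Pi.single a 1 - Pi.single b 1 : Fin n → ℚ) ≠ 0 := by
      intro h
      have := congrFun h a
      rw [Pi.sub_apply, Pi.single_eq_same, Pi.single_eq_of_ne hb.symm] at this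
      norm_num at this
    refine ratio_ge_of_block hk hG hm h0 fun r hr F hF => ?_
    obtain ⟨φ, hφ⟩ := hF.1
    have hinj := injective_of_prime hm hp hr hF hφ
    have h1 : (Pi.single a 1 - Pi.single b 1 : Fin n → ℚ) = cind φ (φ a) - cind φ (φ b) := by
      funext v
      simp only [Pi.sub_apply, cind]
      have h2 : ∀ c, (Pi.single c 1 : Fin n → ℚ) v = if φ v = φ c then 1 else 0 := by
        intro c
        by_cases hvc : v = c
        · rw [hvc, Pi.single_eq_same, if_pos rfl]
        · rw [Pi.single_eq_of_ne hvc, if_neg fun h => hvc (hinj h)]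
      rw [h2, h2]
      ring
    rw [h1]
    exact Submodule.sub_mem _ (cind_mem hφ _) (cind_mem hφ _)
  · push Not at hb
    have h0 : (fun _ => 1 : Fin n → ℚ) ≠ 0 := by
      intro h
      exact one_ne_zero (congrFun h a)
    refine ratio_ge_of_block hk hG hm h0 fun r hr F hF => ?_
    exfalso
    obtain ⟨φ, hφ⟩ := hF.1
    have h1 : ∃ l, l ≠ φ a := by
      have : 1 < Fintype.card (Fin r) := by
        rw [Fintype.card_fin]
        omega
      exact Fintype.exists_ne_of_one_lt_card this (φ a)
    obtain ⟨l, hl⟩ := h1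
    have h2 := (hF.2 φ hφ).1 l
    have h3 : (univ.filter fun v => φ v = l) = ∅ := by
      rw [filter_eq_empty_iff]
      intro v _ hv
      rw [hb v] at hv
      exact hl hv.symm
    rw [h3, sum_empty, mul_zero] at h2
    beta_reduce at h2
    have h4 : (∑ v, m v) = 0 := by exact_mod_cast h2.symm
    rw [h4] at hp
    exact Nat.not_prime_zero hp

end Pool.Agent.H98.SPC
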