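import Pool.Agent.H98.SPC.Block
import Pool.Agent.H98.SPC.PermFibre

/-!
# The number of the colorings which are orthogonal to a subspace
-/

namespace Pool.Agent.H98.SPC

open Finset Module
open Pool.Agent.H10.Sync

variable {n k : ℕ}

/-- The functions which are constant on the out-neighbours of every vertex outside `T`. -/
def outConst (G : OutRegular n k) (T : Finset (Fin n)) : Submodule ℚ (Fin n → ℚ) where
  carrier := {f | ∀ v, v ∉ T → ∀ e e', f (G v e) = f (G v e')}
  add_mem' := by
    intro f g hf hg v hv e e'
    rw [Pi.add_apply, Pi.add_apply, hf v hv e e', hg v hv e e']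
  zero_mem' := by
    intro v _ e e'
    rfl
  smul_mem' := by
    intro a f hf v hv e e'
    rw [Pi.smul_apply, Pi.smul_apply, hf v hv e e']

theorem mem_outConst {G : OutRegular n k} {T : Finset (Fin n)} {f : Fin n → ℚ} :
    f ∈ outConst G T ↔ ∀ v, v ∉ T → ∀ e e', f (G v e) = f (G v e') := Iff.rfl

theorem outConst_mono (G : OutRegular n k) {S T : Finset (Fin n)} (h : S ⊆ T) :
    outConst G S ≤ outConst G T := fun _ hf v hv => hf v fun h' => hv (h h')

open Classical in
/-- The class of the edge `e` of the vertex `a` for the functions in `U`. -/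
noncomputable def ecls (G : OutRegular n k) (U : Submodule ℚ (Fin n → ℚ)) (a : Fin n)
    (e : Fin k) : Finset (Fin k) :=
  univ.filter fun e' => ∀ f ∈ U, f (G a e) = f (G a e')

theorem ecls_eq {G : OutRegular n k} {U : Submodule ℚ (Fin n → ℚ)} {a : Fin n} {e e' : Fin k} :
    ecls G U a e = ecls G U a e' ↔ ∀ f ∈ U, f (G a e) = f (G a e') := by
  classical
  unfold ecls
  constructor
  · intro h f hf
    have h1 : e' ∈ univ.filter fun e'' => ∀ f ∈ U, f (G a e) = f (G a e'') := by
      rw [h]
      simp
    exact (mem_filter.1 h1).2 f hf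
  · intro h
    ext x
    simp only [mem_filter, mem_univ, true_and]
    constructor
    · intro hx f hf
      rw [← h f hf, hx f hf]
    · intro hx f hf
      rw [h f hf, hx f hf]

theorem finrank_step (hk : 1 ≤ k) (G : OutRegular n k) (U : Submodule ℚ (Fin n → ℚ))
    (T : Finset (Fin n)) (a : Fin n) :
    finrank ℚ (U ⊓ outConst G (insert a T) : Submodule ℚ (Fin n → ℚ)) ≤
      finrank ℚ (U ⊓ outConst G T : Submodule ℚ (Fin n → ℚ)) +
        (((univ : Finset (Fin k)).image (ecls G (U ⊓ outConst G (insert a T)) a)).card - 1) := by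
  classical
  set U' : Submodule ℚ (Fin n → ℚ) := U ⊓ outConst G (insert a T) with hU'
  set e0 : Fin k := ⟨0, hk⟩
  set I := (univ : Finset (Fin k)).image (ecls G U' a) with hI
  have hrep : ∀ A : I, ∃ e, ecls G U' a e = A := by
    rintro ⟨A, hA⟩
    rw [hI, mem_image] at hA
    obtain ⟨e, _, he⟩ := hA
    exact ⟨e, he⟩
  choose rep hrep using hrep
  set J := I.erase (ecls G U' a e0) with hJ
  have hJI : ∀ A ∈ J, A ∈ I := fun A hA => mem_of_mem_erase hA
  let D : U' →ₗ[ℚ] (J → ℚ) :=
    { toFun := fun f A => (f : Fin n → ℚ) (G a (rep ⟨A, hJI _ A.2⟩)) - (f : Fin n → ℚ) (G a e0)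
      map_add' := by
        intro f g
        funext A
        simp only [Submodule.coe_add, Pi.add_apply]
        ring
      map_smul' := by
        intro c f
        funext A
        simp only [Submodule.coe_smul, Pi.smul_apply, smul_eq_mul, RingHom.id_apply]
        ring }
  have h1 := LinearMap.finrank_range_add_finrank_ker D
  have h2 : finrank ℚ (LinearMap.range D) ≤ I.card - 1 := by
    have h3 := Submodule.finrank_le (LinearMap.range D)
    have h4 : finrank ℚ (J → ℚ) = I.card - 1 := by
      rw [finrank_fintype_fun_eq_card, Fintype.card_coe, hJ, card_erase_of_mem]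
      rw [hI]
      exact mem_image_of_mem _ (mem_univ _)
    rw [h4] at h3
    exact h3
  have h3 : finrank ℚ (LinearMap.ker D) ≤
      finrank ℚ (U ⊓ outConst G T : Submodule ℚ (Fin n → ℚ)) := by
    have h4 : ∀ f : U', D f = 0 → (f : Fin n → ℚ) ∈ (U ⊓ outConst G T) := by
      intro f hf
      refine ⟨f.2.1, ?_⟩
      intro v hv e e'
      by_cases hva : v = a
      · subst hva
        have h5 : ∀ e, (f : Fin n → ℚ) (G v e) = (f : Fin n → ℚ) (G v e0) := by
          intro e
          by_cases he : ecls G U' v e = ecls G U' v e0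
          · exact ecls_eq.1 he f f.2
          · have h6 : ecls G U' v e ∈ J := by
              rw [hJ, mem_erase]
              exact ⟨he, mem_image_of_mem _ (mem_univ _)⟩
            have h7 := congrFun hf ⟨_, h6⟩
            have h8 := hrep ⟨ecls G U' v e, hJI _ h6⟩
            have h9 := ecls_eq.1 h8 f f.2
            have h10 : (f : Fin n → ℚ) (G v (rep ⟨ecls G U' v e, hJI _ h6⟩)) -
                (f : Fin n → ℚ) (G v e0) = 0 := h7
            rw [h9] at h10
            linarith
        rw [h5 e, h5 e']
      · apply f.2.2 v _ e e'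
        rw [mem_insert]
        push Not
        exact ⟨hva, hv⟩
    let E : LinearMap.ker D →ₗ[ℚ] (U ⊓ outConst G T : Submodule ℚ (Fin n → ℚ)) :=
      { toFun := fun f => ⟨(f : U'), h4 f (LinearMap.mem_ker.1 f.2)⟩
        map_add' := fun f g => rfl
        map_smul' := fun c f => rfl }
    apply LinearMap.finrank_le_finrank_of_injective (f := E)
    intro f g hfg
    have h5 : ((E f : _) : Fin n → ℚ) = ((E g : _) : Fin n → ℚ) := by rw [hfg]
    exact Subtype.ext (Subtype.ext h5)
  omega

theorem card_mul_le (hk : 1 ≤ k) (G : OutRegular n k) {w : Fin n → ℚ} (hw : ∀ v, w v ≠ 0)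
    (U : Submodule ℚ (Fin n → ℚ)) (T : Finset (Fin n)) :
    ∀ C : Finset (Coloring n k), (∀ c ∈ C, ∀ c' ∈ C, ∀ v, v ∉ T → c v = c' v) →
      (∀ c ∈ C, ∀ c' ∈ C, ∀ f ∈ U ⊓ outConst G T, ∀ i,
        ∑ v, w v * f (step G c v i) = ∑ v, w v * f (step G c' v i)) →
      C.card * 2 ^ (finrank ℚ (U ⊓ outConst G T : Submodule ℚ (Fin n → ℚ)) -
        finrank ℚ (U ⊓ outConst G ∅ : Submodule ℚ (Fin n → ℚ))) ≤ k.factorial ^ T.card := by
  classical
  induction T using Finset.induction_on with
  | empty =>
    intro C hC _
    rw [Nat.sub_self, pow_zero, mul_one, card_empty, pow_zero, card_le_one]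
    intro c hc c' hc'
    funext v
    exact hC c hc c' hc' v (notMem_empty v)
  | insert a T ha ih =>
    intro C hC1 hC2
    set U' : Submodule ℚ (Fin n → ℚ) := U ⊓ outConst G (insert a T) with hU'
    have hle : U ⊓ outConst G T ≤ U' := inf_le_inf le_rfl (outConst_mono G (subset_insert a T))
    let ψ : Coloring n k → Coloring n k := fun c => Function.update c a 1
    set I := (univ : Finset (Fin k)).image (ecls G U' a) with hI
    -- the image
    have h1 : (C.image ψ).card * 2 ^ (finrank ℚ (U ⊓ outConst G T : Submodule ℚ (Fin n → ℚ)) -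
        finrank ℚ (U ⊓ outConst G ∅ : Submodule ℚ (Fin n → ℚ))) ≤ k.factorial ^ T.card := by
      apply ih
      · intro d hd d' hd' v hv
        rw [mem_image] at hd hd'
        obtain ⟨c, hc, rfl⟩ := hd
        obtain ⟨c', hc', rfl⟩ := hd'
        by_cases hva : v = a
        · subst hva
          simp only [ψ, Function.update_self]
        · simp only [ψ, Function.update_of_ne hva]
          apply hC1 c hc c' hc' v
          rw [mem_insert]
          push Not
          exact ⟨hva, hv⟩
      · have hψ : ∀ c, ∀ f ∈ U ⊓ outConst G T, ∀ i,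
            ∑ v, w v * f (step G (ψ c) v i) = ∑ v, w v * f (step G c v i) := by
          intro c f hf i
          refine sum_congr rfl fun v _ => ?_
          by_cases hva : v = a
          · subst hva
            unfold step
            rw [hf.2 v ha (((ψ c) v).symm i) ((c v).symm i)]
          · unfold step
            simp only [ψ, Function.update_of_ne hva]
        intro d hd d' hd' f hf i
        rw [mem_image] at hd hd'
        obtain ⟨c, hc, rfl⟩ := hd
        obtain ⟨c', hc', rfl⟩ := hd'
        rw [hψ c f hf i, hψ c' f hf i]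
        exact hC2 c hc c' hc' f (hle hf) i
    -- the fibres
    have h2 : ∀ d ∈ C.image ψ, (C.filter fun c => ψ c = d).card ≤
        k.factorial / 2 ^ (I.card - 1) := by
      intro d _
      rw [Nat.le_div_iff_mul_le (by positivity)]
      set Cd := C.filter fun c => ψ c = d with hCd
      have hagree : ∀ c ∈ Cd, ∀ c' ∈ Cd, ∀ v, v ≠ a → c v = c' v := by
        intro c hc c' hc' v hv
        have h3 := (mem_filter.1 hc).2.trans (mem_filter.1 hc').2.symm
        have h4 := congrFun h3 v
        simp only [ψ, Function.update_of_ne hv] at h4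
        exact h4
      have hinj : Set.InjOn (fun c : Coloring n k => c a) (Cd : Set (Coloring n k)) := by
        intro c hc c' hc' hcc
        funext v
        by_cases hva : v = a
        · rw [hva]
          exact hcc
        · exact hagree c (mem_coe.1 hc) c' (mem_coe.1 hc') v hva
      rw [← card_image_of_injOn hinj]
      apply perm_fibre (ecls G U' a)
      intro σ hσ τ hτ i
      rw [mem_image] at hσ hτ
      obtain ⟨c, hc, rfl⟩ := hσ
      obtain ⟨c', hc', rfl⟩ := hτ
      rw [ecls_eq]
      intro f hf
      have h3 := hC2 c (mem_filter.1 hc).1 c' (mem_filter.1 hc').1 f hf i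
      rw [← add_sum_erase univ _ (mem_univ a), ← add_sum_erase univ (fun v => w v * f (step G c' v i))
        (mem_univ a)] at h3
      have h4 : ∑ v ∈ univ.erase a, w v * f (step G c v i) =
          ∑ v ∈ univ.erase a, w v * f (step G c' v i) := by
        refine sum_congr rfl fun v hv => ?_
        unfold step
        rw [hagree c hc c' hc' v (ne_of_mem_erase hv)]
      rw [h4] at h3
      have h5 := add_right_cancel h3
      exact mul_left_cancel₀ (hw a) h5
    have h3 := card_le_mul_card_image C _ h2
    have h4 := finrank_step hk G U T a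
    rw [← hU', ← hI] at h4
    rw [card_insert_of_notMem ha, pow_succ]
    set x := finrank ℚ (U ⊓ outConst G T : Submodule ℚ (Fin n → ℚ))
    set y := finrank ℚ (U ⊓ outConst G ∅ : Submodule ℚ (Fin n → ℚ))
    calc C.card * 2 ^ (finrank ℚ U' - y)
        ≤ (k.factorial / 2 ^ (I.card - 1) * (C.image ψ).card) *
            2 ^ ((I.card - 1) + (x - y)) := by
          apply Nat.mul_le_mul h3
          apply Nat.pow_le_pow_right (by norm_num)
          omega
      _ = (k.factorial / 2 ^ (I.card - 1) * 2 ^ (I.card - 1)) *
            ((C.image ψ).card * 2 ^ (x - y)) := by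
          rw [pow_add]
          ring
      _ ≤ k.factorial * k.factorial ^ T.card :=
          Nat.mul_le_mul (Nat.div_mul_le_self _ _) h1
      _ = k.factorial ^ T.card * k.factorial := mul_comm _ _

open Classical in
/-- The colorings `c` such that for every `f` in `U` and every color `i` the weighted sum of the
values of `f` at the heads of the edges of color `i` is zero. -/
noncomputable def orth (G : OutRegular n k) (w : Fin n → ℚ) (U : Submodule ℚ (Fin n → ℚ)) :
    Finset (Coloring n k) :=
  univ.filter fun c => ∀ f ∈ U, ∀ i, ∑ v, w v * f (step G c v i) = 0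

/-- The rank bound. -/
theorem orth_rank (hk : 1 ≤ k) (G : OutRegular n k) {w : Fin n → ℚ} (hw : ∀ v, w v ≠ 0)
    (U : Submodule ℚ (Fin n → ℚ)) :
    (orth G w U).card * 2 ^ (finrank ℚ U -
        finrank ℚ (U ⊓ outConst G ∅ : Submodule ℚ (Fin n → ℚ))) ≤ k.factorial ^ n := by
  classical
  have h0 : U ⊓ outConst G univ = U := by
    rw [inf_eq_left]
    intro f _ v hv
    exact absurd (mem_univ v) hv
  have h1 := card_mul_le hk G hw U univ (orth G w U) (fun c _ c' _ v hv => absurd (mem_univ v) hv)
    (fun c hc c' hc' f hf i => by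
      rw [(mem_filter.1 hc).2 f hf.1 i, (mem_filter.1 hc').2 f hf.1 i])
  rw [h0, card_univ, Fintype.card_fin] at h1
  exact h1

end Pool.Agent.H98.SPC
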