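import Pool.Agent.H10.Sync.Defs

/-!
# The definitions used in the statement
-/

namespace Pool.Agent.H98.SPC

open Finset Module Polynomial
open Pool.Agent.H10.Sync

variable {n k : ℕ}

/-- The adjacency operator of the digraph: `(adj G f) v` is the sum of the values of `f` at the
heads of the `k` edges leaving `v`. -/
def adj (G : OutRegular n k) : (Fin n → ℚ) →ₗ[ℚ] (Fin n → ℚ) where
  toFun f := fun v => ∑ e, f (G v e)
  map_add' f g := by
    funext v
    simp only [Pi.add_apply, sum_add_distrib]
  map_smul' a f := by
    funext v
    simp only [Pi.smul_apply, smul_eq_mul, RingHom.id_apply, mul_sum]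

/-- Positive weights which are stationary: a left eigenvector of the adjacency operator. -/
def IsWeight (G : OutRegular n k) (w : Fin n → ℚ) : Prop :=
  (∀ v, 0 < w v) ∧ ∀ f : Fin n → ℚ, ∑ v, w v * adj G f v = k * ∑ v, w v * f v

/-- A coloring all of whose letters are permutations. -/
def PermColoring (G : OutRegular n k) (c : Coloring n k) : Prop :=
  ∀ i, Function.Bijective fun v => step G c v i

/-- The in-degree. -/
def inDegree (G : OutRegular n k) (y : Fin n) : ℕ :=
  ((univ : Finset (Fin n × Fin k)).filter fun p => G p.1 p.2 = y).card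

/-- The graph on the vertices in which two different out-neighbours of a common vertex are
adjacent. -/
def outGraph (G : OutRegular n k) : SimpleGraph (Fin n) :=
  SimpleGraph.fromRel fun y y' => ∃ v e e', y = G v e ∧ y' = G v e'

/-- The number of the connected components of the graph of the out-neighbours. -/
noncomputable def outComponents (G : OutRegular n k) : ℕ :=
  Nat.card (outGraph G).ConnectedComponent

/-- The functions `a` such that the sum of `a f` is zero for every `f` in the range of
`(A - k) g'(A)`. -/
def leftKer (G : OutRegular n k) (g' : ℚ[X]) : Submodule ℚ (Fin n → ℚ) where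
  carrier := {a | ∀ f, ∑ v, a v * (aeval (adj G) ((X - C (k : ℚ)) * g') f) v = 0}
  add_mem' := by
    intro a b ha hb f
    simp only [Pi.add_apply, add_mul, sum_add_distrib]
    rw [ha f, hb f, add_zero]
  zero_mem' := by
    intro f
    simp
  smul_mem' := by
    intro c a ha f
    have h1 : ∀ v, (c • a) v * (aeval (adj G) ((X - C (k : ℚ)) * g') f) v =
        c * (a v * (aeval (adj G) ((X - C (k : ℚ)) * g') f) v) := by
      intro v
      rw [Pi.smul_apply, smul_eq_mul]
      ring
    rw [sum_congr rfl fun v _ => h1 v, ← mul_sum, ha f, mul_zero]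

open Classical in
/-- The bound for the fraction of the permutation colorings. -/
noncomputable def permBound (G : OutRegular n k) : ℝ :=
  if ∀ y, inDegree G y = k then min (1 / (k : ℝ)) (1 / 2 ^ (n - outComponents G)) else 0

/-- The functions on the edges which are constant on the edges leaving each vertex outside `T`. -/
def edgeConst (n k : ℕ) (T : Finset (Fin n)) : Submodule ℚ (Fin n → Fin k → ℚ) where
  carrier := {f | ∀ v, v ∉ T → ∀ e e', f v e = f v e'}
  add_mem' := by
    intro f g hf hg v hv e e'
    rw [Pi.add_apply, Pi.add_apply, Pi.add_apply, hf v hv e e', hg v hv e e']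
  zero_mem' := by
    intro v _ e e'
    rfl
  smul_mem' := by
    intro a f hf v hv e e'
    rw [Pi.smul_apply, Pi.smul_apply, Pi.smul_apply, hf v hv e e']

/-- The span of the functions `(v, e) ↦ a v * f (G v e)` with `a` in `M` and `f` in `U`. -/
def pairSpan (G : OutRegular n k) (U M : Submodule ℚ (Fin n → ℚ)) :
    Submodule ℚ (Fin n → Fin k → ℚ) :=
  Submodule.span ℚ {ψ | ∃ a ∈ M, ∃ f ∈ U, ψ = fun v e => a v * f (G v e)}

/-- The rank of a pair of subspaces: the dimension of the span of the functions
`(v, e) ↦ a v * f (G v e)` modulo the functions which are constant on the edges of each vertex. -/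
noncomputable def pairRank (G : OutRegular n k) (U M : Submodule ℚ (Fin n → ℚ)) : ℕ :=
  finrank ℚ (pairSpan G U M) -
    finrank ℚ (pairSpan G U M ⊓ edgeConst n k ∅ : Submodule ℚ (Fin n → Fin k → ℚ))

open Classical in
/-- The vertices at which some function of `U` is not constant on the out-neighbours. -/
noncomputable def activeSet (G : OutRegular n k) (U : Submodule ℚ (Fin n → ℚ)) :
    Finset (Fin n) :=
  univ.filter fun v => ∃ f ∈ U, ∃ e e', f (G v e) ≠ f (G v e')

/-- The functions which vanish outside `T`. -/
def supp (T : Finset (Fin n)) : Submodule ℚ (Fin n → ℚ) where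
  carrier := {f | ∀ v, v ∉ T → f v = 0}
  add_mem' := by
    intro f g hf hg v hv
    rw [Pi.add_apply, hf v hv, hg v hv, add_zero]
  zero_mem' := by
    intro v _
    rfl
  smul_mem' := by
    intro a f hf v hv
    rw [Pi.smul_apply, hf v hv, smul_zero]

/-- The bound for a pair of subspaces. -/
noncomputable def pairBound (G : OutRegular n k) (U M : Submodule ℚ (Fin n → ℚ)) : ℝ :=
  min (1 / 2 ^ pairRank G U M)
    (1 / (k : ℝ) ^ (finrank ℚ M -
      finrank ℚ (M ⊓ supp (activeSet G U)ᶜ : Submodule ℚ (Fin n → ℚ))))

/-- A vertex `v` is confluent if for some `N ≥ 1` all walks of length `N` which start at `v` have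
the same end. -/
def Confluent (G : OutRegular n k) (v : Fin n) : Prop :=
  ∃ N, 1 ≤ N ∧ ∃ z, ∀ y, Reach G N v y → y = z

/-- A relation between the weights of the vertices which are not confluent, with coefficients `-1`,
`0` and `1`. -/
def IsRelation (G : OutRegular n k) (w ε : Fin n → ℚ) : Prop :=
  (∀ u, ε u = -1 ∨ ε u = 0 ∨ ε u = 1) ∧ (∀ u, Confluent G u → ε u = 0) ∧ ∑ u, w u * ε u = 0

/-- The vertex `v` is related if it occurs in a relation. -/
def Related (G : OutRegular n k) (w : Fin n → ℚ) (v : Fin n) : Prop :=
  ∃ ε : Fin n → ℚ, IsRelation G w ε ∧ ε v ≠ 0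

end Pool.Agent.H98.SPC
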