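import Pool.Agent.H98.SPC.CountBad

/-!
# At most three vertices which are not confluent
-/

namespace Pool.Agent.H98.SPC

open Finset
open Pool.Agent.H10.Sync

variable {n k : ℕ} {G : OutRegular n k}

/-- The values which a relation can take. -/
def Small (a : ℚ) : Prop := a = -1 ∨ a = 0 ∨ a = 1

/-- The combinatorial core of the case of three vertices. -/
theorem three_cases (B : ℚ → ℚ → ℚ → Prop)
    (hsub : ∀ a b c a' b' c', B a b c → B a' b' c' → B (a - a') (b - b') (c - c'))
    (hneg : ∀ a b c, B a b c → B (-a) (-b) (-c)) {x y z : ℚ} (hx : 0 < x) (hy : 0 < y)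
    (hz : 0 < z) (hyx : y ≤ x) (hzx : z ≤ x) (hperp : ∀ a b c, B a b c → x * a + y * b + z * c = 0)
    {X Y Z : Prop} (hX : X → ∃ b c, Small b ∧ Small c ∧ B 1 b c)
    (hY : Y → ∃ a c, Small a ∧ Small c ∧ B a 1 c) (hZ : Z → ∃ a b, Small a ∧ Small b ∧ B a b 1)
    (hne : X ∨ Y ∨ Z) (ky : B 1 0 (-1) → Y) (kx : B 0 1 (-1) → X) :
    (x = y + z → B 1 (-1) (-1)) ∧ (x ≠ y + z → x = y → B 1 (-1) 0) ∧
    (x ≠ y + z → x ≠ y → x = z → B 1 0 (-1)) ∧
    (x ≠ y + z → x ≠ y → x ≠ z → B 0 1 (-1)) := by
  -- the possible relations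
  have hX' : X → (x = y ∧ B 1 (-1) 0) ∨ (x = z ∧ B 1 0 (-1)) ∨ (x = y + z ∧ B 1 (-1) (-1)) := by
    intro h
    obtain ⟨b, c, hb, hc, hB⟩ := hX h
    have h1 := hperp _ _ _ hB
    rcases hb with rfl | rfl | rfl <;> rcases hc with rfl | rfl | rfl
    · exact Or.inr (Or.inr ⟨by linarith, hB⟩)
    · exact Or.inl ⟨by linarith, hB⟩
    · exfalso; linarith
    · exact Or.inr (Or.inl ⟨by linarith, hB⟩)
    · exfalso; linarith
    · exfalso; linarith
    · exfalso; linarith
    · exfalso; linarith
    · exfalso; linarith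
  have hY' : Y → (x = y ∧ B 1 (-1) 0) ∨ (y = z ∧ B 0 1 (-1)) ∨ (x = y + z ∧ B 1 (-1) (-1)) := by
    intro h
    obtain ⟨a, c, ha, hc, hB⟩ := hY h
    have h1 := hperp _ _ _ hB
    rcases ha with rfl | rfl | rfl <;> rcases hc with rfl | rfl | rfl
    · exfalso; linarith
    · have h2 := hneg _ _ _ hB
      norm_num at h2
      exact Or.inl ⟨by linarith, h2⟩
    · have h2 := hneg _ _ _ hB
      norm_num at h2
      exact Or.inr (Or.inr ⟨by linarith, h2⟩)
    · exact Or.inr (Or.inl ⟨by linarith, hB⟩)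
    · exfalso; linarith
    · exfalso; linarith
    · exfalso; linarith
    · exfalso; linarith
    · exfalso; linarith
  have hZ' : Z → (x = z ∧ B 1 0 (-1)) ∨ (y = z ∧ B 0 1 (-1)) ∨ (x = y + z ∧ B 1 (-1) (-1)) := by
    intro h
    obtain ⟨a, b, ha, hb, hB⟩ := hZ h
    have h1 := hperp _ _ _ hB
    rcases ha with rfl | rfl | rfl <;> rcases hb with rfl | rfl | rfl
    · exfalso; linarith
    · have h2 := hneg _ _ _ hB
      norm_num at h2
      exact Or.inl ⟨by linarith, h2⟩
    · have h2 := hneg _ _ _ hB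
      norm_num at h2
      exact Or.inr (Or.inr ⟨by linarith, h2⟩)
    · have h2 := hneg _ _ _ hB
      norm_num at h2
      exact Or.inr (Or.inl ⟨by linarith, h2⟩)
    · exfalso; linarith
    · exfalso; linarith
    · exfalso; linarith
    · exfalso; linarith
    · exfalso; linarith
  have hsub1 : B 1 0 (-1) → B 0 1 (-1) → B 1 (-1) 0 := by
    intro h1 h2
    have h3 := hsub _ _ _ _ _ _ h1 h2
    norm_num at h3
    exact h3
  -- a relation always exists
  have key : (x = y ∧ B 1 (-1) 0) ∨ (x = z ∧ B 1 0 (-1)) ∨ (y = z ∧ B 0 1 (-1)) ∨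
      (x = y + z ∧ B 1 (-1) (-1)) := by
    rcases hne with h | h | h
    · rcases hX' h with h | h | h
      · exact Or.inl h
      · exact Or.inr (Or.inl h)
      · exact Or.inr (Or.inr (Or.inr h))
    · rcases hY' h with h | h | h
      · exact Or.inl h
      · exact Or.inr (Or.inr (Or.inl h))
      · exact Or.inr (Or.inr (Or.inr h))
    · rcases hZ' h with h | h | h
      · exact Or.inr (Or.inl h)
      · exact Or.inr (Or.inr (Or.inl h))
      · exact Or.inr (Or.inr (Or.inr h))
  refine ⟨fun hT => ?_, fun hT h1 => ?_, fun hT h1 h2 => ?_, fun hT h1 h2 => ?_⟩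
  · rcases key with h | h | h | h
    · exfalso; linarith [h.1]
    · exfalso; linarith [h.1]
    · rcases hX' (kx h.2) with h3 | h3 | h3
      · exfalso; linarith [h3.1]
      · exfalso; linarith [h3.1]
      · exact h3.2
    · exact h.2
  · rcases key with h | h | h | h
    · exact h.2
    · rcases hY' (ky h.2) with h3 | h3 | h3
      · exact h3.2
      · exact hsub1 h.2 h3.2
      · exact absurd h3.1 hT
    · rcases hX' (kx h.2) with h3 | h3 | h3
      · exact h3.2
      · exact hsub1 h3.2 h.2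
      · exact absurd h3.1 hT
    · exact absurd h.1 hT
  · rcases key with h | h | h | h
    · exact absurd h.1 h1
    · exact h.2
    · exact absurd (h2.trans h.1.symm) h1
    · exact absurd h.1 hT
  · rcases key with h | h | h | h
    · exact absurd h.1 h1
    · exact absurd h.1 h2
    · exact h.2
    · exact absurd h.1 hT

/-- Active vertices of a subspace. -/
def Active (G : OutRegular n k) (U : Submodule ℚ (Fin n → ℚ)) (v : Fin n) : Prop :=
  ∃ f ∈ U, ∃ e e', f (G v e) ≠ f (G v e')

theorem relation_of_active {U : Submodule ℚ (Fin n → ℚ)} (hadm : Admissible G U) {v : Fin n}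
    (hv : Active G U v) : ∃ ε ∈ U, ε v = 1 ∧ (∀ u, Small (ε u)) ∧
      ∀ u, Confluent G u → ε u = 0 := by
  obtain ⟨-, -, r, -, hr⟩ := hadm
  obtain ⟨φ, φ', h1, h2, h3⟩ := hr v hv
  refine ⟨cind φ (φ v) - cind φ' (φ v), U.sub_mem (h3 _).1 (h3 _).2, ?_, ?_, ?_⟩
  · simp only [Pi.sub_apply, cind, if_true]
    rw [if_neg (Ne.symm h1)]
    ring
  · intro u
    simp only [Pi.sub_apply, cind]
    unfold Small
    split_ifs
    · right; left; ring
    · right; right; ring
    · left; ring
    · right; left; ring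
  · intro u hu
    simp only [Pi.sub_apply, cind]
    rw [h2 u hu, sub_self]

theorem exists_active_of_ne (hG : Primitive G) {U : Submodule ℚ (Fin n → ℚ)} (hU : U ≠ ⊥)
    (h1 : ∀ f ∈ U, adj G f ∈ U) (h2 : (fun _ => (1 : ℚ)) ∉ U) : ∃ v, Active G U v := by
  obtain ⟨f, hf, hf0⟩ := (Submodule.ne_bot_iff U).1 hU
  have hne := nonempty_of_primitive hG
  have h3 : ¬ ∀ u v, f u = f v := by
    intro hc
    obtain ⟨v0⟩ := hne
    have h6 : f v0 ≠ 0 := by
      intro h6
      apply hf0
      funext v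
      rw [hc v v0, h6]
      rfl
    apply h2
    have h7 : (fun _ => (1 : ℚ)) = (f v0)⁻¹ • f := by
      funext v
      simp only [Pi.smul_apply, smul_eq_mul]
      rw [hc v v0, inv_mul_cancel₀ h6]
    rw [h7]
    exact U.smul_mem _ hf
  obtain ⟨t, v, e, e', hne'⟩ := exists_active hG h3
  exact ⟨v, _, iterate_mem h1 hf t, e, e', hne'⟩

theorem reach_last {l : ℕ} {u y : Fin n} (h : Reach G (l + 1) u y) :
    ∃ z e, Reach G l u z ∧ G z e = y := by
  induction l generalizing u with
  | zero =>
    obtain ⟨e, he⟩ := h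
    exact ⟨u, e, rfl, he⟩
  | succ l ih =>
    obtain ⟨e, he⟩ := h
    obtain ⟨z, e', h1, h2⟩ := ih he
    exact ⟨z, e', ⟨e, h1⟩, h2⟩

/-- If `e_a - e_b` belongs to `U` and only `a` and `b` are active, then all other vertices are
confluent. -/
theorem confluent_of_two (hk : 1 ≤ k) (hG : Primitive G) {U : Submodule ℚ (Fin n → ℚ)}
    (h1 : ∀ f ∈ U, adj G f ∈ U) {a b : Fin n} (hab : a ≠ b)
    (hf : (Pi.single a 1 - Pi.single b 1 : Fin n → ℚ) ∈ U)
    (hact : ∀ v, Active G U v → v = a ∨ v = b) {v : Fin n} (hva : v ≠ a) (hvb : v ≠ b) :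
    Confluent G v := by
  classical
  have hk0 : (k : ℚ) ≠ 0 := by
    have : k ≠ 0 := by omega
    exact_mod_cast this
  -- the first time at which `a` or `b` can be reached
  have hex : ∃ N, 1 ≤ N ∧ ∃ y, Reach G N v y ∧ (y = a ∨ y = b) := by
    obtain ⟨l, hl⟩ := hG.1 v a
    refine ⟨l, ?_, a, hl, Or.inl rfl⟩
    rcases Nat.eq_zero_or_pos l with h | h
    · subst h
      exact absurd hl hva
    · exact h
  obtain ⟨hN1, y0, hy0, hy0'⟩ := Nat.find_spec hex
  set N := Nat.find hex with hNdef
  have hmin : ∀ j < N, ∀ y, Reach G j v y → y ≠ a ∧ y ≠ b := by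
    intro j hj y hy
    rcases Nat.eq_zero_or_pos j with h | h
    · subst h
      have hy' : v = y := hy
      rw [← hy']
      exact ⟨hva, hvb⟩
    · have h2 := Nat.find_min hex hj
      constructor
      · rintro rfl
        exact h2 ⟨h, y, hy, Or.inl rfl⟩
      · rintro rfl
        exact h2 ⟨h, y, hy, Or.inr rfl⟩
  have hP : ∀ j ≤ N, ∀ y y', Reach G j v y → Reach G j v y' → ∀ f ∈ U, f y = f y' := by
    intro j
    induction j with
    | zero =>
      intro _ y y' hy hy' f _
      have h2 : v = y := hy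
      have h3 : v = y' := hy'
      rw [← h2, ← h3]
    | succ j ih =>
      intro hj y y' hy hy' f hfU
      obtain ⟨z, e, hz, rfl⟩ := reach_last hy
      obtain ⟨z', e', hz', rfl⟩ := reach_last hy'
      have hval : ∀ z, Reach G j v z → ∀ e, adj G f z = k * f (G z e) := by
        intro z hz e
        have h2 : ¬ Active G U z := by
          intro h3
          obtain ⟨h4, h5⟩ := hmin j (by omega) z hz
          rcases hact z h3 with h6 | h6
          · exact h4 h6
          · exact h5 h6
        have h3 : ∀ e', f (G z e') = f (G z e) := by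
          intro e'
          by_contra h4
          exact h2 ⟨f, hfU, e', e, h4⟩
        rw [adj_apply, sum_congr rfl fun e' _ => h3 e', sum_const, card_univ, Fintype.card_fin,
          nsmul_eq_mul]
      have h2 := ih (by omega) z z' hz hz' _ (h1 f hfU)
      rw [hval z hz e, hval z' hz' e'] at h2
      exact mul_left_cancel₀ hk0 h2
  refine ⟨N, hN1, y0, fun y hy => ?_⟩
  have h2 := hP N le_rfl y y0 hy hy0 _ hf
  by_contra hne
  rcases hy0' with rfl | rfl
  · rw [Pi.sub_apply, Pi.sub_apply, Pi.single_eq_same, Pi.single_eq_of_ne hne,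
      Pi.single_eq_of_ne hab] at h2
    by_cases hyb : y = b
    · rw [hyb, Pi.single_eq_same] at h2
      norm_num at h2
    · rw [Pi.single_eq_of_ne hyb] at h2
      norm_num at h2
  · rw [Pi.sub_apply, Pi.sub_apply, Pi.single_eq_same, Pi.single_eq_of_ne hne,
      Pi.single_eq_of_ne hab.symm] at h2
    by_cases hya : y = a
    · rw [hya, Pi.single_eq_same] at h2
      norm_num at h2
    · rw [Pi.single_eq_of_ne hya] at h2
      norm_num at h2

end Pool.Agent.H98.SPC
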