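import Pool.Agent.H98.SPC.Defs
import Pool.Agent.H10.Sync.Graph

/-!
# Stationary weights
-/

namespace Pool.Agent.H98.SPC

open Finset
open Pool.Agent.H10.Sync

variable {n k : ℕ} {G : OutRegular n k}

/-- The number of edges from `u` to `y`. -/
def mult (G : OutRegular n k) (u y : Fin n) : ℚ := ∑ e, if G u e = y then 1 else 0

theorem mult_nonneg (u y : Fin n) : 0 ≤ mult G u y :=
  sum_nonneg fun e _ => by split_ifs <;> norm_num

theorem one_le_mult (u : Fin n) (e : Fin k) : 1 ≤ mult G u (G u e) := by
  unfold mult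
  have h2 := single_le_sum (s := univ) (f := fun e' => if G u e' = G u e then (1 : ℚ) else 0)
    (fun i _ => by split_ifs <;> norm_num) (mem_univ e)
  simpa using h2

theorem sum_mult (f : Fin n → ℚ) (u : Fin n) : ∑ y, mult G u y * f y = adj G f u := by
  unfold mult
  rw [adj_apply]
  simp only [sum_mul, ite_mul, one_mul, zero_mul]
  rw [sum_comm]
  refine sum_congr rfl fun e _ => ?_
  rw [sum_ite_eq, if_pos (mem_univ _)]

theorem exists_weight (hG : Primitive G) : ∃ w : Fin n → ℚ, IsWeight G w := by
  classical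
  have hne := nonempty_of_primitive hG
  let B : Matrix (Fin n) (Fin n) ℚ := Matrix.of fun u y => mult G u y
  have hrow : ∀ u, ∑ y, mult G u y = k := by
    intro u
    have h := sum_mult (G := G) (fun _ => 1) u
    simp only [mul_one] at h
    rw [h, adj_apply]
    simp
  have hmul : (B - (k : ℚ) • (1 : Matrix (Fin n) (Fin n) ℚ)).mulVec (fun _ => 1) = 0 := by
    funext u
    rw [Matrix.sub_mulVec, Matrix.smul_mulVec, Matrix.one_mulVec]
    simp [Matrix.mulVec, dotProduct, B, hrow]
  have hv : (fun _ => 1 : Fin n → ℚ) ≠ 0 := by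
    intro h
    obtain ⟨v⟩ := hne
    exact one_ne_zero (congrFun h v)
  have hdet := Matrix.exists_mulVec_eq_zero_iff.1 ⟨fun _ => 1, hv, hmul⟩
  obtain ⟨φ, hφ, h⟩ := Matrix.exists_vecMul_eq_zero_iff.2 hdet
  have hφ1 : ∀ y, ∑ u, φ u * mult G u y = k * φ y := by
    intro y
    have h1 := congrFun h y
    rw [Matrix.vecMul_sub, Matrix.vecMul_smul, Matrix.vecMul_one] at h1
    simp only [Pi.sub_apply, Pi.zero_apply, Pi.smul_apply, smul_eq_mul] at h1
    exact sub_eq_zero.1 h1
  -- the absolute values
  set a : Fin n → ℚ := fun u => |φ u| with ha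
  have ha0 : ∀ u, 0 ≤ a u := fun u => abs_nonneg _
  have hle : ∀ y, k * a y ≤ ∑ u, a u * mult G u y := by
    intro y
    have h1 : (k : ℚ) * a y = |∑ u, φ u * mult G u y| := by
      rw [hφ1, abs_mul, Nat.abs_cast]
    rw [h1]
    refine (abs_sum_le_sum_abs _ _).trans (le_of_eq (sum_congr rfl fun u _ => ?_))
    rw [abs_mul, abs_of_nonneg (mult_nonneg u y)]
  have htot : ∑ y, ∑ u, a u * mult G u y = ∑ y, k * a y := by
    rw [sum_comm, ← mul_sum]
    simp only [← mul_sum, hrow]
    rw [← sum_mul, mul_comm]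
  have heq : ∀ y, k * a y = ∑ u, a u * mult G u y := by
    intro y
    exact ((sum_eq_sum_iff_of_le fun y _ => hle y).1 htot.symm) y (mem_univ y)
  have hpos : ∀ u, 0 < a u → ∀ e, 0 < a (G u e) := by
    intro u hu e
    have h1 : 0 < k * a (G u e) := by
      rw [heq]
      have h2 : a u * mult G u (G u e) ≤ ∑ u', a u' * mult G u' (G u e) :=
        single_le_sum (f := fun u' => a u' * mult G u' (G u e))
          (fun i _ => mul_nonneg (ha0 i) (mult_nonneg _ _)) (mem_univ u)
      have h3 : 0 < a u * mult G u (G u e) :=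
        mul_pos hu (lt_of_lt_of_le one_pos (one_le_mult u e))
      exact lt_of_lt_of_le h3 h2
    rcases (ha0 (G u e)).lt_or_eq with h4 | h4
    · exact h4
    · rw [← h4, mul_zero] at h1
      exact absurd h1 (lt_irrefl _)
  have hreach : ∀ l u v, Reach G l u v → 0 < a u → 0 < a v := by
    intro l
    induction l with
    | zero =>
      intro u v h hu
      have h' : u = v := h
      rw [← h']
      exact hu
    | succ l ih =>
      rintro u v ⟨e, he⟩ hu
      exact ih _ _ he (hpos u hu e)
  obtain ⟨u0, hu0⟩ : ∃ u, φ u ≠ 0 := by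
    by_contra hcon
    push Not at hcon
    exact hφ (funext hcon)
  refine ⟨a, fun v => ?_, fun f => ?_⟩
  · obtain ⟨l, hl⟩ := hG.1 u0 v
    exact hreach l u0 v hl (abs_pos.2 hu0)
  · have h1 : ∀ v, a v * adj G f v = ∑ y, a v * mult G v y * f y := by
      intro v
      rw [← sum_mult, mul_sum]
      exact sum_congr rfl fun y _ => by ring
    rw [sum_congr rfl fun v _ => h1 v, sum_comm, mul_sum]
    refine sum_congr rfl fun y _ => ?_
    rw [← sum_mul, ← heq]
    ring

/-- Functions with `adj G f = k • f` are constant. -/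
theorem const_of_adj_eq (hG : Primitive G) {f : Fin n → ℚ}
    (h : ∀ v, adj G f v = k * f v) (u v : Fin n) : f u = f v := by
  classical
  have hne := nonempty_of_primitive hG
  obtain ⟨m, -, hm⟩ := exists_max_image (univ : Finset (Fin n)) f ⟨hne.some, mem_univ _⟩
  have hstep : ∀ u, f u = f m → ∀ e, f (G u e) = f m := by
    intro u hu e
    have h1 := h u
    rw [adj_apply, hu] at h1
    have h2 : ∑ e', f (G u e') = ∑ _e' : Fin k, f m := by
      rw [h1]
      simp
    exact ((sum_eq_sum_iff_of_le fun e' _ => hm _ (mem_univ _)).1 h2) e (mem_univ e)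
  have hreach : ∀ l u v, Reach G l u v → f u = f m → f v = f m := by
    intro l
    induction l with
    | zero =>
      intro u v h hu
      have h' : u = v := h
      rw [← h']
      exact hu
    | succ l ih =>
      rintro u v ⟨e, he⟩ hu
      exact ih _ _ he (hstep u hu e)
  have h1 : ∀ u, f u = f m := by
    intro u
    obtain ⟨l, hl⟩ := hG.1 m u
    exact hreach l m u hl rfl
  rw [h1 u, h1 v]

end Pool.Agent.H98.SPC
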